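import Pool.Agent.Helper73.HE.Dfn3

/-! # HE module Can: the canonical bad colouring -/

namespace Pool.Agent.Helper73.HE

open Ordinal Cardinal ZFSet Order Pool.Agent.Helper73.HODC

theorem can_defBy_congr {c : Fm × ℕ} {F : ZFSet.{0}} {q q' : ℕ → Ordinal.{0}}
    (hq : ∀ i < c.2 + 1, q i = q' i) (h : DefBy c F q) : DefBy c F q' := by
  obtain ⟨h1, h2, h3⟩ := h
  have hp : ∀ k, par c.2 q k = par c.2 q' k := bf_par_congr hq
  have h0 : q 0 = q' 0 := hq 0 (by omega)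
  have hfun : (fun k => (par c.2 q k).toZFSet) = fun k => (par c.2 q' k).toZFSet := by
    funext k
    rw [hp]
  refine ⟨?_, ?_, ?_⟩
  · intro k
    rw [← hp, ← h0]
    exact h1 k
  · rw [← h0]
    exact h2
  · intro y hy
    rw [← h0] at hy ⊢
    rw [← hfun]
    exact h3 y hy

theorem can_defBy_unique {c : Fm × ℕ} {F F' : ZFSet.{0}} {q q' : ℕ → Ordinal.{0}}
    (hq : ∀ i < c.2 + 1, q i = q' i) (h : DefBy c F q) (h' : DefBy c F' q') : F = F' := by
  have h1 := can_defBy_congr hq h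
  exact (h'.2.2 F h1.2.1).1 ((h1.2.2 F h1.2.1).2 rfl)

theorem canF_unique {c : Fm × ℕ} {ρ κ : Ordinal.{0}} {F F' : ZFSet.{0}} (h : CanF c ρ κ F)
    (h' : CanF c ρ κ F') : F = F' := by
  obtain ⟨q, h1, hb, h2⟩ := h
  obtain ⟨q', h1', hb', h2'⟩ := h'
  exact can_defBy_unique (bf_lexLe_antisymm (h2 _ _ h1' hb') (h2' _ _ h1 hb)) h1 h1'

theorem exists_canF {ρ κ : Ordinal.{0}} {F : ZFSet.{0}} (h : HOD F) (hb : Bad ρ κ F) :
    ∃ c F', CanF c ρ κ F' := by
  obtain ⟨_, ⟨θ, φ, p, hp, hgθ, hdef⟩, -⟩ := h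
  obtain ⟨m, hm⟩ := exists_bd φ
  have h0 : 0 < θ := lt_of_le_of_lt zero_le (hp 0)
  have hD : DefBy (φ, m) F (fun n => Nat.casesOn n θ p) := by
    refine ⟨?_, hgθ, ?_⟩
    · intro k
      unfold par
      split_ifs
      · exact hp k
      · exact h0
    · intro y hy
      rw [← hdef y hy]
      apply hm
      intro n hn
      rcases n with _ | k
      · rfl
      · have hk : k < m := by omega
        show (par m (fun n => Nat.casesOn n θ p) k).toZFSet = (p k).toZFSet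
        unfold par
        rw [if_pos hk]
  obtain ⟨q₀, ⟨F₀, h₀, hb₀⟩, hmin⟩ := bf_exists_lexLe (m + 1)
    {q | ∃ F, DefBy (φ, m) F q ∧ Bad ρ κ F} ⟨_, F, hD, hb⟩
  exact ⟨(φ, m), F₀, q₀, h₀, hb₀, fun F' q' h' hb' => hmin q' ⟨F', h', hb'⟩⟩

theorem can_dfn_defBy (c : Fm × ℕ) (k : ℕ) (s : ℕ → ℕ) :
    Dfn (fun v => DefBy c (v k) (fun n => (v (s n)).rank)) := by
  refine Dfn.and ?_ (Dfn.and ?_ ?_)
  · refine Dfn.bf_congr (P := fun v => (∀ k < c.2, (v (s (k + 1))).rank < (v (s 0)).rank) ∧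
      ¬ (v (s 0)).rank = 0) ?_ ?_
    · exact Dfn.and (Dfn.ball c.2 fun k _ => dfn_rank_lt _ _) (bf_dfn_rank_zero (s 0)).not
    · intro v
      constructor
      · rintro ⟨h1, h2⟩ k
        unfold par
        split_ifs with hk
        · exact h1 k hk
        · exact pos_iff_ne_zero.2 h2
      · intro h
        constructor
        · intro k hk
          have h1 := h k
          unfold par at h1
          rw [if_pos hk] at h1
          exact h1
        · have h1 := h c.2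
          unfold par at h1
          rw [if_neg (lt_irrefl _)] at h1
          exact h1.ne'
  · exact (dfn_rank_lt k (s 0)).bf_congr fun v => mem_vonNeumann.symm
  · refine Dfn.bf_congr (P := fun v => ∀ y, y.rank < (v (s 0)).rank →
        (Sat {z | z ∈ V_ (v (s 0)).rank} c.1
          (cons y (fun k => (par c.2 (fun n => (v (s n)).rank) k).toZFSet)) ↔ y = v k)) ?_ ?_
    · refine Dfn.all (Q := fun y v => y.rank < (v (s 0)).rank →
          (Sat {z | z ∈ V_ (v (s 0)).rank} c.1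
            (cons y (fun k => (par c.2 (fun n => (v (s n)).rank) k).toZFSet)) ↔ y = v k)) ?_
      refine Dfn.imp (dfn_rank_lt 0 (s 0 + 1)) (Dfn.iff ?_ (dfn_eq 0 (k + 1)))
      exact bf_dfn_satPar c.1 c.2 0 (fun n => s n + 1)
    · intro v
      constructor
      · intro h y hy
        exact h y (mem_vonNeumann.1 hy)
      · intro h y hy
        exact h y (mem_vonNeumann.2 hy)

theorem can_dfn_worse (c : Fm × ℕ) (a b d : ℕ) (s : ℕ → ℕ) :
    Dfn (fun v => ∃ q' : ℕ → Ordinal.{0}, DefBy c (v d) q' ∧ Bad (v a).rank (v b).rank (v d) ∧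
      ¬ LexLe (c.2 + 1) (fun n => (v (s n)).rank) q') := by
  refine (bf_dfn_exApp (c.2 + 1) (P := fun u => DefBy c (u (d + (c.2 + 1)))
    (fun n => (u n).rank) ∧ Bad (u (a + (c.2 + 1))).rank (u (b + (c.2 + 1))).rank
      (u (d + (c.2 + 1))) ∧
      ¬ LexLe (c.2 + 1) (fun n => (u (s n + (c.2 + 1))).rank) (fun n => (u n).rank))
    ((can_dfn_defBy c _ (fun n => n)).and ((dfn_bad _ _ _).and
      (bf_dfn_lexLe (c.2 + 1) (fun n => s n + (c.2 + 1)) (fun n => n)).not))).bf_congr ?_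
  intro v
  constructor
  · rintro ⟨w, h1, h2, h3⟩
    simp only [bf_app_ge] at h1 h2 h3
    exact ⟨_, h1, h2, h3⟩
  · rintro ⟨q', h1, h2, h5⟩
    refine ⟨fun n => (q' n).toZFSet, ?_⟩
    simp only [bf_app_ge]
    have h3 : ∀ n < c.2 + 1, q' n = (bfApp (c.2 + 1) (fun n => (q' n).toZFSet) v n).rank := by
      intro n hn
      rw [bf_app_lt _ _ hn, rank_toZFSet]
    refine ⟨can_defBy_congr h3 h1, h2, fun h4 => h5 ?_⟩
    exact bf_lexLe_congr (fun _ _ => rfl) (fun n hn => (h3 n hn).symm) h4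

theorem can_dfn_min (c : Fm × ℕ) (a b : ℕ) (s : ℕ → ℕ) :
    Dfn (fun v => ∀ (F' : ZFSet.{0}) (q' : ℕ → Ordinal.{0}), DefBy c F' q' →
      Bad (v a).rank (v b).rank F' → LexLe (c.2 + 1) (fun n => (v (s n)).rank) q') := by
  refine (Dfn.all (Q := fun F v => ¬ ∃ q' : ℕ → Ordinal.{0}, DefBy c F q' ∧
    Bad (v a).rank (v b).rank F ∧ ¬ LexLe (c.2 + 1) (fun n => (v (s n)).rank) q') ?_).bf_congr ?_
  · exact (can_dfn_worse c (a + 1) (b + 1) 0 (fun n => s n + 1)).not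
  · intro v
    constructor
    · intro h F' q' h1 h2
      by_contra h3
      exact h F' ⟨q', h1, h2, h3⟩
    · rintro h F ⟨q', h1, h2, h3⟩
      exact h3 (h _ _ h1 h2)

theorem dfn_canF (c : Fm × ℕ) (i j k : ℕ) :
    Dfn (fun v => CanF c (v i).rank (v j).rank (v k)) := by
  refine (bf_dfn_exApp (c.2 + 1) (P := fun u => DefBy c (u (k + (c.2 + 1)))
    (fun n => (u n).rank) ∧ Bad (u (i + (c.2 + 1))).rank (u (j + (c.2 + 1))).rank
      (u (k + (c.2 + 1))) ∧
      ∀ (F' : ZFSet.{0}) (q' : ℕ → Ordinal.{0}), DefBy c F' q' →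
        Bad (u (i + (c.2 + 1))).rank (u (j + (c.2 + 1))).rank F' →
          LexLe (c.2 + 1) (fun n => (u n).rank) q')
    ((can_dfn_defBy c _ (fun n => n)).and ((dfn_bad _ _ _).and
      (can_dfn_min c _ _ (fun n => n))))).bf_congr ?_
  intro v
  constructor
  · rintro ⟨w, h1, h2, h3⟩
    simp only [bf_app_ge] at h1 h2 h3
    exact ⟨_, h1, h2, h3⟩
  · rintro ⟨q, h1, h2, h4⟩
    refine ⟨fun n => (q n).toZFSet, ?_⟩
    simp only [bf_app_ge]
    have h3 : ∀ n < c.2 + 1, q n = (bfApp (c.2 + 1) (fun n => (q n).toZFSet) v n).rank := by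
      intro n hn
      rw [bf_app_lt _ _ hn, rank_toZFSet]
    refine ⟨can_defBy_congr h3 h1, h2, fun F' q' h5 h6 => ?_⟩
    exact bf_lexLe_congr h3 (fun _ _ => rfl) (h4 F' q' h5 h6)

end Pool.Agent.Helper73.HE
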