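import Pool.Agent.Helper73.HE.Can

/-! # HE module Abs: homogeneous sets in HOD -/

namespace Pool.Agent.Helper73.HE

open Ordinal Cardinal ZFSet Order Pool.Agent.Helper73.HODC

theorem exists_defBy {F : ZFSet.{0}} (h : HOD F) : ∃ c q, DefBy c F q := by
  obtain ⟨_, ⟨θ, φ, p, hp, hgθ, hdef⟩, -⟩ := h
  obtain ⟨m, hm⟩ := exists_bd φ
  have h0 : 0 < θ := lt_of_le_of_lt zero_le (hp 0)
  refine ⟨(φ, m), fun n => Nat.casesOn n θ p, ?_, hgθ, ?_⟩
  · intro k
    unfold par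
    split_ifs
    · exact hp k
    · exact h0
  · intro y hy
    rw [← hdef y hy]
    apply hm
    intro n hn
    rcases n with _ | k
    · rfl
    · have hk : k < m := by omega
      show (par m (fun n => Nat.casesOn n θ p) k).toZFSet = (p k).toZFSet
      unfold par
      rw [if_pos hk]

theorem dp_eq_HOD {F : ZFSet.{0}} (h : HOD F) (i : ℕ) : DP (fun v => v i = F) := by
  obtain ⟨c, q, hq⟩ := exists_defBy h
  refine ⟨fun w => DefBy c (w (2 * i)) (fun n => (w (2 * n + 1)).rank), q,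
    can_dfn_defBy c (2 * i) (fun n => 2 * n + 1), fun v => ?_⟩
  simp only [mixZ_even, mixZ_odd, rank_toZFSet]
  constructor
  · rintro rfl
    exact hq
  · intro h'
    exact can_defBy_unique (fun _ _ => rfl) h' hq

/-- sets in HOD may be used as parameters -/
theorem dp_subst_HOD {Q : ZFSet.{0} → (ℕ → ZFSet.{0}) → Prop}
    (h : DP (fun v => Q (v 0) (fun n => v (n + 1)))) {F : ZFSet.{0}} (hF : HOD F) :
    DP (fun v => Q F v) := by
  refine (DP.ex (Q := fun x v => x = F ∧ Q x v) ((dp_eq_HOD hF 0).and h)).congr fun v => ?_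
  constructor
  · intro h
    exact ⟨F, rfl, h⟩
  · rintro ⟨_, rfl, h⟩
    exact h

theorem fn_graph {μ : Ordinal.{0}} {x : Ordinal.{0} → Ordinal.{0}} {a : Ordinal.{0}}
    (ha : a < μ) : fn (graph μ x) a = x a := by
  rw [fn_eq_iff]
  left
  have key : ∀ d, d ∈ fnSet (graph μ x) a ↔ d = x a := by
    intro d
    constructor
    · rintro ⟨u, w, h, hu, hw⟩
      rw [graph, mem_range] at h
      obtain ⟨⟨b, hb⟩, hbe⟩ := h
      obtain ⟨h1, h2⟩ := pair_inj.1 hbe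
      rw [← hw, ← h2, rank_toZFSet]
      rw [← h1, rank_toZFSet] at hu
      rw [hu]
    · rintro rfl
      refine ⟨a.toZFSet, (x a).toZFSet, ?_, rank_toZFSet _, rank_toZFSet _⟩
      rw [graph, mem_range]
      exact ⟨⟨a, ha⟩, rfl⟩
  refine ⟨(key _).2 rfl, fun d hd => ?_⟩
  rw [(key d).1 hd]

theorem st_ordSet (κ : Ordinal.{0}) (D : Set Ordinal.{0}) :
    st (ordSet κ D) = {a | a ∈ D ∧ a < κ} := by
  ext a
  constructor
  · rintro ⟨z, hz, rfl⟩
    obtain ⟨b, hb, hbD, rfl⟩ := (mem_ordSet _ _ _).1 hz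
    rw [rank_toZFSet]
    exact ⟨hbD, hb⟩
  · rintro ⟨ha, haκ⟩
    exact ⟨a.toZFSet, (mem_ordSet _ _ _).2 ⟨a, haκ, ha, rfl⟩, rank_toZFSet _⟩

/-! ### The lexicographically least element of a closed class of functions -/

/-- `h` is the least element of the class `P` in the lexicographic order given by `e` -/
def LexMin (P : (Ordinal.{0} → Ordinal.{0}) → Prop) (e h : Ordinal.{0} → Ordinal.{0}) : Prop :=
  P h ∧ ∀ h', P h' → ∀ n : ℕ, (∀ k < n, h (e (k : ℕ)) = h' (e (k : ℕ))) →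
    h (e (n : ℕ)) ≤ h' (e (n : ℕ))

/-- the values of the lexicographically least element -/
noncomputable def lexY (P : (Ordinal.{0} → Ordinal.{0}) → Prop) (e : Ordinal.{0} → Ordinal.{0})
    (n : ℕ) : Ordinal.{0} :=
  sInf {v | ∃ h, P h ∧ (∀ k : Fin n, h (e (k.1 : ℕ)) = lexY P e k.1) ∧ v = h (e (n : ℕ))}
termination_by n
decreasing_by exact k.2

theorem lexY_eq (P : (Ordinal.{0} → Ordinal.{0}) → Prop) (e : Ordinal.{0} → Ordinal.{0})
    (n : ℕ) : lexY P e n =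
    sInf {v | ∃ h, P h ∧ (∀ k : ℕ, k < n → h (e (k : ℕ)) = lexY P e k) ∧ v = h (e (n : ℕ))} := by
  rw [lexY]
  congr 1
  ext v
  constructor
  · rintro ⟨h, h1, h2, h3⟩
    exact ⟨h, h1, fun k hk => h2 ⟨k, hk⟩, h3⟩
  · rintro ⟨h, h1, h2, h3⟩
    exact ⟨h, h1, fun k => h2 k.1 k.2, h3⟩

theorem lexY_prefix {P : (Ordinal.{0} → Ordinal.{0}) → Prop} (e : Ordinal.{0} → Ordinal.{0})
    (hne : ∃ h, P h) (n : ℕ) : ∃ h, P h ∧ ∀ k : ℕ, k < n → h (e (k : ℕ)) = lexY P e k := by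
  induction n with
  | zero =>
    obtain ⟨h, hh⟩ := hne
    exact ⟨h, hh, fun k hk => absurd hk (Nat.not_lt_zero k)⟩
  | succ n ih =>
    obtain ⟨h0, h1, h2⟩ := ih
    have h3 : lexY P e n ∈ {v | ∃ h, P h ∧ (∀ k : ℕ, k < n → h (e (k : ℕ)) = lexY P e k) ∧
        v = h (e (n : ℕ))} := by
      rw [lexY_eq P e n]
      exact csInf_mem ⟨h0 (e (n : ℕ)), h0, h1, h2, rfl⟩
    obtain ⟨h, h4, h5, h6⟩ := h3
    refine ⟨h, h4, fun k hk => ?_⟩
    rcases Nat.lt_succ_iff_lt_or_eq.1 hk with hk' | rfl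
    · exact h5 k hk'
    · exact h6.symm

theorem exists_lexMin {P : (Ordinal.{0} → Ordinal.{0}) → Prop} {e : Ordinal.{0} → Ordinal.{0}}
    {ρ : Ordinal.{0}} (hne : ∃ h, P h)
    (hcl : ∀ h, (∀ s : Finset Ordinal.{0}, (∀ ξ ∈ s, ξ < ρ) → ∃ h', P h' ∧
      ∀ ξ ∈ s, h ξ = h' ξ) → P h)
    (he : ∀ ξ < ρ, ∃ n : ℕ, e (n : ℕ) = ξ) : ∃ h, LexMin P e h := by
  classical
  let f : Ordinal.{0} → Ordinal.{0} := fun ξ =>
    if hx : ∃ n : ℕ, e (n : ℕ) = ξ then lexY P e (Nat.find hx) else 0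
  have hf : ∀ k : ℕ, f (e (k : ℕ)) = lexY P e k := by
    intro k
    have hx : ∃ n : ℕ, e (n : ℕ) = e (k : ℕ) := ⟨k, rfl⟩
    have h1 : f (e (k : ℕ)) = lexY P e (Nat.find hx) := by
      show (if hx : ∃ n : ℕ, e (n : ℕ) = e (k : ℕ) then lexY P e (Nat.find hx) else 0) = _
      rw [dif_pos hx]
    obtain ⟨h, -, h2⟩ := lexY_prefix e hne (k + 1)
    have h3 := Nat.find_spec hx
    have h4 : Nat.find hx ≤ k := Nat.find_min' hx rfl
    rw [h1, ← h2 _ (Nat.lt_succ_of_le h4), h3]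
    exact h2 k (Nat.lt_succ_self k)
  refine ⟨f, hcl f ?_, ?_⟩
  · intro s hs
    have hN : ∃ N : ℕ, ∀ ξ ∈ s, ∃ n < N, e (n : ℕ) = ξ := by
      induction s using Finset.induction_on with
      | empty => exact ⟨0, fun ξ hξ => absurd hξ (Finset.notMem_empty ξ)⟩
      | insert a s has ih =>
        obtain ⟨N, hN⟩ := ih fun ξ hξ => hs ξ (Finset.mem_insert_of_mem hξ)
        obtain ⟨n, hn⟩ := he a (hs a (Finset.mem_insert_self a s))
        refine ⟨max N (n + 1), fun ξ hξ => ?_⟩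
        rcases Finset.mem_insert.1 hξ with rfl | hξ'
        · exact ⟨n, lt_of_lt_of_le (Nat.lt_succ_self n) (le_max_right _ _), hn⟩
        · obtain ⟨n', h1, h2⟩ := hN ξ hξ'
          exact ⟨n', lt_of_lt_of_le h1 (le_max_left _ _), h2⟩
    obtain ⟨N, hN⟩ := hN
    obtain ⟨h, h1, h2⟩ := lexY_prefix e hne N
    refine ⟨h, h1, fun ξ hξ => ?_⟩
    obtain ⟨n, hn, rfl⟩ := hN ξ hξ
    rw [hf n, h2 n hn]
  · intro h' hP' n hn
    rw [hf n, lexY_eq]
    exact csInf_le' ⟨h', hP', fun k hk => by rw [← hn k hk, hf k], rfl⟩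

theorem lexMin_unique {P : (Ordinal.{0} → Ordinal.{0}) → Prop} {e h h' : Ordinal.{0} → Ordinal.{0}}
    (H : LexMin P e h) (H' : LexMin P e h') (n : ℕ) : h (e (n : ℕ)) = h' (e (n : ℕ)) := by
  induction n using Nat.strong_induction_on with
  | _ n ih =>
    exact le_antisymm (H.2 h' H'.1 n fun k hk => ih k hk)
      (H'.2 h H.1 n fun k hk => (ih k hk).symm)

/-! ### Homogeneous sets form a closed class -/

theorem homogSeq_closed {F : ZFSet.{0}} {D : Set Ordinal.{0}} {ρ κ : Ordinal.{0}}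
    (h : Ordinal.{0} → Ordinal.{0})
    (H : ∀ s : Finset Ordinal.{0}, (∀ ξ ∈ s, ξ < ρ) → ∃ h', HomogSeq F D ρ κ h' ∧
      ∀ ξ ∈ s, h ξ = h' ξ) : HomogSeq F D ρ κ h := by
  classical
  refine ⟨⟨fun k hk => ?_, fun j k hjk hk => ?_⟩, fun ξ hξ => ?_, fun n hn a b ha hb => ?_⟩
  · obtain ⟨h', h1, h2⟩ := H {k} (by simpa using hk)
    rw [h2 k (by simp)]
    exact h1.1.1 k hk
  · obtain ⟨h', h1, h2⟩ := H {j, k} (by
      intro ξ hξ
      rcases Finset.mem_insert.1 hξ with rfl | hξ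
      · exact hjk.trans hk
      · rw [Finset.mem_singleton.1 hξ]
        exact hk)
    rw [h2 j (by simp), h2 k (by simp)]
    exact h1.1.2 j k hjk hk
  · obtain ⟨h', h1, h2⟩ := H {ξ} (by simpa using hξ)
    rw [h2 ξ (by simp)]
    exact h1.2.1 ξ hξ
  · obtain ⟨N, rfl⟩ := Ordinal.lt_omega0.1 hn
    obtain ⟨h', h1, h2⟩ := H ((Finset.range N).image (fun k : ℕ => a k) ∪
      (Finset.range N).image (fun k : ℕ => b k)) (by
      intro ξ hξ
      rcases Finset.mem_union.1 hξ with hξ | hξ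
      · obtain ⟨k, hk, rfl⟩ := Finset.mem_image.1 hξ
        exact ha.1 k (by exact_mod_cast Finset.mem_range.1 hk)
      · obtain ⟨k, hk, rfl⟩ := Finset.mem_image.1 hξ
        exact hb.1 k (by exact_mod_cast Finset.mem_range.1 hk))
    have h3 : col F N (fun k => h (a k)) = col F N (fun k => h' (a k)) := by
      apply col_congr
      intro k hk
      obtain ⟨k, rfl⟩ := Ordinal.lt_omega0.1 (hk.trans (Ordinal.natCast_lt_omega0 N))
      exact h2 _ (Finset.mem_union_left _ (Finset.mem_image_of_mem _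
        (Finset.mem_range.2 (by exact_mod_cast hk))))
    have h4 : col F N (fun k => h (b k)) = col F N (fun k => h' (b k)) := by
      apply col_congr
      intro k hk
      obtain ⟨k, rfl⟩ := Ordinal.lt_omega0.1 (hk.trans (Ordinal.natCast_lt_omega0 N))
      exact h2 _ (Finset.mem_union_right _ (Finset.mem_image_of_mem _
        (Finset.mem_range.2 (by exact_mod_cast hk))))
    rw [h3, h4]
    exact h1.2.2 N hn a b ha hb

end Pool.Agent.Helper73.HE
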