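import Pool.Agent.Helper73.HE.Abs

/-! # HE module Abs2: homogeneous sets of countable order type in HOD -/

namespace Pool.Agent.Helper73.HE

open Ordinal Cardinal ZFSet Order Pool.Agent.Helper73.HODC

/-- the functions coded by `z` and `z'` agree at the `k`-th value of `E` -/
def AgrC (E z z' : ZFSet.{0}) (k : Ordinal.{0}) : Prop :=
  ∃ x, fn E k = x ∧ ∃ y, fn z x = y ∧ fn z' x = y

/-- the functions coded by `z` and `z'` compared at the `n`-th value of `E` -/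
def LeC (E z z' : ZFSet.{0}) (n : Ordinal.{0}) : Prop :=
  ∃ x, fn E n = x ∧ ∃ y, fn z x = y ∧ ∃ y', fn z' x = y' ∧ y ≤ y'

/-- `z` codes the lexicographically least homogeneous sequence -/
def LexZ (F d E z : ZFSet.{0}) (ρ κ : Ordinal.{0}) : Prop :=
  HomogSeq F (st d) ρ κ (fn z) ∧ ∀ z' : ZFSet.{0}, HomogSeq F (st d) ρ κ (fn z') →
    ∀ n : Ordinal.{0}, n < ω → (∀ k : Ordinal.{0}, k < n → AgrC E z z' k) → LeC E z z' n

theorem dfn_agrC (i j k l : ℕ) : Dfn (fun v => AgrC (v i) (v j) (v k) (v l).rank) := by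
  refine Dfn.exO (Q := fun x v => fn (v i) (v l).rank = x ∧ ∃ y, fn (v j) x = y ∧
    fn (v k) x = y) ?_
  refine (dfn_fn (i + 1) (l + 1) 0).and ?_
  refine Dfn.exO (Q := fun y v => fn (v (j + 1)) (v 0).rank = y ∧
    fn (v (k + 1)) (v 0).rank = y) ?_
  exact (dfn_fn (j + 2) 1 0).and (dfn_fn (k + 2) 1 0)

theorem dfn_leC (i j k l : ℕ) : Dfn (fun v => LeC (v i) (v j) (v k) (v l).rank) := by
  refine Dfn.exO (Q := fun x v => fn (v i) (v l).rank = x ∧ ∃ y, fn (v j) x = y ∧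
    ∃ y', fn (v k) x = y' ∧ y ≤ y') ?_
  refine (dfn_fn (i + 1) (l + 1) 0).and ?_
  refine Dfn.exO (Q := fun y v => fn (v (j + 1)) (v 0).rank = y ∧
    ∃ y', fn (v (k + 1)) (v 0).rank = y' ∧ y ≤ y') ?_
  refine (dfn_fn (j + 2) 1 0).and ?_
  refine Dfn.exO (Q := fun y' v => fn (v (k + 2)) (v 1).rank = y' ∧ (v 0).rank ≤ y') ?_
  exact (dfn_fn (k + 3) 2 0).and (dfn_rank_le 1 0)

theorem dfn_lexZ (i l e t j k : ℕ) :
    Dfn (fun v => LexZ (v i) (v l) (v e) (v t) (v j).rank (v k).rank) := by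
  refine (dfn_homogFn i j k l t).and ?_
  refine Dfn.all (Q := fun z' v => HomogSeq (v i) (st (v l)) (v j).rank (v k).rank (fn z') →
    ∀ n : Ordinal.{0}, n < ω → (∀ k : Ordinal.{0}, k < n → AgrC (v e) (v t) z' k) →
      LeC (v e) (v t) z' n) ?_
  refine (dfn_homogFn (i + 1) (j + 1) (k + 1) (l + 1) 0).imp ?_
  refine Dfn.allO (Q := fun n v => n < ω →
    (∀ k : Ordinal.{0}, k < n → AgrC (v (e + 1)) (v (t + 1)) (v 0) k) →
      LeC (v (e + 1)) (v (t + 1)) (v 0) n) ?_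
  refine (dfn_lt_omega 0).imp (Dfn.imp ?_ (dfn_leC (e + 2) (t + 2) 1 0))
  refine Dfn.allO (Q := fun k v => k < (v 0).rank →
    AgrC (v (e + 2)) (v (t + 2)) (v 1) k) ?_
  exact (dfn_rank_lt 0 1).imp (dfn_agrC (e + 3) (t + 3) 2 0)

theorem lexZ_iff {F d E z : ZFSet.{0}} {ρ κ : Ordinal.{0}} :
    LexZ F d E z ρ κ ↔ LexMin (HomogSeq F (st d) ρ κ) (fn E) (fn z) := by
  constructor
  · rintro ⟨h1, h2⟩
    refine ⟨h1, fun h' hP' n hn => ?_⟩
    obtain ⟨z', hz', -⟩ := exists_fn h' (max ρ (Order.succ (⨆ k : ℕ, fn E (k : ℕ))))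
    have hlt : ∀ k : ℕ, fn E (k : ℕ) < max ρ (Order.succ (⨆ k : ℕ, fn E (k : ℕ))) := fun k =>
      lt_of_lt_of_le ((Ordinal.le_iSup (fun k : ℕ => fn E (k : ℕ)) k).trans_lt (Order.lt_succ _))
        (le_max_right _ _)
    obtain ⟨x, rfl, y, hy, y', hy', hle⟩ := h2 z'
      (homogSeq_congr (fun ξ hξ => (hz' ξ (hξ.trans_le (le_max_left _ _))).symm) hP')
      n (Ordinal.natCast_lt_omega0 n) (by
        intro k hk
        obtain ⟨k, rfl⟩ := Ordinal.lt_omega0.1 (hk.trans (Ordinal.natCast_lt_omega0 n))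
        refine ⟨_, rfl, _, rfl, ?_⟩
        rw [hz' _ (hlt k)]
        exact (hn k (by exact_mod_cast hk)).symm)
    rw [hy, ← hz' _ (hlt n), hy']
    exact hle
  · rintro ⟨h1, h2⟩
    refine ⟨h1, fun z' hz' n hn hk => ?_⟩
    obtain ⟨N, rfl⟩ := Ordinal.lt_omega0.1 hn
    refine ⟨_, rfl, _, rfl, _, rfl, h2 _ hz' N fun k hkN => ?_⟩
    obtain ⟨x, rfl, y, h3, h4⟩ := hk k (by exact_mod_cast hkN)
    rw [h3, h4]

theorem dp_lexZ {F d E : ZFSet.{0}} (hF : HOD F) (hd : HOD d) (hE : HOD E) (ρ κ : Ordinal.{0}) :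
    DP (fun v => ∃ z, LexZ F d E z ρ κ ∧ fn z (v 0).rank = (v 1).rank) := by
  have h0 : DP (fun v => ∃ z, LexZ (v 0) (v 1) (v 2) z (v 3).rank (v 4).rank ∧
      fn z (v 5).rank = (v 6).rank) := by
    refine DP.of (Dfn.ex (Q := fun z v => LexZ (v 0) (v 1) (v 2) z (v 3).rank (v 4).rank ∧
      fn z (v 5).rank = (v 6).rank) ?_)
    exact (dfn_lexZ 1 2 3 0 4 5).and (dfn_fn 0 6 7)
  have h1 := dp_subst_HOD (Q := fun F v => ∃ z, LexZ F (v 0) (v 1) z (v 2).rank (v 3).rank ∧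
      fn z (v 4).rank = (v 5).rank) h0 hF
  have h2 := dp_subst_HOD (Q := fun d v => ∃ z, LexZ F d (v 0) z (v 1).rank (v 2).rank ∧
      fn z (v 3).rank = (v 4).rank) h1 hd
  have h3 := dp_subst_HOD (Q := fun E v => ∃ z, LexZ F d E z (v 0).rank (v 1).rank ∧
      fn z (v 2).rank = (v 3).rank) h2 hE
  have h4 := dp_subst_HOD (Q := fun r v => ∃ z, LexZ F d E z r.rank (v 0).rank ∧
      fn z (v 1).rank = (v 2).rank) h3 (HOD_toZFSet ρ)
  have h5 := dp_subst_HOD (Q := fun r v => ∃ z, LexZ F d E z ρ.toZFSet.rank r.rank ∧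
      fn z (v 0).rank = (v 1).rank) h4 (HOD_toZFSet κ)
  simpa only [rank_toZFSet] using h5

/-- homogeneous sets of order type countable in HOD can be found in HOD -/
theorem hodErdos_of_partition {ρ κ : Ordinal.{0}} (h : HODPartition ρ κ)
    (hρ : HODCountable ρ) : HODErdos ρ κ := by
  intro F hF γ hγ hR D hD hDH
  obtain ⟨e, heH, he⟩ := hρ
  obtain ⟨f, hf1, hf2, hf3⟩ := h F hF γ hγ hR D hD
  have heE : ∀ n : ℕ, fn (graph ω e) (n : ℕ) = e n := fun n =>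
    fn_graph (Ordinal.natCast_lt_omega0 n)
  have henum : ∀ ξ < ρ, ∃ n : ℕ, fn (graph ω e) (n : ℕ) = ξ := by
    intro ξ hξ
    obtain ⟨n, hn, h1⟩ := he ξ hξ
    obtain ⟨N, rfl⟩ := Ordinal.lt_omega0.1 hn
    exact ⟨N, by rw [heE, h1]⟩
  have hf : HomogSeq F (st (ordSet κ D)) ρ κ f := by
    refine ⟨hf1, fun ξ hξ => ?_, hf3⟩
    rw [st_ordSet]
    exact ⟨hf2 ξ hξ, hf1.1 ξ hξ⟩
  obtain ⟨g, hg⟩ := exists_lexMin (P := HomogSeq F (st (ordSet κ D)) ρ κ)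
    (e := fn (graph ω e)) ⟨f, hf⟩ (fun h H => homogSeq_closed h H) henum
  obtain ⟨z, hz, -⟩ := exists_fn g (max ρ (Order.succ (⨆ k : ℕ, fn (graph ω e) (k : ℕ))))
  have hlt : ∀ k : ℕ, fn (graph ω e) (k : ℕ) <
      max ρ (Order.succ (⨆ k : ℕ, fn (graph ω e) (k : ℕ))) := fun k =>
    lt_of_lt_of_le ((Ordinal.le_iSup (fun k : ℕ => fn (graph ω e) (k : ℕ)) k).trans_lt
      (Order.lt_succ _)) (le_max_right _ _)
  have hzm : LexMin (HomogSeq F (st (ordSet κ D)) ρ κ) (fn (graph ω e)) (fn z) := by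
    refine ⟨homogSeq_congr (fun ξ hξ => (hz ξ (hξ.trans_le (le_max_left _ _))).symm) hg.1, ?_⟩
    intro h' hP' n hn
    rw [hz _ (hlt n)]
    refine hg.2 h' hP' n fun k hk => ?_
    rw [← hn k hk, hz _ (hlt k)]
  refine ⟨fn z, HOD_graph ρ (fn z) ?_, hzm.1.1, fun ξ hξ => ?_, hzm.1.2.2⟩
  · rw [odRel_iff_DP]
    refine ((DP.rank_lt_ord 0 ρ).and (dp_lexZ hF hDH heH ρ κ)).congr fun v => ?_
    constructor
    · rintro ⟨h1, h2⟩
      exact ⟨h1, z, lexZ_iff.2 hzm, h2.symm⟩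
    · rintro ⟨h1, z', hz', h2⟩
      refine ⟨h1, ?_⟩
      obtain ⟨n, hn⟩ := henum _ h1
      rw [← h2, ← hn]
      exact lexMin_unique (lexZ_iff.1 hz') hzm n
  · have h1 := hzm.1.2.1 ξ hξ
    rw [st_ordSet] at h1
    exact h1.1

end Pool.Agent.Helper73.HE
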