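import Pool.Agent.Helper73.HE.Pig

/-! # HE module Base: the relation EQ4 for values at exact functions is definable -/

namespace Pool.Agent.Helper73.HE

open Ordinal Cardinal ZFSet Order Pool.Agent.Helper73.HODC

/-- a block of `m` existential quantifiers -/
theorem base_exBlock (m : ℕ) {P : (ℕ → ZFSet.{0}) → Prop} (h : DP P) :
    DP (fun v => ∃ w : ℕ → ZFSet.{0}, P (fun n => if n < m then w n else v (n - m))) := by
  induction m generalizing P with
  | zero =>
    refine h.congr fun v => ?_
    simp
  | succ m ih =>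
    have h1 : DP (fun v => ∃ x, P (fun n => if n < m then v n else if n = m then x
        else v (n - 1))) := by
      refine DP.ex (Q := fun x v => P (fun n => if n < m then v n else if n = m then x
        else v (n - 1))) ((h.rename (fun n => if n < m then n + 1 else if n = m then 0
        else n - 1 + 1)).congr fun v => ?_)
      have : (fun n => v (if n < m then n + 1 else if n = m then 0 else n - 1 + 1)) =
          (fun n => if n < m then (fun n => v (n + 1)) n else if n = m then v 0
            else (fun n => v (n + 1)) (n - 1)) := by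
        funext n
        split_ifs <;> rfl
      rw [this]
    refine (ih h1).congr fun v => ?_
    constructor
    · rintro ⟨w, hw⟩
      refine ⟨w, w m, ?_⟩
      have : (fun n => if n < m then (fun n => if n < m then w n else v (n - m)) n
          else if n = m then w m else (fun n => if n < m then w n else v (n - m)) (n - 1)) =
          (fun n => if n < m + 1 then w n else v (n - (m + 1))) := by
        funext n
        by_cases h1 : n < m
        · have h2 : n < m + 1 := by omega
          simp [h1, h2]
        · by_cases h2 : n = m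
          · subst h2
            simp
          · have h3 : ¬ n < m + 1 := by omega
            have h4 : ¬ n - 1 < m := by omega
            have h5 : n - 1 - m = n - (m + 1) := by omega
            simp [h1, h2, h3, h4, h5]
      rw [this]
      exact hw
    · rintro ⟨w, x, hw⟩
      refine ⟨fun n => if n = m then x else w n, ?_⟩
      have : (fun n => if n < m then (fun n => if n < m then w n else v (n - m)) n
          else if n = m then x else (fun n => if n < m then w n else v (n - m)) (n - 1)) =
          (fun n => if n < m + 1 then (fun n => if n = m then x else w n) n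
            else v (n - (m + 1))) := by
        funext n
        by_cases h1 : n < m
        · have h2 : n < m + 1 := by omega
          have h3 : ¬ n = m := by omega
          simp [h1, h2, h3]
        · by_cases h2 : n = m
          · subst h2
            simp
          · have h3 : ¬ n < m + 1 := by omega
            have h4 : ¬ n - 1 < m := by omega
            have h5 : n - 1 - m = n - (m + 1) := by omega
            simp [h1, h2, h3, h4, h5]
      rw [this] at hw
      exact hw

/-- finite conjunctions -/
theorem base_ball (m : ℕ) {P : ℕ → (ℕ → ZFSet.{0}) → Prop} (h : ∀ j < m, DP (P j)) :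
    DP (fun v => ∀ j < m, P j v) := by
  induction m with
  | zero => exact (DP.const True).congr fun v => by simp
  | succ m ih =>
    refine ((ih fun j hj => h j (by omega)).and (h m (by omega))).congr fun v => ?_
    constructor
    · intro H
      exact ⟨fun j hj => H j (by omega), H m (by omega)⟩
    · rintro ⟨h1, h2⟩ j hj
      rcases Nat.lt_succ_iff_lt_or_eq.1 hj with h3 | h3
      · exact h1 j h3
      · rw [h3]; exact h2

/-- substitution of the ordinal `x` for the variable `0` -/
theorem base_subst {Q : (ℕ → ZFSet.{0}) → Prop} (h : DP Q) (x : Ordinal.{0}) :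
    DP (fun v => Q (cons x.toZFSet v)) := by
  refine (DP.ex (Q := fun a v => a = x.toZFSet ∧ Q (cons a v)) ?_).congr fun v => ?_
  · refine (DP.eq_ord 0 x).and (h.congr fun v => ?_)
    rw [cons_eta]
  · constructor
    · intro h; exact ⟨_, rfl, h⟩
    · rintro ⟨a, rfl, h⟩; exact h

/-- for a club of `i < μ` -/
theorem base_club {Q : Ordinal.{0} → (ℕ → ZFSet.{0}) → Prop}
    (h : DP (fun v => Q (v 0).rank (fun n => v (n + 1)))) (μ : Ordinal.{0}) :
    DP (fun v => ∃ C, Club C μ ∧ ∀ i ∈ C, i < μ → Q i v) := by
  have h0 : DP (fun v => Club (st (v 0)) μ) := by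
    refine (base_subst (DP.of (dfn_club 1 0)) μ).congr fun v => ?_
    simp only [cons, rank_toZFSet]
  refine (DP.ex (Q := fun c v => Club (st c) μ ∧ ∀ i, i ∈ st c → i < μ → Q i v) ?_).congr
    fun v => ?_
  · refine h0.and ?_
    refine DP.allO (Q := fun i v => i ∈ st (v 0) → i < μ → Q i (fun n => v (n + 1))) ?_
    refine (DP.st 0 1).imp ((DP.rank_lt_ord 0 μ).imp ?_)
    exact (h.rename (fun n => if n = 0 then 0 else n + 1)).congr fun v => by simp
  · constructor
    · rintro ⟨C, hC, hC'⟩
      obtain ⟨c, hc, hc'⟩ := exists_stC C μ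
      exact ⟨c, dn_club_congr (fun i hi => (hc i hi).symm) hC,
        fun i hi hiμ => hC' i (hc' i hi) hiμ⟩
    · rintro ⟨c, hc, hc'⟩
      exact ⟨st c, hc, fun i hi hiμ => hc' i hi hiμ⟩

/-- the value of `W` at the values at `i` of coded functions -/
theorem base_val (W : (ℕ → Ordinal.{0}) → Ordinal.{0}) (n : ℕ)
    (hdep : ∀ x y : ℕ → Ordinal.{0}, (∀ k < n, x k = y k) → W x = W y)
    (hW : DPo (fun q => q 0 = W (fun k => q (k + 1)))) :
    DP (fun v => (v 0).rank = W (fun l => fn (v (l + 2)) (v 1).rank)) := by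
  have h0 : DP (fun v => (∀ l < n, fn (v (n + (l + 2))) (v (n + 1)).rank = (v l).rank) ∧
      (v n).rank = W (fun l => (v l).rank)) := by
    refine (base_ball n fun l _ => DP.fn _ _ _).and ?_
    exact (DP.rename hW (fun k => if k = 0 then n else k - 1)).congr fun v => by simp
  refine (base_exBlock n h0).congr fun v => ?_
  constructor
  · intro h
    refine ⟨fun l => (fn (v (l + 2)) (v 1).rank).toZFSet, fun l hl => ?_, ?_⟩
    · have h1 : ¬ n + (l + 2) < n := by omega
      have h2 : ¬ n + 1 < n := by omega
      have h3 : n + (l + 2) - n = l + 2 := by omega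
      have h4 : n + 1 - n = 1 := by omega
      simp only [h1, h2, hl, if_true, if_false, h3, h4, rank_toZFSet]
    · have h1 : ¬ n < n := by omega
      simp only [h1, if_false, Nat.sub_self]
      rw [h]
      refine hdep _ _ fun k hk => ?_
      simp only [hk, if_true, rank_toZFSet]
  · rintro ⟨w, hw, hw'⟩
    have h1 : ¬ n < n := by omega
    simp only [h1, if_false, Nat.sub_self] at hw'
    rw [hw']
    refine hdep _ _ fun l hl => ?_
    have h2 := hw l hl
    have h3 : ¬ n + (l + 2) < n := by omega
    have h4 : ¬ n + 1 < n := by omega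
    have h5 : n + (l + 2) - n = l + 2 := by omega
    have h6 : n + 1 - n = 1 := by omega
    simp only [h3, h4, hl, if_true, if_false, h5, h6] at h2
    simp only [hl, if_true]
    exact h2.symm

/-- `EQ4` for values at coded functions -/
theorem base_EQ4 (W : (ℕ → Ordinal.{0}) → Ordinal.{0}) (n : ℕ)
    (hdep : ∀ x y : ℕ → Ordinal.{0}, (∀ k < n, x k = y k) → W x = W y)
    (hW : DPo (fun q => q 0 = W (fun k => q (k + 1)))) (μ : Ordinal.{0}) :
    DP (fun v => EQ4 μ (fun i => W (fun l => fn (v (4 * l + 0)) i))
      (fun i => W (fun l => fn (v (4 * l + 1)) i)) (fun i => W (fun l => fn (v (4 * l + 2)) i))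
      (fun i => W (fun l => fn (v (4 * l + 3)) i))) := by
  have h0 := base_val W n hdep hW
  have h1 : ∀ r s : ℕ, DP (fun v => W (fun l => fn (v (4 * l + r + 1)) (v 0).rank) =
      W (fun l => fn (v (4 * l + s + 1)) (v 0).rank)) := by
    intro r s
    refine (DP.ex (Q := fun e v => e.rank = W (fun l => fn (v (4 * l + r + 1)) (v 0).rank) ∧
      e.rank = W (fun l => fn (v (4 * l + s + 1)) (v 0).rank)) ?_).congr fun v => ?_
    · refine DP.and ?_ ?_
      · exact (h0.rename (fun k => if k = 0 then 0 else if k = 1 then 1 else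
          4 * (k - 2) + r + 1 + 1)).congr fun v => by simp
      · exact (h0.rename (fun k => if k = 0 then 0 else if k = 1 then 1 else
          4 * (k - 2) + s + 1 + 1)).congr fun v => by simp
    · constructor
      · intro h
        exact ⟨(W (fun l => fn (v (4 * l + r + 1)) (v 0).rank)).toZFSet,
          by rw [rank_toZFSet], by rw [rank_toZFSet, h]⟩
      · rintro ⟨e, he, he'⟩
        rw [← he, ← he']
  exact base_club (Q := fun i v => W (fun l => fn (v (4 * l + 0)) i) =
    W (fun l => fn (v (4 * l + 1)) i) ↔ W (fun l => fn (v (4 * l + 2)) i) =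
    W (fun l => fn (v (4 * l + 3)) i)) ((h1 0 1).iff (h1 2 3)) μ

/-- the relation between `α` and the codes of functions equal to `ff α` on a club -/
theorem base_ff {m : Cardinal.{0}} (hm : m.IsRegular) (hm' : ℵ₀ < m) (κ : Ordinal.{0}) :
    DP (fun v => EqC m.ord (fn (v 0)) (ff m.ord κ (v 1).rank)) := by
  have hμ : ℵ₀ < m.ord.cof := reg_cof hm hm'
  have h0 : DP (fun v => ((v 0).rank < κ ∧ ∃ f, Exact m.ord (v 0).rank (fn f))) := by
    refine (DP.rank_lt_ord 0 κ).and ?_
    refine DP.ex (Q := fun f v => Exact m.ord (v 0).rank (fn f)) ?_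
    exact (base_subst (DP.of (dfn_exact 0 2 1)) m.ord).congr fun v => by
      simp only [cons, rank_toZFSet]
  have h1 : DP (fun v => ∃ f, (Exact m.ord (v 1).rank (fn f)) ∧
      EqC m.ord (fn (v 0)) (fn f)) := by
    refine DP.ex (Q := fun f v => (Exact m.ord (v 1).rank (fn f)) ∧
      EqC m.ord (fn (v 0)) (fn f)) ?_
    refine DP.and ?_ ?_
    · exact (base_subst (DP.of (dfn_exact 0 3 1)) m.ord).congr fun v => by
        simp only [cons, rank_toZFSet]
    · refine base_club (Q := fun i v => fn (v 1) i = fn (v 0) i) ?_ m.ord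
      refine (DP.ex (Q := fun e v => fn (v 2) (v 0).rank = e.rank ∧
        fn (v 1) (v 0).rank = e.rank) ((DP.fn 3 1 0).and (DP.fn 2 1 0))).congr fun v => ?_
      constructor
      · intro h
        exact ⟨(fn (v 1) (v 0).rank).toZFSet, by rw [rank_toZFSet, h], by rw [rank_toZFSet]⟩
      · rintro ⟨e, he, he'⟩
        rw [he, he']
  have h2 : DP (fun v => ∃ C, Club C m.ord ∧ ∀ i ∈ C, i < m.ord → fn (v 0) i = 0) := by
    refine base_club (Q := fun i v => fn (v 0) i = 0) ?_ m.ord
    refine (DP.ex (Q := fun e v => fn (v 1) (v 0).rank = e.rank ∧ e.rank = 0)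
      ((DP.fn 2 1 0).and (DP.rank_eq_ord 0 0))).congr fun v => ?_
    constructor
    · intro h
      exact ⟨(0 : Ordinal.{0}).toZFSet, by rw [rank_toZFSet, h], by rw [rank_toZFSet]⟩
    · rintro ⟨e, he, he'⟩
      rw [he, he']
  have h3 : DP (fun v => ((v 1).rank < κ ∧ ∃ f, Exact m.ord (v 1).rank (fn f))) :=
    h0.rename (fun k => k + 1)
  refine ((h3.and h1).or (h3.not.and h2)).congr fun v => ?_
  by_cases hα : (v 1).rank < κ ∧ ∃ f, Exact m.ord (v 1).rank f
  · obtain ⟨F, hF⟩ := exists_fnC hα.2.choose m.ord
    have hE := hα.2.choose_spec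
    have hc : ((v 1).rank < κ ∧ ∃ f, Exact m.ord (v 1).rank (fn f)) :=
      ⟨hα.1, F, hE.congr hF⟩
    have hff : ff m.ord κ (v 1).rank = hα.2.choose := by
      funext i
      rw [ff, dif_pos hα]
    rw [hff]
    constructor
    · rintro ⟨C, hC, h⟩
      exact Or.inl ⟨hc, F, hE.congr hF, C, hC, fun i hi hi' => (h i hi hi').trans (hF i hi')⟩
    · rintro (⟨-, f, hf, hf'⟩ | ⟨h, -⟩)
      · refine hf'.trans hμ ?_
        have h4 := exact_ne_not_stat hm hm' hf hE
        unfold Stat at h4
        push Not at h4
        obtain ⟨C, hC, h5⟩ := h4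
        refine ⟨C, hC, fun i hi hi' => ?_⟩
        by_contra h6
        exact absurd hi' (not_lt.2 (h5 i h6 hi))
      · exact absurd hc h
  · have hc : ¬ ((v 1).rank < κ ∧ ∃ f, Exact m.ord (v 1).rank (fn f)) := by
      rintro ⟨h, f, hf⟩
      exact hα ⟨h, fn f, hf⟩
    have hff : ff m.ord κ (v 1).rank = fun _ => 0 := by
      funext i
      rw [ff, dif_neg hα]
    rw [hff]
    constructor
    · rintro ⟨C, hC, h⟩
      exact Or.inr ⟨hc, C, hC, h⟩
    · rintro (⟨h, -⟩ | ⟨-, C, hC, h⟩)
      · exact absurd h hc
      · exact ⟨C, hC, h⟩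

theorem base_congr (W : (ℕ → Ordinal.{0}) → Ordinal.{0}) (n : ℕ)
    (hdep : ∀ x y : ℕ → Ordinal.{0}, (∀ k < n, x k = y k) → W x = W y) {μ : Ordinal.{0}}
    (hμ : ℵ₀ < μ.cof) {x y : ℕ → Ordinal.{0} → Ordinal.{0}} (h : ∀ l < n, EqC μ (x l) (y l)) :
    EqC μ (fun i => W (fun l => x l i)) (fun i => W (fun l => y l i)) := by
  choose C hC hC' using fun l : Fin n => h l.1 l.2
  refine ⟨⋂ l, C l, Club.iInter hμ hC, fun i hi him => hdep _ _ fun l hl => ?_⟩
  exact hC' ⟨l, hl⟩ i (Set.mem_iInter.1 hi _) him

theorem ok4_base (W : (ℕ → Ordinal.{0}) → Ordinal.{0}) (n : ℕ)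
    (hdep : ∀ x y : ℕ → Ordinal.{0}, (∀ k < n, x k = y k) → W x = W y)
    (hW : DPo (fun q => q 0 = W (fun k => q (k + 1)))) {m : Cardinal.{0}} (hm : m.IsRegular)
    (hm' : ℵ₀ < m) (κ s : Ordinal.{0}) :
    OK4 m.ord (fun a i => W (ocons (ff m.ord κ s i) (fun k => ff m.ord κ (a k) i))) := by
  have hμ : ℵ₀ < m.ord.cof := reg_cof hm hm'
  -- the ordinal whose function is the `k`-th one
  let al : ℕ → (ℕ → Ordinal.{0}) → Ordinal.{0} := fun k q => if k < 4 then s else q (k - 4)
  have h1 : DP (fun v => (∀ k < 4 * n, EqC m.ord (fn (v k))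
      (ff m.ord κ (al k (fun j => (v (4 * n + j)).rank)))) ∧
      EQ4 m.ord (fun i => W (fun l => fn (v (4 * l + 0)) i))
      (fun i => W (fun l => fn (v (4 * l + 1)) i)) (fun i => W (fun l => fn (v (4 * l + 2)) i))
      (fun i => W (fun l => fn (v (4 * l + 3)) i))) := by
    refine (base_ball (4 * n) fun k _ => ?_).and (base_EQ4 W n hdep hW m.ord)
    by_cases hk : k < 4
    · simp only [al, hk, if_true]
      have h2 := base_subst ((base_ff hm hm' κ).rename (fun j => if j = 0 then 1 else 0)) s
      refine (h2.rename (fun _ => k)).congr fun v => ?_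
      simp [cons]
    · simp only [al, hk, if_false]
      exact ((base_ff hm hm' κ).rename (fun j => if j = 0 then k else 4 * n + (k - 4))).congr
        fun v => by simp
  refine (base_exBlock (4 * n) h1).congr fun v => ?_
  -- the four values
  have key : ∀ (w : ℕ → ZFSet.{0}) (r : ℕ), r < 4 → (∀ k < 4 * n, EqC m.ord (fn (w k))
      (ff m.ord κ (al k (fun j => (v j).rank)))) →
      EqC m.ord (fun i => W (fun l => fn (w (4 * l + r)) i))
        (fun i => W (ocons (ff m.ord κ s i)
          (fun k => ff m.ord κ (quad (fun k => (v k).rank) r k) i))) := by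
    intro w r hr hw
    have h2 := base_congr W n hdep hμ (x := fun l => fn (w (4 * l + r)))
      (y := fun l => ff m.ord κ (al (4 * l + r) (fun j => (v j).rank)))
      (fun l hl => hw (4 * l + r) (by omega))
    obtain ⟨C, hC, h2⟩ := h2
    refine ⟨C, hC, fun i hi him => (h2 i hi him).trans ?_⟩
    beta_reduce
    congr 1
    funext l
    cases l with
    | zero =>
      have h3 : 4 * 0 + r < 4 := by omega
      simp only [al, h3, if_true, ocons]
    | succ l =>
      have h3 : ¬ 4 * (l + 1) + r < 4 := by omega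
      have h4 : 4 * (l + 1) + r - 4 = 4 * l + r := by omega
      simp only [al, h3, if_false, ocons, h4, quad]
  have hidx : ∀ u : ℕ → ZFSet.{0}, (∀ j, u (4 * n + j) = v j) → ((∀ k < 4 * n, EqC m.ord
      (fn (u k)) (ff m.ord κ (al k (fun j => (u (4 * n + j)).rank)))) ↔
      (∀ k < 4 * n, EqC m.ord (fn (u k)) (ff m.ord κ (al k (fun j => (v j).rank))))) := by
    intro u hu
    simp only [hu]
  have hmix : ∀ w : ℕ → ZFSet.{0}, ∀ j,
      (fun n' => if n' < 4 * n then w n' else v (n' - 4 * n)) (4 * n + j) = v j := by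
    intro w j
    have h4 : ¬ 4 * n + j < 4 * n := by omega
    have h5 : 4 * n + j - 4 * n = j := by omega
    simp only [h4, if_false, h5]
  constructor
  · intro h
    choose F hF using fun k : ℕ => exists_fnC (ff m.ord κ (al k (fun j => (v j).rank))) m.ord
    refine ⟨F, ?_⟩
    have h6 := hmix F
    generalize hu : (fun n' => if n' < 4 * n then F n' else v (n' - 4 * n)) = u at h6 ⊢
    have h5 : ∀ k < 4 * n, EqC m.ord (fn (u k)) (ff m.ord κ (al k (fun j => (v j).rank))) := by
      intro k hk
      rw [← hu]
      simp only [hk, if_true]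
      exact ⟨Set.univ, club_univ (isSuccLimit_of_cof hμ), fun i _ hi => (hF k i hi).symm⟩
    refine ⟨(hidx u h6).2 h5, ?_⟩
    have k0 := key u 0 (by norm_num) h5
    have k1 := key u 1 (by norm_num) h5
    have k2 := key u 2 (by norm_num) h5
    have k3 := key u 3 (by norm_num) h5
    exact EQ4.congr hμ h k0.symm k1.symm k2.symm k3.symm
  · rintro ⟨w, hw⟩
    have h6 := hmix w
    generalize (fun n' => if n' < 4 * n then w n' else v (n' - 4 * n)) = u at h6 hw
    obtain ⟨hw, hw'⟩ := hw
    have h5 := (hidx u h6).1 hw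
    have k0 := key u 0 (by norm_num) h5
    have k1 := key u 1 (by norm_num) h5
    have k2 := key u 2 (by norm_num) h5
    have k3 := key u 3 (by norm_num) h5
    exact EQ4.congr hμ hw' k0 k1 k2 k3

end Pool.Agent.Helper73.HE
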