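import Pool.Agent.Helper73.HODC.Main

/-!
# Partition properties for colourings in HOD: definitions
-/

namespace Pool.Agent.Helper73.HE

open Ordinal Cardinal ZFSet Order Pool.Agent.Helper73.HODC

/-! ### Colourings of finite increasing sequences of ordinals -/

/-- `a` restricted to `n` is an increasing sequence of ordinals below `y` -/
def Incr (n y : Ordinal.{0}) (a : Ordinal.{0} → Ordinal.{0}) : Prop :=
  (∀ k < n, a k < y) ∧ ∀ j k, j < k → k < n → a j < a k

/-- the colour given by the set `F` (a set of ordered pairs) to the sequence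
`a 0, a 1, ...` of length `n` -/
noncomputable def col (F : ZFSet.{0}) (n : Ordinal.{0}) (a : Ordinal.{0} → Ordinal.{0}) :
    Ordinal.{0} :=
  sInf {c | ZFSet.pair (graph n a) c.toZFSet ∈ F}

/-- the colouring `F` of the finite increasing sequences of ordinals below `κ` is regressive
above `γ`: the colour of `a 0 < a 1 < ... < a (n-1)` is less than `a 0` if `γ ≤ a 0` -/
def RegAbove (F : ZFSet.{0}) (κ γ : Ordinal.{0}) : Prop :=
  ∀ n < ω, n ≠ 0 → ∀ a, Incr n κ a → γ ≤ a 0 → col F n a < a 0

/-- `{h ξ : ξ < ρ}` is a set of order type `ρ` of elements of `D` below `κ` which is homogeneous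
for `F`: for each `n < ω` all increasing sequences of length `n` of its elements have the same
colour -/
def HomogSeq (F : ZFSet.{0}) (D : Set Ordinal.{0}) (ρ κ : Ordinal.{0})
    (h : Ordinal.{0} → Ordinal.{0}) : Prop :=
  Incr ρ κ h ∧ (∀ ξ < ρ, h ξ ∈ D) ∧ ∀ n < ω, ∀ a b, Incr n ρ a → Incr n ρ b →
    col F n (fun k => h (a k)) = col F n (fun k => h (b k))

/-- every club subset of `κ` has (in `V`) a subset of order type `ρ` which is homogeneous for
`F` -/
def Homog (F : ZFSet.{0}) (ρ κ : Ordinal.{0}) : Prop :=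
  ∀ D, Club D κ → ∃ h, HomogSeq F D ρ κ h

/-- for every colouring in HOD of the finite increasing sequences of ordinals below `κ` which is
regressive above some `γ < κ`, each club subset of `κ` has (in `V`) a homogeneous subset of order
type `ρ` -/
def HODPartition (ρ κ : Ordinal.{0}) : Prop :=
  ∀ F, HOD F → ∀ γ < κ, RegAbove F κ γ → Homog F ρ κ

/-- for every colouring in HOD of the finite increasing sequences of ordinals below `κ` which is
regressive above some `γ < κ`, each club subset of `κ` in HOD has in HOD a homogeneous subset of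
order type `ρ`: in HOD, `κ` is `ρ`-Erdős -/
def HODErdos (ρ κ : Ordinal.{0}) : Prop :=
  ∀ F, HOD F → ∀ γ < κ, RegAbove F κ γ → ∀ D, Club D κ → HOD (ordSet κ D) →
    ∃ h, HOD (graph ρ h) ∧ HomogSeq F D ρ κ h

/-- `ρ` is countable in HOD -/
def HODCountable (ρ : Ordinal.{0}) : Prop :=
  ∃ e : Ordinal.{0} → Ordinal.{0}, HOD (graph ω e) ∧ ∀ ξ < ρ, ∃ n < ω, e n = ξ

end Pool.Agent.Helper73.HE
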