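import Pool.Agent.Helper73.HE.Defs

/-!
# Auxiliary definitions
-/

namespace Pool.Agent.Helper73.HE

open Ordinal Cardinal ZFSet Order Pool.Agent.Helper73.HODC

/-! ### Relations between ordinals definable from ordinals -/

/-- the sequence `a, q 0, q 1, ...` -/
def ocons (a : Ordinal.{0}) (q : ℕ → Ordinal.{0}) : ℕ → Ordinal.{0}
  | 0 => a
  | n + 1 => q n

/-- definable over `V` from ordinal parameters (as a relation between ordinals) -/
def DPo (Q : (ℕ → Ordinal.{0}) → Prop) : Prop := DP (fun v => Q (fun k => (v k).rank))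

/-- `Q a` holds for almost all `a ∈ T` -/
def AE (κ : Ordinal.{0}) (T : Set Ordinal.{0}) (Q : Ordinal.{0} → Prop) : Prop :=
  ∃ C, Club C κ ∧ ∀ a ∈ C, a < κ → a ∈ T → Q a

/-- `T` is a stationary set of ordinals of cofinality `ω` which is not split into two stationary
sets by any ordinal definable set, and the quantifier `for almost all a ∈ T` preserves
definability from ordinals -/
structure Ult (κ : Ordinal.{0}) (T : Set Ordinal.{0}) : Prop where
  stat : Stat T κ
  sub : ∀ a ∈ T, a < κ ∧ a.cof = ℵ₀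
  ultra : ∀ Q, DPo Q → ∀ q, AE κ T (fun a => Q (ocons a q)) ∨ AE κ T (fun a => ¬ Q (ocons a q))
  clos : ∀ Q, DPo Q → DPo (fun q => AE κ T (fun a => Q (ocons a q)))

/-! ### Functions on `μ` modulo the nonstationary ideal -/

/-- `x = y` on a club subset of `μ` -/
def EqC (μ : Ordinal.{0}) (x y : Ordinal.{0} → Ordinal.{0}) : Prop :=
  ∃ C, Club C μ ∧ ∀ i ∈ C, i < μ → x i = y i

/-- modulo the nonstationary ideal, `x = y` and `x' = y'` at the same points of `μ` -/
def EQ4 (μ : Ordinal.{0}) (x y x' y' : Ordinal.{0} → Ordinal.{0}) : Prop :=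
  ∃ C, Club C μ ∧ ∀ i ∈ C, i < μ → (x i = y i ↔ x' i = y' i)

/-- the `r`-th of four sequences coded in one -/
def quad (q : ℕ → Ordinal.{0}) (r k : ℕ) : Ordinal.{0} := q (4 * k + r)

/-- the relation `EQ4` between values of `U` is definable from ordinals -/
def OK4 (μ : Ordinal.{0}) (U : (ℕ → Ordinal.{0}) → Ordinal.{0} → Ordinal.{0}) : Prop :=
  DPo (fun q => EQ4 μ (U (quad q 0)) (U (quad q 1)) (U (quad q 2)) (U (quad q 3)))

/-- modulo the nonstationary ideal, `U a` depends only on the first `n` terms of `a` -/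
def Dep (μ : Ordinal.{0}) (n : ℕ) (U : (ℕ → Ordinal.{0}) → Ordinal.{0} → Ordinal.{0}) : Prop :=
  ∀ a b : ℕ → Ordinal.{0}, (∀ k < n, a k = b k) → EqC μ (U a) (U b)

/-- for almost all `a k`, for almost all `a (k+1)`, ..., for almost all `a (k+j-1)` -/
def AEn (κ : Ordinal.{0}) (T : Set Ordinal.{0}) (Q : (ℕ → Ordinal.{0}) → Prop) :
    ℕ → ℕ → (ℕ → Ordinal.{0}) → Prop
  | 0, _, a => Q a
  | j + 1, k, a => AE κ T (fun ξ => AEn κ T Q j (k + 1) (Function.update a k ξ))

/-! ### The canonical colouring without homogeneous sets -/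

/-- `F` is a regressive colouring (above some `γ < κ`) without homogeneous set of order type
`ρ` -/
def Bad (ρ κ : Ordinal.{0}) (F : ZFSet.{0}) : Prop :=
  (∃ γ < κ, RegAbove F κ γ) ∧ ¬ Homog F ρ κ

/-- `F` is defined in `V_(q 0)` by the formula `c.1` with the parameters `q 1, ..., q c.2` -/
def DefBy (c : Fm × ℕ) (F : ZFSet.{0}) (q : ℕ → Ordinal.{0}) : Prop :=
  (∀ k, par c.2 q k < q 0) ∧ F ∈ V_ (q 0) ∧
    ∀ y ∈ V_ (q 0), Sat {z | z ∈ V_ (q 0)} c.1 (cons y (fun k => (par c.2 q k).toZFSet)) ↔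
      y = F

/-- `F` is the bad colouring given by the lexicographically least tuple of ordinals -/
def CanF (c : Fm × ℕ) (ρ κ : Ordinal.{0}) (F : ZFSet.{0}) : Prop :=
  ∃ q, DefBy c F q ∧ Bad ρ κ F ∧
    ∀ F' q', DefBy c F' q' → Bad ρ κ F' → LexLe (c.2 + 1) q q'

/-- a sequence indexed by natural numbers as a function on ordinals -/
noncomputable def seqO (x : ℕ → Ordinal.{0}) (o : Ordinal.{0}) : Ordinal.{0} :=
  x (Cardinal.toNat o.card)

open Classical in
/-- the colour of the sequence `x 1, ..., x n` for the canonical bad colouring of sequences of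
ordinals below the successor of the cardinal of `x 0` (made regressive) -/
noncomputable def val (c : Fm × ℕ) (ρ : Ordinal.{0}) (n : ℕ) (x : ℕ → Ordinal.{0}) :
    Ordinal.{0} :=
  if h : ∃ F, CanF c ρ (succ (x 0).card).ord F then
    if col h.choose n (seqO (fun k => x (k + 1))) < x 1 then
      col h.choose n (seqO (fun k => x (k + 1))) else 0
  else 0

open Classical in
/-- the least function of rank at least `α` (chosen modulo the nonstationary ideal) -/
noncomputable def ff (μ κ α i : Ordinal.{0}) : Ordinal.{0} :=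
  if h : α < κ ∧ ∃ f, Exact μ α f then h.2.choose i else 0

end Pool.Agent.Helper73.HE
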