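import Pool.Agent.Helper73.HE.Pig

/-! # HE module Dfn3: definability of colourings and homogeneous sets -/

namespace Pool.Agent.Helper73.HE

open Ordinal Cardinal ZFSet Order Pool.Agent.Helper73.HODC

theorem col_congr {F : ZFSet.{0}} {n : Ordinal.{0}} {a b : Ordinal.{0} → Ordinal.{0}}
    (h : ∀ k < n, a k = b k) : col F n a = col F n b := by
  unfold col
  rw [bf_best_graph_congr h]

theorem incr_congr {n y : Ordinal.{0}} {a b : Ordinal.{0} → Ordinal.{0}}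
    (h : ∀ k < n, a k = b k) (ha : Incr n y a) : Incr n y b := by
  refine ⟨fun k hk => ?_, fun j k hjk hk => ?_⟩
  · rw [← h k hk]; exact ha.1 k hk
  · rw [← h j (hjk.trans hk), ← h k hk]; exact ha.2 j k hjk hk

theorem dfn_lt_omega (i : ℕ) : Dfn (fun v => (v i).rank < ω) := by
  refine Dfn.dncongr (P := fun v => ∃ w : Ordinal.{0}, (DNLim w ∧ ∀ b, b < w → ¬ DNLim b) ∧
    (v i).rank < w) ?_ fun v => ?_
  · refine Dfn.exO (Q := fun w v => (DNLim w ∧ ∀ b, b < w → ¬ DNLim b) ∧ (v i).rank < w) ?_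
    refine ((dn_dfn_lim 0).and ?_).and (dfn_rank_lt (i + 1) 0)
    refine Dfn.allO (Q := fun b v => b < (v 0).rank → ¬ DNLim b) ?_
    exact (dfn_rank_lt 0 1).imp (dn_dfn_lim 0).not
  · constructor
    · rintro ⟨w, hw, h⟩
      rwa [dn_omega_iff.2 hw] at h
    · intro h
      exact ⟨ω, dn_omega_iff.1 rfl, h⟩

/-- there is no surjection of `x` onto `y` -/
def NoSurj (x y : Ordinal.{0}) : Prop :=
  ¬ ∃ z : ZFSet.{0}, ∀ b, b < y → ∃ a, a < x ∧ fn z a = b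

theorem noSurj_iff {x y : Ordinal.{0}} : NoSurj x y ↔ x.card < y.card := by
  unfold NoSurj
  rw [← not_le, not_iff_not]
  constructor
  · rintro ⟨z, hz⟩
    choose g hg using fun b : Set.Iio y => hz b.1 b.2
    have hinj : Function.Injective (fun b : Set.Iio y => (⟨g b, (hg b).1⟩ : Set.Iio x)) := by
      intro b b' hbb
      have h1 : g b = g b' := congrArg Subtype.val hbb
      apply Subtype.ext
      rw [← (hg b).2, ← (hg b').2, h1]
    have h2 := Cardinal.mk_le_of_injective hinj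
    rw [Cardinal.mk_Iio_ordinal, Cardinal.mk_Iio_ordinal] at h2
    exact Cardinal.lift_le.1 h2
  · intro h
    have h2 : Cardinal.mk (Set.Iio y) ≤ Cardinal.mk (Set.Iio x) := by
      rw [Cardinal.mk_Iio_ordinal, Cardinal.mk_Iio_ordinal]
      exact Cardinal.lift_le.2 h
    obtain ⟨g⟩ := h2
    classical
    obtain ⟨z, hz, -⟩ := exists_fn
      (fun a => if h : ∃ b : Set.Iio y, (g b).1 = a then h.choose.1 else 0) x
    refine ⟨z, fun b hb => ⟨(g ⟨b, hb⟩).1, (g ⟨b, hb⟩).2, ?_⟩⟩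
    rw [hz _ (g ⟨b, hb⟩).2]
    have h3 : ∃ b' : Set.Iio y, (g b').1 = (g ⟨b, hb⟩).1 := ⟨⟨b, hb⟩, rfl⟩
    rw [dif_pos h3]
    have h4 := h3.choose_spec
    have h5 := g.injective (Subtype.ext h4)
    rw [h5]

theorem dfn_noSurj (i j : ℕ) : Dfn (fun v => NoSurj (v i).rank (v j).rank) := by
  refine Dfn.not ?_
  refine Dfn.ex (Q := fun z v => ∀ b, b < (v j).rank → ∃ a, a < (v i).rank ∧ fn z a = b) ?_
  refine Dfn.allO (Q := fun b v => b < (v (j + 1)).rank →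
    ∃ a, a < (v (i + 1)).rank ∧ fn (v 0) a = b) ?_
  refine (dfn_rank_lt 0 (j + 2)).imp ?_
  refine Dfn.exO (Q := fun a v => a < (v (i + 2)).rank ∧ fn (v 1) a = (v 0).rank) ?_
  exact (dfn_rank_lt 0 (i + 3)).and (dfn_fn 2 0 1)

theorem succCard_iff {x y : Ordinal.{0}} : (succ x.card).ord = y ↔
    NoSurj x y ∧ ∀ z, z < y → ¬ NoSurj x z := by
  constructor
  · rintro rfl
    refine ⟨?_, fun z hz h => ?_⟩
    · rw [noSurj_iff, Cardinal.card_ord]
      exact Order.lt_succ _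
    · rw [noSurj_iff] at h
      rw [Cardinal.lt_ord] at hz
      exact absurd (Order.lt_succ_iff.1 hz) (not_le.2 h)
  · rintro ⟨h1, h2⟩
    rw [noSurj_iff] at h1
    have h3 : (succ x.card).ord ≤ y := by
      rw [Cardinal.ord_le]
      exact Order.succ_le_of_lt h1
    refine le_antisymm h3 (not_lt.1 fun hlt => h2 _ hlt ?_)
    rw [noSurj_iff, Cardinal.card_ord]
    exact Order.lt_succ _

theorem dfn_succCard (i j : ℕ) : Dfn (fun v => (succ (v i).rank.card).ord = (v j).rank) := by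
  refine Dfn.dncongr (P := fun v => NoSurj (v i).rank (v j).rank ∧
    ∀ z, z < (v j).rank → ¬ NoSurj (v i).rank z) ?_ fun v => succCard_iff.symm
  refine (dfn_noSurj i j).and ?_
  refine Dfn.allO (Q := fun z v => z < (v j).rank → ¬ NoSurj (v i).rank z) ?_
  exact (dfn_rank_lt 0 (j + 1)).imp (dfn_noSurj (i + 1) 0).not

theorem dfn_fn_lt_fn (i j k l : ℕ) :
    Dfn (fun v => fn (v i) (v j).rank < fn (v k) (v l).rank) := by
  refine Dfn.dncongr (P := fun v => ∃ b, fn (v i) (v j).rank < b ∧ fn (v k) (v l).rank = b) ?_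
    fun v => ?_
  · refine Dfn.exO (Q := fun b v => fn (v i) (v j).rank < b ∧ fn (v k) (v l).rank = b) ?_
    exact (bf_dfn_fn_lt (i + 1) (j + 1) 0).and (dfn_fn (k + 1) (l + 1) 0)
  · constructor
    · rintro ⟨b, h, rfl⟩
      exact h
    · intro h
      exact ⟨_, h, rfl⟩

theorem dfn_incr (i j k : ℕ) : Dfn (fun v => Incr (v i).rank (v j).rank (fn (v k))) := by
  refine Dfn.and ?_ ?_
  · refine Dfn.allO (Q := fun a v => a < (v i).rank → fn (v k) a < (v j).rank) ?_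
    exact (dfn_rank_lt 0 (i + 1)).imp (bf_dfn_fn_lt (k + 1) 0 (j + 1))
  · refine Dfn.allO (Q := fun a v => ∀ b, a < b → b < (v i).rank →
      fn (v k) a < fn (v k) b) ?_
    refine Dfn.allO (Q := fun b v => (v 0).rank < b → b < (v (i + 1)).rank →
      fn (v (k + 1)) (v 0).rank < fn (v (k + 1)) b) ?_
    exact (dfn_rank_lt 1 0).imp ((dfn_rank_lt 0 (i + 2)).imp (dfn_fn_lt_fn (k + 2) 1 (k + 2) 0))

theorem dfn_colMem (i j k : ℕ) :
    Dfn (fun v => ZFSet.pair (v j) (v k).rank.toZFSet ∈ v i) := by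
  refine Dfn.dncongr (P := fun v => ∃ u : ZFSet.{0}, (u = u.rank.toZFSet ∧
    u.rank = (v k).rank) ∧ ZFSet.pair (v j) u ∈ v i) ?_ fun v => ?_
  · refine Dfn.ex (Q := fun u v => (u = u.rank.toZFSet ∧
      u.rank = (v k).rank) ∧ ZFSet.pair (v j) u ∈ v i) ?_
    exact ((dfn_isOrd 0).and (dfn_rank_eq 0 (k + 1))).and (dn_dfn_pair_mem (j + 1) 0 (i + 1))
  · constructor
    · rintro ⟨u, ⟨h1, h2⟩, h3⟩
      rw [← h2, ← h1]
      exact h3
    · intro h
      exact ⟨(v k).rank.toZFSet, ⟨by rw [rank_toZFSet], by rw [rank_toZFSet]⟩, h⟩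

theorem sInf_eq_iff (S : Set Ordinal.{0}) (c : Ordinal.{0}) :
    sInf S = c ↔ (c ∈ S ∧ ∀ d, d ∈ S → c ≤ d) ∨ ((∀ d, ¬ d ∈ S) ∧ c = 0) := by
  by_cases hne : S.Nonempty
  · constructor
    · rintro rfl
      exact Or.inl ⟨csInf_mem hne, fun d hd => csInf_le' hd⟩
    · rintro (⟨h1, h2⟩ | ⟨h1, h2⟩)
      · exact le_antisymm (csInf_le' h1) (h2 _ (csInf_mem hne))
      · obtain ⟨d, hd⟩ := hne
        exact absurd hd (h1 d)
  · rw [Set.not_nonempty_iff_eq_empty] at hne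
    rw [hne]
    constructor
    · rintro rfl
      exact Or.inr ⟨fun d hd => hd, Ordinal.sInf_empty⟩
    · rintro (⟨h1, h2⟩ | ⟨h1, h2⟩)
      · exact absurd h1 (Set.notMem_empty _)
      · rw [h2]; exact Ordinal.sInf_empty

theorem dfn_colG (i j l : ℕ) :
    Dfn (fun v => sInf {c : Ordinal.{0} | ZFSet.pair (v j) c.toZFSet ∈ v i} = (v l).rank) := by
  refine Dfn.dncongr (P := fun v =>
    (ZFSet.pair (v j) (v l).rank.toZFSet ∈ v i ∧
      ∀ d : Ordinal.{0}, ZFSet.pair (v j) d.toZFSet ∈ v i → (v l).rank ≤ d) ∨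
    ((∀ d : Ordinal.{0}, ¬ ZFSet.pair (v j) d.toZFSet ∈ v i) ∧ (v l).rank = 0)) ?_
    fun v => (sInf_eq_iff {c : Ordinal.{0} | ZFSet.pair (v j) c.toZFSet ∈ v i} (v l).rank).symm
  refine Dfn.or ((dfn_colMem i j l).and ?_) (Dfn.and ?_ (dfn_rank_zero l))
  · refine Dfn.allO (Q := fun d v => ZFSet.pair (v j) d.toZFSet ∈ v i → (v l).rank ≤ d) ?_
    exact (dfn_colMem (i + 1) (j + 1) 0).imp (dfn_rank_le (l + 1) 0)
  · refine Dfn.allO (Q := fun d v => ¬ ZFSet.pair (v j) d.toZFSet ∈ v i) ?_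
    exact (dfn_colMem (i + 1) (j + 1) 0).not

theorem dfn_col (i j k l : ℕ) :
    Dfn (fun v => col (v i) (v j).rank (fn (v k)) = (v l).rank) := by
  refine Dfn.dncongr (P := fun v => ∃ G : ZFSet.{0}, G = graph (v j).rank (fn (v k)) ∧
    sInf {c : Ordinal.{0} | ZFSet.pair G c.toZFSet ∈ v i} = (v l).rank) ?_ fun v => ?_
  · refine Dfn.ex (Q := fun G v => G = graph (v j).rank (fn (v k)) ∧
      sInf {c : Ordinal.{0} | ZFSet.pair G c.toZFSet ∈ v i} = (v l).rank) ?_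
    exact (bf_dfn_graph (j + 1) (k + 1) 0).and (dfn_colG (i + 1) 0 (l + 1))
  · constructor
    · rintro ⟨G, rfl, h⟩
      exact h
    · intro h
      exact ⟨_, rfl, h⟩

theorem regAbove_iff {F : ZFSet.{0}} {κ γ : Ordinal.{0}} : RegAbove F κ γ ↔
    ∀ n : Ordinal.{0}, n < ω → n ≠ 0 → ∀ z : ZFSet.{0}, Incr n κ (fn z) →
      ∀ o : Ordinal.{0}, o = 0 → γ ≤ fn z o → ∃ e, col F n (fn z) = e ∧ e < fn z o := by
  constructor
  · intro h n hn hn0 z hz o ho hγ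
    subst ho
    exact ⟨_, rfl, h n hn hn0 (fn z) hz hγ⟩
  · intro h n hn hn0 a ha hγ
    obtain ⟨z, hz, -⟩ := exists_fn a n
    have h0 : 0 < n := pos_iff_ne_zero.2 hn0
    have h1 : Incr n κ (fn z) := incr_congr (fun k hk => (hz k hk).symm) ha
    have h2 : γ ≤ fn z 0 := by rw [hz 0 h0]; exact hγ
    obtain ⟨e, he, he'⟩ := h n hn hn0 z h1 0 rfl h2
    rw [hz 0 h0] at he'
    rw [← col_congr hz, he]
    exact he'

theorem dfn_regAbove (i j k : ℕ) :
    Dfn (fun v => RegAbove (v i) (v j).rank (v k).rank) := by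
  refine Dfn.dncongr (P := fun v => ∀ n : Ordinal.{0}, n < ω → n ≠ 0 → ∀ z : ZFSet.{0},
    Incr n (v j).rank (fn z) → ∀ o : Ordinal.{0}, o = 0 → (v k).rank ≤ fn z o →
      ∃ e, col (v i) n (fn z) = e ∧ e < fn z o) ?_ fun v => regAbove_iff.symm
  refine Dfn.allO (Q := fun n v => n < ω → n ≠ 0 → ∀ z : ZFSet.{0},
    Incr n (v j).rank (fn z) → ∀ o : Ordinal.{0}, o = 0 → (v k).rank ≤ fn z o →
      ∃ e, col (v i) n (fn z) = e ∧ e < fn z o) ?_
  refine (dfn_lt_omega 0).imp ((dn_rank_ne_zero 0).imp ?_)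
  refine Dfn.all (Q := fun z v => Incr (v 0).rank (v (j + 1)).rank (fn z) →
    ∀ o : Ordinal.{0}, o = 0 → (v (k + 1)).rank ≤ fn z o →
      ∃ e, col (v (i + 1)) (v 0).rank (fn z) = e ∧ e < fn z o) ?_
  refine (dfn_incr 1 (j + 2) 0).imp ?_
  refine Dfn.allO (Q := fun o v => o = 0 → (v (k + 2)).rank ≤ fn (v 0) o →
      ∃ e, col (v (i + 2)) (v 1).rank (fn (v 0)) = e ∧ e < fn (v 0) o) ?_
  refine (dfn_rank_zero 0).imp ((bf_dfn_le_fn 1 0 (k + 3)).imp ?_)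
  refine Dfn.exO (Q := fun e v => col (v (i + 3)) (v 2).rank (fn (v 1)) = e ∧
    e < fn (v 1) (v 0).rank) ?_
  refine (dfn_col (i + 4) 3 2 0).and ?_
  refine Dfn.dncongr (P := fun v => ∃ b, fn (v 2) (v 1).rank = b ∧ (v 0).rank < b) ?_
    fun v => ?_
  · refine Dfn.exO (Q := fun b v => fn (v 2) (v 1).rank = b ∧ (v 0).rank < b) ?_
    exact (dfn_fn 3 2 0).and (dfn_rank_lt 1 0)
  · constructor
    · rintro ⟨b, rfl, h⟩
      exact h
    · intro h
      exact ⟨_, rfl, h⟩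

/-- `x` codes the composition of the functions coded by `h` and `a`, on `n` -/
def CompC (n : Ordinal.{0}) (x h a : ZFSet.{0}) : Prop :=
  ∀ k, k < n → ∃ c, fn a k = c ∧ ∃ d, fn h c = d ∧ fn x k = d

theorem dfn_compC (i j k l : ℕ) : Dfn (fun v => CompC (v i).rank (v j) (v k) (v l)) := by
  refine Dfn.allO (Q := fun m v => m < (v i).rank → ∃ c, fn (v l) m = c ∧
    ∃ d, fn (v k) c = d ∧ fn (v j) m = d) ?_
  refine (dfn_rank_lt 0 (i + 1)).imp ?_
  refine Dfn.exO (Q := fun c v => fn (v (l + 1)) (v 0).rank = c ∧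
    ∃ d, fn (v (k + 1)) c = d ∧ fn (v (j + 1)) (v 0).rank = d) ?_
  refine (dfn_fn (l + 2) 1 0).and ?_
  refine Dfn.exO (Q := fun d v => fn (v (k + 2)) (v 0).rank = d ∧
    fn (v (j + 2)) (v 1).rank = d) ?_
  exact (dfn_fn (k + 3) 1 0).and (dfn_fn (j + 3) 2 0)

theorem compC_iff {n : Ordinal.{0}} {x h a : ZFSet.{0}} :
    CompC n x h a ↔ ∀ k < n, fn x k = fn h (fn a k) := by
  constructor
  · intro H k hk
    obtain ⟨c, rfl, d, rfl, h3⟩ := H k hk
    exact h3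
  · intro H k hk
    exact ⟨_, rfl, _, rfl, H k hk⟩

theorem homogSeq_congr {F : ZFSet.{0}} {D : Set Ordinal.{0}} {ρ κ : Ordinal.{0}}
    {h h' : Ordinal.{0} → Ordinal.{0}} (hh : ∀ ξ < ρ, h ξ = h' ξ) (H : HomogSeq F D ρ κ h) :
    HomogSeq F D ρ κ h' := by
  obtain ⟨h1, h2, h3⟩ := H
  refine ⟨incr_congr hh h1, fun ξ hξ => by rw [← hh ξ hξ]; exact h2 ξ hξ, ?_⟩
  intro n hn a b ha hb
  have h4 := h3 n hn a b ha hb
  rw [col_congr (fun k hk => (hh (a k) (ha.1 k hk)).symm),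
    col_congr (fun k hk => (hh (b k) (hb.1 k hk)).symm)]
  exact h4

theorem homogFn_iff {F : ZFSet.{0}} {D : Set Ordinal.{0}} {ρ κ : Ordinal.{0}} {h : ZFSet.{0}} :
    HomogSeq F D ρ κ (fn h) ↔
    Incr ρ κ (fn h) ∧ (∀ ξ : Ordinal.{0}, ξ < ρ → ∃ c, fn h ξ = c ∧ c ∈ D) ∧
      ∀ n : Ordinal.{0}, n < ω → ∀ a b : ZFSet.{0},
      Incr n ρ (fn a) → Incr n ρ (fn b) → ∃ x y : ZFSet.{0}, (CompC n x h a ∧
        CompC n y h b) ∧ ∃ e : Ordinal.{0}, col F n (fn x) = e ∧ col F n (fn y) = e := by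
  constructor
  · rintro ⟨hh, hD, H⟩
    refine ⟨hh, fun ξ hξ => ⟨_, rfl, hD ξ hξ⟩, fun n hn a b ha hb => ?_⟩
    obtain ⟨x, hx, -⟩ := exists_fn (fun k => fn h (fn a k)) n
    obtain ⟨y, hy, -⟩ := exists_fn (fun k => fn h (fn b k)) n
    refine ⟨x, y, ⟨compC_iff.2 hx, compC_iff.2 hy⟩, _, rfl, ?_⟩
    rw [col_congr hx, col_congr hy]
    exact (H n hn (fn a) (fn b) ha hb).symm
  · rintro ⟨hz, hD, H⟩
    refine ⟨hz, fun ξ hξ => ?_, fun n hn a b ha hb => ?_⟩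
    · obtain ⟨c, h1, h2⟩ := hD ξ hξ
      rw [h1]
      exact h2
    obtain ⟨a', ha', -⟩ := exists_fn a n
    obtain ⟨b', hb', -⟩ := exists_fn b n
    obtain ⟨x, y, ⟨hx, hy⟩, e, h1, h2⟩ := H n hn a' b'
      (incr_congr (fun k hk => (ha' k hk).symm) ha) (incr_congr (fun k hk => (hb' k hk).symm) hb)
    rw [compC_iff] at hx hy
    have h3 : col F n (fun k => fn h (a k)) = col F n (fn x) := by
      apply col_congr
      intro k hk
      rw [hx k hk, ha' k hk]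
    have h4 : col F n (fun k => fn h (b k)) = col F n (fn y) := by
      apply col_congr
      intro k hk
      rw [hy k hk, hb' k hk]
    rw [h3, h4, h1, h2]

theorem dfn_homogFn (i j k l t : ℕ) :
    Dfn (fun v => HomogSeq (v i) (st (v l)) (v j).rank (v k).rank (fn (v t))) := by
  refine Dfn.dncongr (P := fun v => Incr (v j).rank (v k).rank (fn (v t)) ∧
    (∀ ξ : Ordinal.{0}, ξ < (v j).rank → ∃ c, fn (v t) ξ = c ∧ c ∈ st (v l)) ∧
    ∀ n : Ordinal.{0}, n < ω → ∀ a b : ZFSet.{0},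
      Incr n (v j).rank (fn a) → Incr n (v j).rank (fn b) →
      ∃ x y : ZFSet.{0}, (CompC n x (v t) a ∧
        CompC n y (v t) b) ∧ ∃ e : Ordinal.{0}, col (v i) n (fn x) = e ∧
          col (v i) n (fn y) = e) ?_ fun v => homogFn_iff.symm
  refine (dfn_incr j k t).and (Dfn.and ?_ ?_)
  · refine Dfn.allO (Q := fun ξ v => ξ < (v j).rank → ∃ c, fn (v t) ξ = c ∧
      c ∈ st (v l)) ?_
    refine (dfn_rank_lt 0 (j + 1)).imp ?_
    refine Dfn.exO (Q := fun c v => fn (v (t + 1)) (v 0).rank = c ∧ c ∈ st (v (l + 1))) ?_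
    exact (dfn_fn (t + 2) 1 0).and (dfn_st 0 (l + 2))
  refine Dfn.allO (Q := fun n v => n < ω → ∀ a b : ZFSet.{0},
      Incr n (v j).rank (fn a) → Incr n (v j).rank (fn b) →
      ∃ x y : ZFSet.{0}, (CompC n x (v t) a ∧
        CompC n y (v t) b) ∧ ∃ e : Ordinal.{0}, col (v i) n (fn x) = e ∧
          col (v i) n (fn y) = e) ?_
  refine (dfn_lt_omega 0).imp ?_
  refine Dfn.all (Q := fun a v => ∀ b : ZFSet.{0},
      Incr (v 0).rank (v (j + 1)).rank (fn a) → Incr (v 0).rank (v (j + 1)).rank (fn b) →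
      ∃ x y : ZFSet.{0}, (CompC (v 0).rank x (v (t + 1)) a ∧
        CompC (v 0).rank y (v (t + 1)) b) ∧
          ∃ e : Ordinal.{0}, col (v (i + 1)) (v 0).rank (fn x) = e ∧
          col (v (i + 1)) (v 0).rank (fn y) = e) ?_
  refine Dfn.all (Q := fun b v =>
      Incr (v 1).rank (v (j + 2)).rank (fn (v 0)) → Incr (v 1).rank (v (j + 2)).rank (fn b) →
      ∃ x y : ZFSet.{0}, (CompC (v 1).rank x (v (t + 2)) (v 0) ∧
        CompC (v 1).rank y (v (t + 2)) b) ∧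
          ∃ e : Ordinal.{0}, col (v (i + 2)) (v 1).rank (fn x) = e ∧
          col (v (i + 2)) (v 1).rank (fn y) = e) ?_
  refine (dfn_incr 2 (j + 3) 1).imp ((dfn_incr 2 (j + 3) 0).imp ?_)
  refine Dfn.ex (Q := fun x v => ∃ y : ZFSet.{0}, (CompC (v 2).rank x (v (t + 3)) (v 1) ∧
        CompC (v 2).rank y (v (t + 3)) (v 0)) ∧ ∃ e : Ordinal.{0},
          col (v (i + 3)) (v 2).rank (fn x) = e ∧
          col (v (i + 3)) (v 2).rank (fn y) = e) ?_
  refine Dfn.ex (Q := fun y v => (CompC (v 3).rank (v 0) (v (t + 4)) (v 2) ∧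
        CompC (v 3).rank y (v (t + 4)) (v 1)) ∧ ∃ e : Ordinal.{0},
          col (v (i + 4)) (v 3).rank (fn (v 0)) = e ∧
          col (v (i + 4)) (v 3).rank (fn y) = e) ?_
  refine ((dfn_compC 4 1 (t + 5) 3).and (dfn_compC 4 0 (t + 5) 2)).and ?_
  refine Dfn.exO (Q := fun e v => col (v (i + 5)) (v 4).rank (fn (v 1)) = e ∧
          col (v (i + 5)) (v 4).rank (fn (v 0)) = e) ?_
  exact (dfn_col (i + 6) 5 2 0).and (dfn_col (i + 6) 5 1 0)

theorem dfn_homogSeq (i j k l : ℕ) :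
    Dfn (fun v => ∃ h, HomogSeq (v i) (st (v l)) (v j).rank (v k).rank h) := by
  refine Dfn.dncongr (P := fun v => ∃ z : ZFSet.{0},
    HomogSeq (v i) (st (v l)) (v j).rank (v k).rank (fn z)) ?_ fun v => ?_
  · exact Dfn.ex (Q := fun z v => HomogSeq (v i) (st (v l)) (v j).rank (v k).rank (fn z))
      (dfn_homogFn (i + 1) (j + 1) (k + 1) (l + 1) 0)
  · constructor
    · rintro ⟨z, hz⟩
      exact ⟨_, hz⟩
    · rintro ⟨h, hh⟩
      obtain ⟨z, hz, -⟩ := exists_fn h (v j).rank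
      exact ⟨z, homogSeq_congr (fun ξ hξ => (hz ξ hξ).symm) hh⟩

theorem homog_iff {F : ZFSet.{0}} {ρ κ : Ordinal.{0}} : Homog F ρ κ ↔
    ∀ z : ZFSet.{0}, Club (st z) κ → ∃ h, HomogSeq F (st z) ρ κ h := by
  constructor
  · intro h z hz
    exact h _ hz
  · intro h D hD
    obtain ⟨z, hz, hz'⟩ := exists_stC D κ
    obtain ⟨f, h1, h2, h3⟩ := h z (dn_club_congr (fun i hi => (hz i hi).symm) hD)
    exact ⟨f, h1, fun ξ hξ => hz' _ (h2 ξ hξ), h3⟩

theorem dfn_homog (i j k : ℕ) : Dfn (fun v => Homog (v i) (v j).rank (v k).rank) := by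
  refine Dfn.dncongr (P := fun v => ∀ z : ZFSet.{0}, Club (st z) (v k).rank →
    ∃ h, HomogSeq (v i) (st z) (v j).rank (v k).rank h) ?_ fun v => homog_iff.symm
  refine Dfn.all (Q := fun z v => Club (st z) (v k).rank →
    ∃ h, HomogSeq (v i) (st z) (v j).rank (v k).rank h) ?_
  exact (dfn_club 0 (k + 1)).imp (dfn_homogSeq (i + 1) (j + 1) (k + 1) 0)

theorem dfn_bad (i j k : ℕ) : Dfn (fun v => Bad (v i).rank (v j).rank (v k)) := by
  refine Dfn.and ?_ (dfn_homog k i j).not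
  refine Dfn.dncongr (P := fun v => ∃ γ : Ordinal.{0}, γ < (v j).rank ∧
    RegAbove (v k) (v j).rank γ) ?_ fun v => Iff.rfl
  refine Dfn.exO (Q := fun γ v => γ < (v j).rank ∧ RegAbove (v k) (v j).rank γ) ?_
  exact (dfn_rank_lt 0 (j + 1)).and (dfn_regAbove (k + 1) (j + 1) 0)

end Pool.Agent.Helper73.HE
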