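import Pool.Agent.Helper73.HE.Pig

/-! # HE module Diag: homogeneous sets by diagonal intersections -/

namespace Pool.Agent.Helper73.HE

open Ordinal Cardinal ZFSet Order Pool.Agent.Helper73.HODC

/-- diagonal intersections of clubs indexed by sequences of length `k` -/
private theorem diagN {c : Cardinal.{0}} (hc : c.IsRegular) (hc' : ℵ₀ < c) (k : ℕ) :
    ∀ C : (ℕ → Ordinal.{0}) → Set Ordinal.{0}, (∀ a, Club (C a) c.ord) →
      Club {β | ∀ a : ℕ → Ordinal.{0}, (∀ i < k, a i < β) → (∀ i, k ≤ i → a i = 0) →
        β ∈ C a} c.ord := by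
  induction k with
  | zero =>
    intro C hC
    have h1 : {β : Ordinal.{0} | ∀ a : ℕ → Ordinal.{0}, (∀ i < 0, a i < β) →
        (∀ i, 0 ≤ i → a i = 0) → β ∈ C a} = C (fun _ => 0) := by
      ext β
      constructor
      · intro h
        exact h (fun _ => 0) (fun i hi => absurd hi (Nat.not_lt_zero i)) fun _ _ => rfl
      · intro h a _ h0
        have : a = fun _ => 0 := funext fun i => h0 i (Nat.zero_le i)
        rw [this]
        exact h
    rw [h1]
    exact hC _
  | succ k ih =>
    intro C hC
    have h1 : {β : Ordinal.{0} | ∀ a : ℕ → Ordinal.{0}, (∀ i < k + 1, a i < β) →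
        (∀ i, k + 1 ≤ i → a i = 0) → β ∈ C a} =
        {β | ∀ ξ < β, β ∈ {β | ∀ a : ℕ → Ordinal.{0}, (∀ i < k, a i < β) →
          (∀ i, k ≤ i → a i = 0) → β ∈ C (Function.update a k ξ)}} := by
      ext β
      constructor
      · intro h ξ hξ a ha ha0
        apply h
        · intro i hi
          by_cases hik : i = k
          · rw [hik, Function.update_self]
            exact hξ
          · rw [Function.update_of_ne hik]
            exact ha i (by omega)
        · intro i hi
          rw [Function.update_of_ne (by omega : i ≠ k)]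
          exact ha0 i (by omega)
      · intro h a ha ha0
        have h2 := h (a k) (ha k (Nat.lt_succ_self k)) (Function.update a k 0) ?_ ?_
        · rw [Function.update_idem, Function.update_eq_self] at h2
          exact h2
        · intro i hi
          rw [Function.update_of_ne (by omega : i ≠ k)]
          exact ha i (by omega)
        · intro i hi
          by_cases hik : i = k
          · rw [hik, Function.update_self]
          · rw [Function.update_of_ne hik]
            exact ha0 i (by omega)
    rw [h1]
    exact Club.diag hc hc' fun ξ _ => ih (fun a => C (Function.update a k ξ)) fun a => hC _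

theorem diag_homog {c : Cardinal.{0}} (hc : c.IsRegular) (hc' : ℵ₀ < c) {T : Set Ordinal.{0}}
    {Q : ℕ → (ℕ → Ordinal.{0}) → Prop}
    (hdep : ∀ n a b, (∀ k < n, a k = b k) → Q n a → Q n b)
    (h : ∀ n, AEn c.ord T (Q n) n 0 (fun _ => 0)) :
    ∃ D, Club D c.ord ∧ ∀ n (a : ℕ → Ordinal.{0}), (∀ k < n, a k ∈ T ∧ a k ∈ D ∧ a k < c.ord) →
      (∀ j k, j < k → k < n → a j < a k) → Q n a := by
  have hlim : IsSuccLimit c.ord := isSuccLimit_of_cof (reg_cof hc hc')
  have h1 : ∀ (x : ℕ × ℕ × ℕ) (a : ℕ → Ordinal.{0}), ∃ C, Club C c.ord ∧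
      (AEn c.ord T (Q x.1) (x.2.1 + 1) x.2.2 a → ∀ ξ ∈ C, ξ < c.ord → ξ ∈ T →
        AEn c.ord T (Q x.1) x.2.1 (x.2.2 + 1) (Function.update a x.2.2 ξ)) := by
    intro x a
    by_cases hx : AEn c.ord T (Q x.1) (x.2.1 + 1) x.2.2 a
    · obtain ⟨C, hC, hC'⟩ := hx
      exact ⟨C, hC, fun _ => hC'⟩
    · exact ⟨Set.univ, club_univ hlim, fun h => absurd h hx⟩
  choose C hC using h1
  refine ⟨⋂ x : ℕ × ℕ × ℕ, {β | ∀ a : ℕ → Ordinal.{0}, (∀ i < x.2.2, a i < β) →
    (∀ i, x.2.2 ≤ i → a i = 0) → β ∈ C x a}, Club.iInter (reg_cof hc hc') fun x =>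
      diagN hc hc' x.2.2 (C x) fun a => (hC x a).1, ?_⟩
  intro n a ha hinc
  have key : ∀ k ≤ n, AEn c.ord T (Q n) (n - k) k (fun i => if i < k then a i else 0) := by
    intro k
    induction k with
    | zero =>
      intro _
      have h2 : (fun i : ℕ => if i < 0 then a i else (0 : Ordinal.{0})) = fun _ => 0 := by
        funext i
        rw [if_neg (Nat.not_lt_zero i)]
      rw [h2]
      exact h n
    | succ k ih =>
      intro hk
      have h2 := ih (by omega)
      have h3 : n - k = (n - (k + 1)) + 1 := by omega
      rw [h3] at h2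
      obtain ⟨haT, haD, hac⟩ := ha k (by omega)
      have h4 := Set.mem_iInter.1 haD (n, n - (k + 1), k)
      have h5 := h4 (fun i => if i < k then a i else 0) ?_ ?_
      · have h6 := (hC (n, n - (k + 1), k) (fun i => if i < k then a i else 0)).2 h2 (a k) h5
          hac haT
        have h7 : Function.update (fun i : ℕ => if i < k then a i else (0 : Ordinal.{0})) k (a k)
            = fun i => if i < k + 1 then a i else 0 := by
          funext i
          by_cases hik : i = k
          · rw [hik, Function.update_self, if_pos (Nat.lt_succ_self k)]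
          · rw [Function.update_of_ne hik]
            by_cases hi : i < k
            · rw [if_pos hi, if_pos (by omega)]
            · rw [if_neg hi, if_neg (by omega)]
        rw [← h7]
        exact h6
      · intro i hi
        have hi' : i < k := hi
        change (if i < k then a i else 0) < a k
        rw [if_pos hi']
        exact hinc i k hi' (by omega)
      · intro i hi
        have hi' : k ≤ i := hi
        change (if i < k then a i else 0) = 0
        rw [if_neg (by omega)]
  have h8 := key n le_rfl
  rw [Nat.sub_self] at h8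
  refine hdep n _ _ ?_ h8
  intro k hk
  change (if k < n then a k else 0) = a k
  rw [if_pos hk]

end Pool.Agent.Helper73.HE
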