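import Pool.Agent.Helper73.HE.Pig

/-! # HE module Exact: facts on the exact functions -/

namespace Pool.Agent.Helper73.HE

open Ordinal Cardinal ZFSet Order Pool.Agent.Helper73.HODC

theorem ff_eq {m : Cardinal.{0}} {κ α : Ordinal.{0}} (h : α < κ) (h' : ∃ f, Exact m.ord α f) :
    Exact m.ord α (ff m.ord κ α) := by
  have h1 : ff m.ord κ α = h'.choose := by
    funext i
    unfold ff
    rw [dif_pos ⟨h, h'⟩]
  rw [h1]
  exact h'.choose_spec

/-- a set which is not stationary is disjoint from a club -/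
private theorem club_of_not_stat {S : Set Ordinal.{0}} {κ : Ordinal.{0}} (h : ¬ Stat S κ) :
    ∃ C, Club C κ ∧ ∀ i ∈ C, i < κ → i ∉ S := by
  unfold Stat at h
  push Not at h
  obtain ⟨C, hC, h3⟩ := h
  exact ⟨C, hC, fun a haC hac haS => absurd hac (not_lt.2 (h3 a haS haC))⟩

/-- the exact function is the least function of rank at least `α` -/
private theorem exact_le {m : Cardinal.{0}} (hm : m.IsRegular) {α : Ordinal.{0}}
    {f g : Ordinal.{0} → Ordinal.{0}} (h : Exact m.ord α f) (hg : R m.ord Set.univ α g) :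
    LeOn m.ord Set.univ f g := by
  have h1 : ¬ Stat {i | g i < f i} m.ord := fun hS =>
    h.2 _ g hS (ex_ltOn hm fun i hi _ => hi) (R_mono_set hg fun i _ _ => trivial)
  obtain ⟨C, hC, h2⟩ := club_of_not_stat h1
  exact ⟨C, hC, fun i hi him _ => not_lt.1 (h2 i hi him)⟩

private theorem lt_succ_ord {lam m : Cardinal.{0}} {δ : Ordinal.{0} → Cardinal.{0}}
    (hs : Setting lam m δ) {i : Ordinal.{0}} (hi : i < m.ord) :
    (1 : Ordinal.{0}) < (succ (δ i)).ord := by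
  have hl : IsSuccLimit (succ (δ i)).ord :=
    isSuccLimit_ord ((hs.aleph0_lt hi).le.trans (le_succ _))
  have h0 : (0 : Ordinal.{0}) < (succ (δ i)).ord := by
    rw [Cardinal.lt_ord, card_zero]
    exact aleph0_pos.trans_le ((hs.aleph0_lt hi).le.trans (le_succ _))
  have h1 := hl.add_one_lt h0
  rwa [zero_add] at h1

theorem ff_lt {lam m : Cardinal.{0}} {δ : Ordinal.{0} → Cardinal.{0}} (hs : Setting lam m δ)
    (x : Ordinal.{0}) : ∃ C, Club C m.ord ∧ ∀ i ∈ C, i < m.ord →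
      max (ff m.ord (succ lam).ord x i) 1 < (succ (δ i)).ord := by
  by_cases h : x < (succ lam).ord ∧ ∃ f, Exact m.ord x f
  · obtain ⟨F, hF1, hF2⟩ := exists_F hs
    obtain ⟨C, hC, h1⟩ := exact_le hs.reg (ff_eq h.1 h.2) (R_F hF2 x h.1 Set.univ)
    exact ⟨C, hC, fun i hi him =>
      max_lt ((h1 i hi him trivial).trans_lt (hF1 x h.1 i him)) (lt_succ_ord hs him)⟩
  · refine ⟨Set.univ, club_univ hs.limit, fun i _ him => ?_⟩
    unfold ff
    rw [dif_neg h]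
    exact max_lt (zero_lt_one.trans (lt_succ_ord hs him)) (lt_succ_ord hs him)

theorem ff_good {lam m : Cardinal.{0}} {δ : Ordinal.{0} → Cardinal.{0}} (hs : Setting lam m δ) :
    ∃ D, Club D (succ lam).ord ∧ ∀ α ∈ D, α < (succ lam).ord → α.cof = ℵ₀ →
      (∃ f, Exact m.ord α f) ∧
      (∃ G r, Appr m.ord α (ff m.ord (succ lam).ord α) G r) ∧
      ∃ C, Club C m.ord ∧ ∀ i ∈ C, i < m.ord → (δ i).ord < ff m.ord (succ lam).ord α i ∧
        ff m.ord (succ lam).ord α i < (succ (δ i)).ord := by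
  have hcofm : ℵ₀ < m.ord.cof := ex_cof_reg hs.reg hs.unc
  obtain ⟨D, hD, h⟩ := exists_appr hs Set.univ (fun i => {a | (δ i).ord < a})
    (fun i _ him => club_Ioi (isSuccLimit_ord ((hs.aleph0_lt him).le.trans (le_succ _)))
      (ord_lt_ord.mpr (lt_succ _)))
  refine ⟨D, hD, fun α hαD hα hαc => ?_⟩
  obtain ⟨-, f, G, r, hA, C, hC, h1⟩ := h α hαD hα hαc
  have hex : Exact m.ord α f := exact_of_appr hs.reg hs.unc hA
  have hff : Exact m.ord α (ff m.ord (succ lam).ord α) := ff_eq hα ⟨f, hex⟩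
  obtain ⟨C', hC', h2⟩ := club_of_not_stat (exact_ne_not_stat hs.reg hs.unc hex hff)
  have h3 : ∀ i ∈ C', i < m.ord → f i = ff m.ord (succ lam).ord α i := fun i hi him =>
    not_not.1 (h2 i hi him)
  refine ⟨⟨f, hex⟩, ⟨G, r, ⟨hA.r_lt, hA.bdd, hA.unb, ?_⟩⟩, ?_⟩
  · obtain ⟨C'', hC'', h4⟩ := hA.sup
    refine ⟨C' ∩ C'', hC'.inter hcofm hC'', fun i hi him => ?_⟩
    rw [← h3 i hi.1 him]
    exact h4 i hi.2 him
  · refine ⟨C' ∩ C, hC'.inter hcofm hC, fun i hi him => ?_⟩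
    rw [← h3 i hi.1 him]
    have h5 := h1 i hi.2 him trivial
    exact ⟨h5.1, h5.2.2⟩

/-- the values of the canonical functions in clubs -/
theorem ff_club {lam m : Cardinal.{0}} {δ : Ordinal.{0} → Cardinal.{0}} (hs : Setting lam m δ)
    (E : Ordinal.{0} → Set Ordinal.{0}) (hE : ∀ i < m.ord, Club (E i) (succ (δ i)).ord) :
    ∃ D, Club D (succ lam).ord ∧ ∀ α ∈ D, α < (succ lam).ord → α.cof = ℵ₀ →
      ∃ C, Club C m.ord ∧ ∀ i ∈ C, i < m.ord → ff m.ord (succ lam).ord α i ∈ E i := by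
  have hcofm : ℵ₀ < m.ord.cof := ex_cof_reg hs.reg hs.unc
  obtain ⟨D, hD, h⟩ := exists_appr hs Set.univ E (fun i _ him => hE i him)
  refine ⟨D, hD, fun α hαD hα hαc => ?_⟩
  obtain ⟨-, f, G, r, hA, C, hC, h1⟩ := h α hαD hα hαc
  have hex : Exact m.ord α f := exact_of_appr hs.reg hs.unc hA
  have hff : Exact m.ord α (ff m.ord (succ lam).ord α) := ff_eq hα ⟨f, hex⟩
  obtain ⟨C', hC', h2⟩ := club_of_not_stat (exact_ne_not_stat hs.reg hs.unc hex hff)
  refine ⟨C' ∩ C, hC'.inter hcofm hC, fun i hi him => ?_⟩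
  have h3 : f i = ff m.ord (succ lam).ord α i := not_not.1 (h2 i hi.1 him)
  rw [← h3]
  exact (h1 i hi.2 him trivial).1

theorem ff_mono {m : Cardinal.{0}} (hm : m.IsRegular) (hm' : ℵ₀ < m) {κ α β : Ordinal.{0}}
    (hαβ : α < β) (hβ : β < κ) (h : ∃ f, Exact m.ord α f) (h' : ∃ f, Exact m.ord β f) :
    LtOn m.ord Set.univ (ff m.ord κ α) (ff m.ord κ β) := by
  have h1 := ff_eq hβ h'
  obtain ⟨z, ⟨C, hC, hz⟩, hz'⟩ := R_iff.1 h1.1 α hαβ
  obtain ⟨C', hC', h2⟩ := exact_le hm (ff_eq (hαβ.trans hβ) h) hz'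
  exact ⟨C ∩ C', hC.inter (ex_cof_reg hm hm') hC', fun i hi him hiu =>
    (h2 i hi.2 him hiu).trans_lt (hz i hi.1 him hiu)⟩

theorem ff_above {lam m : Cardinal.{0}} {δ : Ordinal.{0} → Cardinal.{0}} (hs : Setting lam m δ)
    (γ : Ordinal.{0} → Ordinal.{0}) (hγ : ∀ i < m.ord, γ i < (succ (δ i)).ord) :
    ∃ η < (succ lam).ord, ∀ α, η ≤ α → α < (succ lam).ord → (∃ f, Exact m.ord α f) →
      LtOn m.ord Set.univ γ (ff m.ord (succ lam).ord α) := by
  obtain ⟨η, hη, hb⟩ := rank_bound hs γ hγ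
  refine ⟨η, hη, fun α hηα hα hex => ?_⟩
  have h1 := ff_eq hα hex
  have h2 : ¬ Stat {i | ff m.ord (succ lam).ord α i ≤ γ i} m.ord := by
    intro hS
    refine hb _ hS (R_anti ?_ hηα)
    exact R_mono hs.reg hs.unc (R_mono_set h1.1 fun i _ _ => trivial)
      (ex_leOn hs.reg fun i hi _ => hi)
  obtain ⟨C, hC, h3⟩ := club_of_not_stat h2
  exact ⟨C, hC, fun i hi him _ => not_le.1 (h3 i hi him)⟩

theorem ff_reg {lam m : Cardinal.{0}} {δ : Ordinal.{0} → Cardinal.{0}} (hs : Setting lam m δ) :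
    ∃ F : Ordinal.{0} → Ordinal.{0} → Ordinal.{0},
      (∀ r < (succ lam).ord, ∃ C, Club C m.ord ∧
        ∀ i ∈ C, i < m.ord → F r i < (succ (δ i)).ord) ∧
      ∃ D, Club D (succ lam).ord ∧ ∀ α ∈ D, α < (succ lam).ord → α.cof = ℵ₀ →
        ∀ V, LtOn m.ord Set.univ V (fun i => max (ff m.ord (succ lam).ord α i) 1) →
        ∀ A, Stat A m.ord → ∃ r < α, Stat {i | i ∈ A ∧ V i < F r i} m.ord := by
  have hcofm : ℵ₀ < m.ord.cof := ex_cof_reg hs.reg hs.unc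
  obtain ⟨F, hF1, hF2⟩ := exists_F hs
  obtain ⟨D, hD, h⟩ := ff_good hs
  refine ⟨F, fun r hr => ⟨Set.univ, club_univ hs.limit, fun i _ him => hF1 r hr i him⟩,
    D, hD, fun α hαD hα hαc V hV A hA => ?_⟩
  obtain ⟨-, ⟨G, r, hAp⟩, C, hC, h1⟩ := h α hαD hα hαc
  obtain ⟨C', hC', h2⟩ := hV
  obtain ⟨C'', hC'', h3⟩ := hAp.sup
  have hS : Stat (A ∩ (C ∩ (C' ∩ C''))) m.ord :=
    hA.inter_club hcofm (hC.inter hcofm (hC'.inter hcofm hC''))
  obtain ⟨n, hn⟩ := stat_of_iUnion hcofm hS (A := fun n => {i | V i < G n i})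
    (fun i hi him => by
      have h4 : V i < max (ff m.ord (succ lam).ord α i) 1 := h2 i hi.2.2.1 him trivial
      have h5 : (1 : Ordinal.{0}) ≤ ff m.ord (succ lam).ord α i :=
        Order.one_le_iff_pos.2 (pos_of_gt (h1 i hi.2.1 him).1)
      rw [max_eq_left h5] at h4
      exact (h3 i hi.2.2.2 him).2 _ h4)
  refine ⟨r n, hAp.r_lt n, ?_⟩
  have h6 : ¬ Stat {i | F (r n) i ≤ G n i} m.ord := by
    intro hT
    exact hAp.bdd n _ hT (R_mono hs.reg hs.unc (R_F hF2 (r n) ((hAp.r_lt n).trans hα) _)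
      (ex_leOn hs.reg fun i hi _ => hi))
  obtain ⟨C3, hC3, h7⟩ := club_of_not_stat h6
  refine (hn.inter_club hcofm hC3).mono fun i hi him => ⟨hi.1.1.1, ?_⟩
  exact lt_trans hi.1.2 (not_le.1 (h7 i hi.2 him))

end Pool.Agent.Helper73.HE
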