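import Pool.Agent.Helper73.HE.FinB

/-! # HE module Fin: assembly -/

namespace Pool.Agent.Helper73.HE

open Ordinal Cardinal ZFSet Order Pool.Agent.Helper73.HODC

theorem succ_ord_pos (d : Cardinal.{0}) : (0 : Ordinal.{0}) < (succ d).ord := by
  rw [Cardinal.lt_ord, card_zero]
  exact lt_of_le_of_lt zero_le (lt_succ d)

/-- the canonical bad colourings of index `c` cannot exist on a stationary set -/
theorem core {lam m : Cardinal.{0}} {δ : Ordinal.{0} → Cardinal.{0}} (hs : Setting lam m δ)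
    {T : Set Ordinal.{0}} (hT : Ult (succ lam).ord T)
    (c : Fm × ℕ) {S : Set Ordinal.{0}} (hS : Stat S m.ord)
    (hSF : ∀ i ∈ S, ∃ ρ ≤ i, ∃ F, CanF c ρ (succ (δ i)).ord F) : False := by
  classical
  have hm : ℵ₀ < m.ord.cof := reg_cof hs.reg hs.unc
  have hlam : ℵ₀ ≤ lam := hs.aleph0_lt_lam.le
  have hκr : (succ lam).IsRegular := isRegular_succ hlam
  have hκ' : ℵ₀ < succ lam := hlam.trans_lt (lt_succ lam)
  have hκ : ℵ₀ < (succ lam).ord.cof := reg_cof hκr hκ'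
  have hmκ : m.ord < (succ lam).ord :=
    ord_lt_ord.2 ((hs.big.trans (hs.lt 0 hs.ord_pos)).trans (lt_succ lam))
  obtain ⟨D1, hD1, hgood⟩ := ff_good hs
  obtain ⟨s, hsc, hsD, hsκ⟩ := stat_cof_omega hκ D1 hD1
  obtain ⟨-, -, Cs, hCs, hs1⟩ := hgood s hsD hsκ hsc
  -- the constant values
  have hg : ∀ n, ∃ g, AEn (succ lam).ord T (fun a => n = 0 ∨
      EqC m.ord (UU c m.ord (succ lam).ord s n a) g) n 0 (fun _ => 0) := by
    intro n
    rcases Nat.eq_zero_or_pos n with rfl | hn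
    · exact ⟨fun _ => 0, Or.inl rfl⟩
    · obtain ⟨g, hg⟩ := UU_const hs hT c s hn
      exact ⟨g, AEn_mono (fun a ha => Or.inr ha) _ _ _ hg⟩
  choose g hg using hg
  obtain ⟨D, hD, hDQ⟩ := diag_homog hκr hκ' (T := T)
    (Q := fun n a => n = 0 ∨ EqC m.ord (UU c m.ord (succ lam).ord s n a) (g n)) (by
      intro n a b hab h
      rcases Nat.eq_zero_or_pos n with rfl | hn
      · exact Or.inl rfl
      · rcases h with h | h
        · exact Or.inl h
        · right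
          rw [← UU_congr c m.ord (succ lam).ord s hn hab]
          exact h) hg
  -- the bounds and the clubs
  have hγ : ∀ i, ∃ γ E, γ < (succ (δ i)).ord ∧ (i < m.ord → Club E (succ (δ i)).ord) ∧
      (i ∈ S → ∃ F, CanF c (rmin c (succ (δ i)).ord) (succ (δ i)).ord F ∧
      RegAbove F (succ (δ i)).ord γ ∧
      ¬ ∃ h, HomogSeq F E (rmin c (succ (δ i)).ord) (succ (δ i)).ord h) := by
    intro i
    by_cases hi : i ∈ S
    · obtain ⟨ρ, -, hF⟩ := hSF i hi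
      have hmem : rmin c (succ (δ i)).ord ∈ {ρ | ∃ F, CanF c ρ (succ (δ i)).ord F} :=
        csInf_mem ⟨ρ, hF⟩
      obtain ⟨F, q, hq, ⟨⟨γ, hγ, hR⟩, hH⟩, hmin⟩ := hmem
      have hH' := hH
      unfold Homog at hH'
      push Not at hH'
      obtain ⟨E, hE, h1⟩ := hH'
      exact ⟨γ, E, hγ, fun _ => hE, fun _ => ⟨F, ⟨q, hq, ⟨⟨γ, hγ, hR⟩, hH⟩, hmin⟩, hR,
        fun ⟨h, h2⟩ => h1 h h2⟩⟩
    · exact ⟨0, Set.univ, succ_ord_pos _, fun him =>
        club_univ (isSuccLimit_ord ((hs.aleph0_lt him).le.trans (le_succ _))),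
        fun h => absurd h hi⟩
  choose γ E hγ1 hE hγ2 using hγ
  obtain ⟨η, hη, habove⟩ := ff_above hs γ fun i _ => hγ1 i
  obtain ⟨D3, hD3, hclub⟩ := ff_club hs E hE
  -- the sequence of ordinals
  obtain ⟨A, hA, hAinc⟩ := exists_seq hκr
    (S := {a | a ∈ T ∧ a ∈ D ∧ a ∈ D1 ∧ a ∈ D3 ∧ η < a}) (by
    intro β hβ
    have hlim := isSuccLimit_of_cof hκ
    obtain ⟨b, hbT, ⟨⟨hb1, hb2⟩, hb5, hb3, hb4⟩, hbκ⟩ := hT.stat
      ((D ∩ D1) ∩ (D3 ∩ ({a | η < a} ∩ {a | β < a})))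
      ((hD.inter hκ hD1).inter hκ
        (hD3.inter hκ ((club_Ioi hlim hη).inter hκ (club_Ioi hlim hβ))))
    exact ⟨b, ⟨hbT, hb1, hb2, hb5, hb3⟩, hb4, hbκ⟩) hmκ
  have hcofA : ∀ ξ < m.ord, (A ξ).cof = ℵ₀ := fun ξ hξ => (hT.sub _ (hA ξ hξ).1.1).2
  have hex : ∀ ξ < m.ord, ∃ f, Exact m.ord (A ξ) f := fun ξ hξ =>
    (hgood (A ξ) (hA ξ hξ).1.2.2.1 (hA ξ hξ).2 (hcofA ξ hξ)).1
  -- the clubs in `m`
  obtain ⟨C1, hC1, hC1'⟩ := club_diag hs.reg hs.unc
    (P := fun ξ i => ff m.ord (succ lam).ord (A ξ) i < (succ (δ i)).ord ∧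
      γ i < ff m.ord (succ lam).ord (A ξ) i ∧ ff m.ord (succ lam).ord (A ξ) i ∈ E i) (by
    intro ξ hξ
    obtain ⟨-, -, C, hC, h1⟩ := hgood (A ξ) (hA ξ hξ).1.2.2.1 (hA ξ hξ).2 (hcofA ξ hξ)
    obtain ⟨C', hC', h2⟩ := habove (A ξ) (hA ξ hξ).1.2.2.2.2.le (hA ξ hξ).2 (hex ξ hξ)
    obtain ⟨C'', hC'', h3⟩ := hclub (A ξ) (hA ξ hξ).1.2.2.2.1 (hA ξ hξ).2 (hcofA ξ hξ)
    exact ⟨(C ∩ C') ∩ C'', (hC.inter hm hC').inter hm hC'', fun i hi him =>
      ⟨(h1 i hi.1.1 him).2, h2 i hi.1.2 him trivial, h3 i hi.2 him⟩⟩)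
  obtain ⟨C2, hC2, hC2'⟩ := club_diag hs.reg hs.unc
    (P := fun ζ i => ∀ ξ < ζ,
      ff m.ord (succ lam).ord (A ξ) i < ff m.ord (succ lam).ord (A ζ) i) (by
    intro ζ hζ
    refine club_forall hs.reg hs.unc hζ (P := fun ξ i =>
      ff m.ord (succ lam).ord (A ξ) i < ff m.ord (succ lam).ord (A ζ) i) ?_
    intro ξ hξ
    obtain ⟨C, hC, h1⟩ := ff_mono hs.reg hs.unc (hAinc ξ ζ hξ hζ) (hA ζ hζ).2
      (hex ξ (hξ.trans hζ)) (hex ζ hζ)
    exact ⟨C, hC, fun i hi him => h1 i hi him trivial⟩)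
  obtain ⟨C3, hC3, hC3'⟩ := club_diag_seq hs.reg hs.unc
    (P := fun N b i => N ≠ 0 → (∀ j k, j < k → k < N → b j < b k) →
      UU c m.ord (succ lam).ord s N (fun k => A (b k)) i = g N i) (by
    intro N b b' i hbb h hN hinc
    rw [← h hN fun j k hjk hk => by rw [hbb j (hjk.trans hk), hbb k hk]; exact hinc j k hjk hk]
    rw [UU_congr c m.ord (succ lam).ord s (Nat.pos_of_ne_zero hN)]
    intro k hk
    rw [hbb k hk]) (by
    intro N b hb
    by_cases hN : N ≠ 0 ∧ ∀ j k, j < k → k < N → b j < b k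
    · rcases hDQ N (fun k => A (b k)) (fun k hk => ⟨(hA _ (hb k hk)).1.1, (hA _ (hb k hk)).1.2.1,
        (hA _ (hb k hk)).2⟩) (fun j k hjk hk => hAinc _ _ (hN.2 j k hjk hk) (hb k hk)) with h | h
      · exact absurd h hN.1
      · obtain ⟨C, hC, h1⟩ := h
        exact ⟨C, hC, fun i hi him _ _ => h1 i hi him⟩
    · exact ⟨Set.univ, club_univ hs.limit, fun i _ _ h1 h2 => absurd ⟨h1, h2⟩ hN⟩)
  -- a point of the stationary set
  obtain ⟨i, hiS, ⟨⟨hi1, hi2⟩, hi3, hi4⟩, him⟩ := hS ((C1 ∩ C2) ∩ (C3 ∩ Cs))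
    ((hC1.inter hm hC2).inter hm (hC3.inter hm hCs))
  obtain ⟨F, hF, hR, hH⟩ := hγ2 i hiS
  have hρi : rmin c (succ (δ i)).ord ≤ i := by
    obtain ⟨ρ, hρ, hF'⟩ := hSF i hiS
    exact (csInf_le' (show ρ ∈ {ρ | ∃ F, CanF c ρ (succ (δ i)).ord F} from hF')).trans hρ
  have hb1 := hC1' i hi1 him
  have hb2 := hC2' i hi2 him
  have hb3 := hC3' i hi3 him
  obtain ⟨hs2, hs3⟩ := hs1 i hi4 him
  have hsi : (ff m.ord (succ lam).ord s i).card = δ i := by
    apply le_antisymm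
    · exact Order.lt_succ_iff.1 (Cardinal.lt_ord.1 hs3)
    · have := Ordinal.card_le_card hs2.le
      rwa [card_ord] at this
  set ρ := rmin c (succ (δ i)).ord with hρdef
  apply hH
  have hIncr : ∀ (N : Ordinal.{0}) (a : Ordinal.{0} → Ordinal.{0}), Incr N ρ a →
      Incr N (succ (δ i)).ord (fun k => ff m.ord (succ lam).ord (A (a k)) i) := by
    intro N a ha
    exact ⟨fun k hk => (hb1 _ ((ha.1 k hk).trans_le hρi)).1,
      fun j k hjk hk => hb2 _ ((ha.1 k hk).trans_le hρi) _ (ha.2 j k hjk hk)⟩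
  have key : ∀ (N : ℕ) (a : Ordinal.{0} → Ordinal.{0}), N ≠ 0 → Incr N ρ a →
      col F N (fun k => ff m.ord (succ lam).ord (A (a k)) i) = g N i := by
    intro N a hN ha
    have h1 := hb3 N (fun k => a k)
      (fun k hk => (ha.1 k (by exact_mod_cast hk)).trans_le hρi) hN
      (fun j k hjk hk => ha.2 j k (by exact_mod_cast hjk) (by exact_mod_cast hk))
    have h2 : col F N (seqO (fun k => (ocons (ff m.ord (succ lam).ord s i)
        (fun k => ff m.ord (succ lam).ord (A (a k)) i)) (k + 1))) =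
        col F N (fun k => ff m.ord (succ lam).ord (A (a k)) i) := by
      apply col_congr
      intro k hk
      obtain ⟨k, rfl⟩ := Ordinal.lt_omega0.1 (hk.trans (Ordinal.natCast_lt_omega0 N))
      rw [seqO_nat]
      rfl
    have h0 : (0 : Ordinal.{0}) < N := by
      exact_mod_cast Nat.pos_of_ne_zero hN
    have h3 := hR N (Ordinal.natCast_lt_omega0 N) h0.ne' _ (hIncr N a ha)
      (hb1 _ ((ha.1 0 h0).trans_le hρi)).2.1.le
    have h4 := val2_eval (c := c) (n := N) (x := ocons (ff m.ord (succ lam).ord s i)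
        (fun k => ff m.ord (succ lam).ord (A (a k)) i)) (F := F) (by
      show CanF c (rmin c (succ (ff m.ord (succ lam).ord s i).card).ord)
        (succ (ff m.ord (succ lam).ord s i).card).ord F
      rw [hsi]
      exact hF) (by
      rw [h2]
      show _ < ff m.ord (succ lam).ord (A (a ((0 : ℕ) : Ordinal.{0}))) i
      rw [Nat.cast_zero]
      exact h3)
    rw [← h2, ← h4]
    exact h1
  refine ⟨fun ξ => ff m.ord (succ lam).ord (A ξ) i, hIncr ρ (fun ξ => ξ)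
    ⟨fun k hk => hk, fun j k hjk _ => hjk⟩, fun ξ hξ => (hb1 ξ (hξ.trans_le hρi)).2.2, ?_⟩
  intro n hn a b ha hb
  obtain ⟨N, rfl⟩ := Ordinal.lt_omega0.1 hn
  rcases Nat.eq_zero_or_pos N with rfl | hN
  · apply col_congr
    intro k hk
    rw [Nat.cast_zero] at hk
    exact absurd hk not_lt_zero
  · rw [key N a hN.ne' ha, key N b hN.ne' hb]

/-- the partition property holds on a club -/
theorem club_partition {lam m : Cardinal.{0}} {δ : Ordinal.{0} → Cardinal.{0}}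
    (hs : Setting lam m δ) {T : Set Ordinal.{0}} (hT : Ult (succ lam).ord T) :
    ∃ C, Club C m.ord ∧ ∀ i ∈ C, i < m.ord → ∀ ρ ≤ i, HODPartition ρ (succ (δ i)).ord := by
  have hm : ℵ₀ < m.ord.cof := reg_cof hs.reg hs.unc
  by_contra hcon
  have hB : Stat {i | ∃ ρ ≤ i, ¬ HODPartition ρ (succ (δ i)).ord} m.ord := by
    intro C hC
    by_contra h3
    push Not at h3
    apply hcon
    refine ⟨C, hC, fun i hi him ρ hρ => ?_⟩
    by_contra h4
    exact absurd him (not_lt.2 (h3 i ⟨ρ, hρ, h4⟩ hi))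
  have hex : ∀ i ρ, ¬ HODPartition ρ (succ (δ i)).ord →
      ∃ c F, CanF c ρ (succ (δ i)).ord F := by
    intro i ρ hi
    unfold HODPartition at hi
    push Not at hi
    obtain ⟨F, hF, γ, hγ, hR, hH⟩ := hi
    exact exists_canF hF ⟨⟨γ, hγ, hR⟩, hH⟩
  have : Countable Fm := countable_Fm
  obtain ⟨c, hSc⟩ := stat_of_iUnion hm hB
    (A := fun c : Fm × ℕ => {i | ∃ ρ ≤ i, ∃ F, CanF c ρ (succ (δ i)).ord F}) (by
      rintro i ⟨ρ, hρ, hi⟩ _
      obtain ⟨c, F, hF⟩ := hex i ρ hi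
      exact ⟨c, ρ, hρ, F, hF⟩)
  exact core hs hT c hSc fun i hi => hi.2

end Pool.Agent.Helper73.HE
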