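import Pool.Agent.Helper73.HE.Pig

/-! # HE module FinA: preliminaries for the assembly -/

namespace Pool.Agent.Helper73.HE

open Ordinal Cardinal ZFSet Order Pool.Agent.Helper73.HODC

/-- the number of sequences of elements of a set of size at most `lam` -/
theorem pow_lt_succ {lam m : Cardinal.{0}} {δ : Ordinal.{0} → Cardinal.{0}}
    (hs : Setting lam m δ) (hcof : lam.ord.cof = m) (Y : Type) (hY : Cardinal.mk Y < succ lam) :
    Cardinal.mk (ℕ → Y) < succ lam := by
  classical
  have hlam : ℵ₀ ≤ lam := hs.aleph0_lt_lam.le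
  have hcof' : ℵ₀ < lam.ord.cof := by rw [hcof]; exact hs.unc
  rw [Order.lt_succ_iff] at hY ⊢
  -- functions into `lam.ord` are bounded
  let X := lam.ord.ToType
  have hX : Cardinal.mk X = lam := by
    show Cardinal.mk lam.ord.ToType = lam
    rw [Cardinal.mk_toType, card_ord]
  let e : X → Ordinal.{0} := fun x => (Ordinal.ToType.mk.symm x).1
  have he : ∀ x, e x < lam.ord := fun x => (Ordinal.ToType.mk.symm x).2
  have heinj : Function.Injective e := by
    intro x y hxy
    exact Ordinal.ToType.mk.symm.injective (Subtype.ext hxy)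
  have hbd : ∀ f : ℕ → X, ∃ b : X, ∀ n, e (f n) < e b := by
    intro f
    have h1 : ⨆ n, e (f n) < lam.ord := iSup_lt_of_lt_cof (by rw [Cardinal.mk_nat]; exact hcof')
      fun n => he (f n)
    have h2 : succ (⨆ n, e (f n)) < lam.ord := (isSuccLimit_of_cof hcof').succ_lt h1
    refine ⟨Ordinal.ToType.mk ⟨_, h2⟩, fun n => ?_⟩
    have h3 : e (Ordinal.ToType.mk ⟨_, h2⟩) = succ (⨆ n, e (f n)) := by
      show (Ordinal.ToType.mk.symm (Ordinal.ToType.mk ⟨_, h2⟩)).1 = _
      rw [OrderIso.symm_apply_apply]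
    rw [h3]
    exact (Ordinal.le_iSup (fun n => e (f n)) n).trans_lt (Order.lt_succ _)
  choose b hb using hbd
  have h1 : Cardinal.mk (ℕ → X) ≤ lam := by
    let g : (ℕ → X) → Σ c : X, (ℕ → {x : X // e x < e c}) := fun f => ⟨b f, fun n => ⟨f n, hb f n⟩⟩
    have hg : Function.Injective g := by
      intro f f' h
      have h2 : ∀ n, ((g f).2 n).1 = ((g f').2 n).1 := by
        rw [h]
        intro n
        rfl
      funext n
      exact h2 n
    refine (Cardinal.mk_le_of_injective hg).trans ?_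
    rw [Cardinal.mk_sigma]
    have h3 : ∀ c : X, Cardinal.mk (ℕ → {x : X // e x < e c}) ≤ lam := by
      intro c
      have h4 : Cardinal.mk {x : X // e x < e c} ≤ (e c).card := by
        have h5 : Cardinal.mk {x : X // e x < e c} ≤ Cardinal.mk (e c).ToType := by
          refine Cardinal.mk_le_of_injective
            (f := fun x : {x : X // e x < e c} => Ordinal.ToType.mk ⟨e x.1, x.2⟩) ?_
          intro x y hxy
          have h6 := Ordinal.ToType.mk.injective hxy
          have h7 : e x.1 = e y.1 := by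
            simpa using h6
          exact Subtype.ext (heinj h7)
        rwa [Cardinal.mk_toType] at h5
      have h5 : (e c).card < lam := Cardinal.lt_ord.1 (he c)
      rw [← Cardinal.power_def, Cardinal.mk_nat]
      calc Cardinal.mk {x : X // e x < e c} ^ ℵ₀ ≤ (max (e c).card 1) ^ ℵ₀ :=
            Cardinal.power_le_power_right (h4.trans (le_max_left _ _))
        _ ≤ (max (e c).card 1) ^ m :=
            Cardinal.power_le_power_left (ne_of_gt (lt_of_lt_of_le one_pos (le_max_right _ _)))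
              hs.unc.le
        _ ≤ lam := (hs.pow _ (max_lt h5 (one_lt_aleph0.trans_le hlam))).le
    calc Cardinal.sum (fun c : X => Cardinal.mk (ℕ → {x : X // e x < e c}))
        ≤ Cardinal.sum (fun _ : X => lam) := Cardinal.sum_le_sum _ _ h3
      _ = lam * lam := by rw [Cardinal.sum_const', hX]
      _ = lam := Cardinal.mul_eq_self hlam
  have h2 : Cardinal.mk Y ≤ Cardinal.mk X := by rw [hX]; exact hY
  rw [← Cardinal.power_def] at h1 ⊢
  exact (Cardinal.power_le_power_right h2).trans h1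

/-- increasing sequences of elements of an unbounded set -/
theorem exists_seq {c : Cardinal.{0}} (hc : c.IsRegular) {S : Set Ordinal.{0}}
    (hS : ∀ β < c.ord, ∃ b ∈ S, β < b ∧ b < c.ord) {ρ : Ordinal.{0}} (hρ : ρ < c.ord) :
    ∃ A : Ordinal.{0} → Ordinal.{0}, (∀ ξ < ρ, A ξ ∈ S ∧ A ξ < c.ord) ∧
      ∀ ξ ζ, ξ < ζ → ζ < ρ → A ξ < A ζ := by
  obtain ⟨b, hb, -, g, h1, h2, -⟩ := enum_regular hc hS ρ hρ
  exact ⟨g, fun ξ hξ => ⟨(h1 ξ hξ).1, (h1 ξ hξ).2.trans hb⟩,
    fun ξ ζ hξζ hζ => h2 ξ (hξζ.trans hζ) ζ hζ hξζ⟩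

theorem AEn_mono {κ : Ordinal.{0}} {T : Set Ordinal.{0}} {Q Q' : (ℕ → Ordinal.{0}) → Prop}
    (h : ∀ a, Q a → Q' a) : ∀ (j k : ℕ) (a : ℕ → Ordinal.{0}), AEn κ T Q j k a →
      AEn κ T Q' j k a := by
  intro j
  induction j with
  | zero =>
    intro k a ha
    exact h a ha
  | succ j ih =>
    intro k a ha
    exact AE.mono ha fun ξ _ _ hξ => ih (k + 1) _ hξ

end Pool.Agent.Helper73.HE
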