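import Pool.Agent.Helper73.HE.One

/-! # HE module Many: functions of several variables -/

namespace Pool.Agent.Helper73.HE

open Ordinal Cardinal ZFSet Order Pool.Agent.Helper73.HODC

/-- substitution of (infinitely many) constants, for predicates of sets -/
theorem DP.substAll {Q : (ℕ → ZFSet.{0}) → Prop} (h : DP Q) (x : ℕ → Ordinal.{0}) (s : ℕ → ℕ) :
    DP (fun v => Q (fun i => if s i = 0 then (x i).toZFSet else v (s i - 1))) := by
  obtain ⟨P, p, hP, h⟩ := h
  let t : ℕ → ℕ := fun n => if n % 2 = 0 then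
      (if s (n / 2) = 0 then 2 * (2 * (n / 2) + 1) + 1 else 2 * (s (n / 2) - 1))
    else 2 * (2 * (n / 2)) + 1
  let p' : ℕ → Ordinal.{0} := fun n => if n % 2 = 0 then p (n / 2) else x (n / 2)
  refine ⟨fun w => P (fun n => w (t n)), p', hP.rename t, ?_⟩
  intro v
  beta_reduce
  rw [h]
  have hp0 : ∀ n, p' (2 * n) = p n := by
    intro n
    have h1 : (2 * n) % 2 = 0 := by omega
    have h2 : (2 * n) / 2 = n := by omega
    simp only [p', h1, h2, if_true]
  have hp1 : ∀ n, p' (2 * n + 1) = x n := by
    intro n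
    have h1 : (2 * n + 1) % 2 ≠ 0 := by omega
    have h2 : (2 * n + 1) / 2 = n := by omega
    simp only [p', h1, h2, if_false]
  have : mixZ (fun i => if s i = 0 then (x i).toZFSet else v (s i - 1))
      (fun k => (p k).toZFSet) = fun n => mixZ v (fun k => (p' k).toZFSet) (t n) := by
    funext n
    rcases Nat.even_or_odd' n with ⟨k, rfl | rfl⟩
    · have h1 : (2 * k) % 2 = 0 := by omega
      have h2 : (2 * k) / 2 = k := by omega
      rw [mixZ_even]
      by_cases hs : s k = 0
      · have ht : t (2 * k) = 2 * (2 * k + 1) + 1 := by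
          simp only [t, h1, h2, hs, if_true]
        rw [ht, mixZ_odd, if_pos hs, hp1]
      · have ht : t (2 * k) = 2 * (s k - 1) := by
          simp only [t, h1, h2, hs, if_true, if_false]
        rw [ht, mixZ_even, if_neg hs]
    · have h1 : (2 * k + 1) % 2 ≠ 0 := by omega
      have h2 : (2 * k + 1) / 2 = k := by omega
      have ht : t (2 * k + 1) = 2 * (2 * k) + 1 := by
        simp only [t, h1, h2, if_false]
      rw [ht, mixZ_odd, mixZ_odd, hp0]
  rw [this]

/-- substitution of constants, for predicates of ordinals -/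
theorem DPo.substAll {Q : (ℕ → Ordinal.{0}) → Prop} (h : DPo Q) (x : ℕ → Ordinal.{0})
    (s : ℕ → ℕ) : DPo (fun q => Q (fun i => if s i = 0 then x i else q (s i - 1))) := by
  refine DP.congr (DP.substAll h x s) fun v => ?_
  have : (fun i => if s i = 0 then x i else (v (s i - 1)).rank) =
      fun i => (if s i = 0 then (x i).toZFSet else v (s i - 1)).rank := by
    funext i
    split_ifs
    · rw [rank_toZFSet]
    · rfl
  beta_reduce
  rw [this]

theorem AEn.mono {κ : Ordinal.{0}} {T : Set Ordinal.{0}} {Q Q' : (ℕ → Ordinal.{0}) → Prop}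
    (h : ∀ a, Q a → Q' a) : ∀ (j k : ℕ) (a : ℕ → Ordinal.{0}), AEn κ T Q j k a →
      AEn κ T Q' j k a := by
  intro j
  induction j with
  | zero => intro k a ha; exact h a ha
  | succ j ih =>
    intro k a ha
    exact AE.mono ha fun ξ _ _ h1 => ih (k + 1) _ h1

theorem LtOn.congrC {μ : Ordinal.{0}} (hμ : ℵ₀ < μ.cof) {x x' y : Ordinal.{0} → Ordinal.{0}}
    (h : LtOn μ Set.univ x y) (hx : EqC μ x x') : LtOn μ Set.univ x' y := by
  obtain ⟨C, hC, h⟩ := h
  obtain ⟨C', hC', h'⟩ := hx
  exact ⟨C ∩ C', hC.inter hμ hC', fun i hi him _ => by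
    rw [← h' i hi.2 him]; exact h i hi.1 him trivial⟩

/-- substituting one variable in a block of four sequences -/
theorem quad_ocons (q : ℕ → Ordinal.{0}) (ξ : Ordinal.{0}) (k r : ℕ) (hr : r < 4) :
    quad (fun n => ocons ξ q (if n / 4 = k then 0 else n + 1)) r =
      Function.update (quad q r) k ξ := by
  funext i
  have h1 : (4 * i + r) / 4 = i := by omega
  by_cases hi : i = k
  · subst hi
    rw [Function.update_self]
    simp only [quad, h1, if_true]
    rfl
  · rw [Function.update_of_ne hi]
    simp only [quad, h1, hi, if_false]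
    rfl

theorem quad_const (q a : ℕ → Ordinal.{0}) (k r : ℕ) (hr : r < 4) :
    quad (fun n => if (if n / 4 = k then n % 4 + 1 else 0) = 0 then a (n / 4)
      else q ((if n / 4 = k then n % 4 + 1 else 0) - 1)) r = Function.update a k (q r) := by
  funext i
  have h1 : (4 * i + r) / 4 = i := by omega
  have h2 : (4 * i + r) % 4 = r := by omega
  by_cases hi : i = k
  · subst hi
    rw [Function.update_self]
    simp only [quad, h1, h2, if_true]
    simp
  · rw [Function.update_of_ne hi]
    simp only [quad, h1, hi, if_false, if_true]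

theorem const_n {lam m : Cardinal.{0}} {δ : Ordinal.{0} → Cardinal.{0}} (hs : Setting lam m δ)
    {T : Set Ordinal.{0}} (hT : Ult (succ lam).ord T) (n : ℕ)
    (U : (ℕ → Ordinal.{0}) → Ordinal.{0} → Ordinal.{0})
    (Γ F : Ordinal.{0} → Ordinal.{0} → Ordinal.{0})
    (hdep : Dep m.ord (n + 1) U) (hok : OK4 m.ord U)
    (hΓ : ∀ x, ∃ C, Club C m.ord ∧ ∀ i ∈ C, i < m.ord → Γ x i < (succ (δ i)).ord)
    (hb : ∀ a, LtOn m.ord Set.univ (U a) (Γ (a 0)))
    (hF : ∀ r < (succ lam).ord, ∃ C, Club C m.ord ∧
      ∀ i ∈ C, i < m.ord → F r i < (succ (δ i)).ord)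
    (hreg : AE (succ lam).ord T (fun x => ∀ V, LtOn m.ord Set.univ V (Γ x) →
      ∀ A, Stat A m.ord → ∃ r < x, Stat {i | i ∈ A ∧ V i < F r i} m.ord)) :
    ∃ g, AEn (succ lam).ord T (fun a => EqC m.ord (U a) g) (n + 1) 0 (fun _ => 0) := by
  have hμ : ℵ₀ < m.ord.cof := reg_cof hs.reg hs.unc
  have hκ : ℵ₀ < (succ lam).ord.cof := by
    rw [(isRegular_succ hs.aleph0_lt_lam.le).cof_ord]
    exact hs.aleph0_lt_lam.trans (Order.lt_succ lam)
  have hst := hT.stat
  -- the definability needed for `const_one`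
  have hdef : ∀ (U₀ : (ℕ → Ordinal.{0}) → Ordinal.{0} → Ordinal.{0}), OK4 m.ord U₀ →
      ∀ (a : ℕ → Ordinal.{0}) (k : ℕ), DPo (fun q => EQ4 m.ord (U₀ (Function.update a k (q 0)))
        (U₀ (Function.update a k (q 1))) (U₀ (Function.update a k (q 2)))
        (U₀ (Function.update a k (q 3)))) := by
    intro U₀ h₀ a k
    refine DPo.congr (DPo.substAll h₀ (fun n => a (n / 4))
      (fun n => if n / 4 = k then n % 4 + 1 else 0)) fun q => ?_
    rw [quad_const q a k 0 (by omega), quad_const q a k 1 (by omega),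
      quad_const q a k 2 (by omega), quad_const q a k 3 (by omega)]
  have claim : ∀ j, j ≤ n → ∃ U' : (ℕ → Ordinal.{0}) → Ordinal.{0} → Ordinal.{0},
      Dep m.ord (n + 1 - j) U' ∧ OK4 m.ord U' ∧
      (∀ a, LtOn m.ord Set.univ (U' a) (Γ (a 0))) ∧
      ∀ a, AEn (succ lam).ord T (fun a' => EqC m.ord (U a') (U' a)) j (n + 1 - j) a := by
    intro j
    induction j with
    | zero =>
      intro _
      exact ⟨U, hdep, hok, hb, fun a => EqC.refl hμ _⟩
    | succ j ih =>
      intro hj
      obtain ⟨U₀, hd₀, hok₀, hb₀, hA₀⟩ := ih (by omega)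
      obtain ⟨k, hk⟩ : ∃ k, k = n - j := ⟨_, rfl⟩
      have hk1 : n + 1 - j = k + 1 := by omega
      have hk2 : n + 1 - (j + 1) = k := by omega
      have hk0 : 0 ≠ k := by omega
      rw [hk1] at hd₀ hA₀
      rw [hk2]
      have hupd : ∀ (a : ℕ → Ordinal.{0}) (ξ : Ordinal.{0}), Function.update a k ξ 0 = a 0 :=
        fun a ξ => Function.update_of_ne hk0 _ _
      have hex : ∀ a : ℕ → Ordinal.{0}, ∃ g, AE (succ lam).ord T (fun ξ =>
          EqC m.ord (U₀ (Function.update a k ξ)) g) := by
        intro a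
        refine const_one hs hT (fun ξ => U₀ (Function.update a k ξ)) (fun _ => Γ (a 0))
          (hdef U₀ hok₀ a k) (fun r _ => hΓ (a 0)) ?_
        refine AE_of_forall hκ fun ξ hξ _ A hA => ⟨0, ?_, ?_⟩
        · rcases eq_or_ne ξ 0 with h0 | h0
          · exfalso
            have h1 := (hT.sub ξ hξ).2
            rw [h0, Ordinal.cof_zero] at h1
            exact aleph0_ne_zero h1.symm
          · exact pos_iff_ne_zero.2 h0
        · obtain ⟨C, hC, h1⟩ := hb₀ (Function.update a k ξ)
          rw [hupd] at h1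
          intro C' hC'
          obtain ⟨i, hiA, hiC, him⟩ := hA _ (hC.inter hμ hC')
          exact ⟨i, ⟨hiA, h1 i hiC.1 him trivial⟩, hiC.2, him⟩
      choose g hg using hex
      refine ⟨g, ?_, ?_, ?_, ?_⟩
      · intro a b hab
        obtain ⟨ξ, -, -, h1, h2⟩ := ((hg a).and hκ (hg b)).exists hκ hst
        have h3 : EqC m.ord (U₀ (Function.update a k ξ)) (U₀ (Function.update b k ξ)) := by
          apply hd₀
          intro i hi
          by_cases hik : i = k
          · subst hik
            rw [Function.update_self, Function.update_self]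
          · rw [Function.update_of_ne hik, Function.update_of_ne hik]
            exact hab i (by omega)
        exact (h1.symm.trans hμ h3).trans hμ h2
      · have h1 : DPo (fun q => AE (succ lam).ord T (fun ξ => EQ4 m.ord
            (U₀ (Function.update (quad q 0) k ξ)) (U₀ (Function.update (quad q 1) k ξ))
            (U₀ (Function.update (quad q 2) k ξ)) (U₀ (Function.update (quad q 3) k ξ)))) := by
          refine DPo.congr (hT.clos _ (DPo.rename hok₀
            (fun n => if n / 4 = k then 0 else n + 1))) fun q => ?_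
          have h2 : ∀ ξ, (EQ4 m.ord
            (U₀ (Function.update (quad q 0) k ξ)) (U₀ (Function.update (quad q 1) k ξ))
            (U₀ (Function.update (quad q 2) k ξ)) (U₀ (Function.update (quad q 3) k ξ))) =
            EQ4 m.ord
            (U₀ (quad (fun n => ocons ξ q (if n / 4 = k then 0 else n + 1)) 0))
            (U₀ (quad (fun n => ocons ξ q (if n / 4 = k then 0 else n + 1)) 1))
            (U₀ (quad (fun n => ocons ξ q (if n / 4 = k then 0 else n + 1)) 2))
            (U₀ (quad (fun n => ocons ξ q (if n / 4 = k then 0 else n + 1)) 3)) := by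
            intro ξ
            rw [quad_ocons q ξ k 0 (by omega), quad_ocons q ξ k 1 (by omega),
              quad_ocons q ξ k 2 (by omega), quad_ocons q ξ k 3 (by omega)]
          simp only [h2]
        refine DPo.congr h1 fun q => ?_
        have h3 := (((hg (quad q 0)).and hκ (hg (quad q 1))).and hκ
          ((hg (quad q 2)).and hκ (hg (quad q 3))))
        constructor
        · intro h
          refine AE.mono h3 fun ξ _ _ h4 => ?_
          exact h.congr hμ h4.1.1.symm h4.1.2.symm h4.2.1.symm h4.2.2.symm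
        · intro h
          obtain ⟨ξ, -, -, h4, h5⟩ := (h3.and hκ h).exists hκ hst
          exact h5.congr hμ h4.1.1 h4.1.2 h4.2.1 h4.2.2
      · intro a
        obtain ⟨ξ, -, -, h1⟩ := (hg a).exists hκ hst
        have h2 := hb₀ (Function.update a k ξ)
        rw [hupd] at h2
        exact LtOn.congrC hμ h2 h1
      · intro a
        refine AE.mono (hg a) fun ξ _ _ h1 => ?_
        exact AEn.mono (fun a' h2 => EqC.trans hμ h2 h1) j (k + 1) _
          (hA₀ (Function.update a k ξ))
  obtain ⟨U₀, -, hok₀, hb₀, hA₀⟩ := claim n le_rfl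
  have hn : n + 1 - n = 0 + 1 := by omega
  rw [hn] at hA₀
  obtain ⟨g, hg⟩ := const_one hs hT (fun ξ => U₀ (Function.update (fun _ => 0) 0 ξ)) F
    (hdef U₀ hok₀ (fun _ => 0) 0) hF (AE.mono hreg fun ξ _ _ h1 A hA => by
      have h2 := hb₀ (Function.update (fun _ => 0) 0 ξ)
      rw [Function.update_self] at h2
      exact h1 _ h2 A hA)
  refine ⟨g, ?_⟩
  refine AE.mono hg fun ξ _ _ h1 => ?_
  exact AEn.mono (fun a' h2 => EqC.trans hμ h2 h1) n (0 + 1) _ (hA₀ _)

end Pool.Agent.Helper73.HE
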