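import Pool.Agent.Helper73.HE.Val

/-! # HE module Val2: the canonical values for the least order type -/

namespace Pool.Agent.Helper73.HE

open Ordinal Cardinal ZFSet Order Pool.Agent.Helper73.HODC

/-- the least order type for which there is a canonical bad colouring of index `c` -/
noncomputable def rmin (c : Fm × ℕ) (κ : Ordinal.{0}) : Ordinal.{0} :=
  sInf {ρ | ∃ F, CanF c ρ κ F}

theorem dfn_exCanF (c : Fm × ℕ) (i j : ℕ) :
    Dfn (fun v => ∃ F, CanF c (v i).rank (v j).rank F) :=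
  Dfn.ex (Q := fun F v => CanF c (v i).rank (v j).rank F) (dfn_canF c (i + 1) (j + 1) 0)

theorem dfn_rmin (c : Fm × ℕ) (i j : ℕ) : Dfn (fun v => rmin c (v i).rank = (v j).rank) := by
  refine Dfn.dncongr (P := fun v => ((∃ F, CanF c (v j).rank (v i).rank F) ∧
    ∀ d : Ordinal.{0}, (∃ F, CanF c d (v i).rank F) → (v j).rank ≤ d) ∨
    ((∀ d : Ordinal.{0}, ¬ ∃ F, CanF c d (v i).rank F) ∧ (v j).rank = 0)) ?_
    fun v => (sInf_eq_iff {ρ | ∃ F, CanF c ρ (v i).rank F} (v j).rank).symm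
  refine Dfn.or ((dfn_exCanF c j i).and ?_) (Dfn.and ?_ (dfn_rank_zero j))
  · refine Dfn.allO (Q := fun d v => (∃ F, CanF c d (v i).rank F) → (v j).rank ≤ d) ?_
    exact (dfn_exCanF c 0 (i + 1)).imp (dfn_rank_le (j + 1) 0)
  · refine Dfn.allO (Q := fun d v => ¬ ∃ F, CanF c d (v i).rank F) ?_
    exact (dfn_exCanF c 0 (i + 1)).not

/-- the colour of the sequence `x 1, ..., x n` for the canonical bad colouring of the least order
type of sequences of ordinals below the successor of the cardinal of `x 0` (made regressive) -/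
noncomputable def val2 (c : Fm × ℕ) (n : ℕ) (x : ℕ → Ordinal.{0}) : Ordinal.{0} :=
  val c (rmin c (succ (x 0).card).ord) n x

theorem val2_lt (c : Fm × ℕ) (n : ℕ) (x : ℕ → Ordinal.{0}) : val2 c n x < max (x 1) 1 :=
  val_lt c _ n x

theorem val2_dep {c : Fm × ℕ} {n : ℕ} (hn : 1 ≤ n) {x y : ℕ → Ordinal.{0}}
    (h : ∀ k ≤ n, x k = y k) : val2 c n x = val2 c n y := by
  unfold val2
  rw [h 0 (Nat.zero_le n)]
  exact val_dep hn h

theorem val_eval {c : Fm × ℕ} {ρ : Ordinal.{0}} {n : ℕ} {x : ℕ → Ordinal.{0}} {F : ZFSet.{0}}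
    (hF : CanF c ρ (succ (x 0).card).ord F)
    (hlt : col F n (seqO (fun k => x (k + 1))) < x 1) :
    val c ρ n x = col F n (seqO (fun k => x (k + 1))) := by
  have h : ∃ F, CanF c ρ (succ (x 0).card).ord F := ⟨F, hF⟩
  have h1 : h.choose = F := canF_unique h.choose_spec hF
  unfold val
  rw [dif_pos h, h1, if_pos hlt]

theorem val2_eval {c : Fm × ℕ} {n : ℕ} {x : ℕ → Ordinal.{0}} {F : ZFSet.{0}}
    (hF : CanF c (rmin c (succ (x 0).card).ord) (succ (x 0).card).ord F)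
    (hlt : col F n (seqO (fun k => x (k + 1))) < x 1) :
    val2 c n x = col F n (seqO (fun k => x (k + 1))) := val_eval hF hlt

theorem val2_iff (c : Fm × ℕ) (n : ℕ) (x : ℕ → Ordinal.{0}) (y : Ordinal.{0}) :
    y = val2 c n x ↔ ∃ κ, (succ (x 0).card).ord = κ ∧ ∃ ρ, rmin c κ = ρ ∧
      ((∃ F, CanF c ρ κ F ∧ ∃ z, (∀ k < n, fn z (k : Ordinal.{0}) = x (k + 1)) ∧
        ∃ e, col F n (fn z) = e ∧ ((e < x 1 ∧ y = e) ∨ (¬ e < x 1 ∧ y = 0))) ∨
      ((¬ ∃ F, CanF c ρ κ F) ∧ y = 0)) := by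
  unfold val2
  rw [val_iff]
  constructor
  · rintro ⟨κ, rfl, h⟩
    exact ⟨_, rfl, _, rfl, h⟩
  · rintro ⟨κ, rfl, ρ, rfl, h⟩
    exact ⟨_, rfl, h⟩

theorem dpo_val2 (c : Fm × ℕ) (n : ℕ) :
    DPo (fun q => q 0 = val2 c n (fun k => q (k + 1))) := by
  refine DP.congr ?_ (fun v => val2_iff c n (fun k => (v (k + 1)).rank) (v 0).rank)
  refine DP.exO (Q := fun κ v => (succ (v 1).rank.card).ord = κ ∧ ∃ ρ, rmin c κ = ρ ∧
        ((∃ F, CanF c ρ κ F ∧ ∃ z, (∀ k < n, fn z (k : Ordinal.{0}) = (v (k + 1 + 1)).rank) ∧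
          ∃ e, col F n (fn z) = e ∧ ((e < (v 2).rank ∧ (v 0).rank = e) ∨
            (¬ e < (v 2).rank ∧ (v 0).rank = 0))) ∨
        ((¬ ∃ F, CanF c ρ κ F) ∧ (v 0).rank = 0))) ?_
  refine (DP.of (dfn_succCard 2 0)).and ?_
  refine DP.exO (Q := fun ρ v => rmin c (v 0).rank = ρ ∧
        ((∃ F, CanF c ρ (v 0).rank F ∧
          ∃ z, (∀ k < n, fn z (k : Ordinal.{0}) = (v (k + 1 + 1 + 1)).rank) ∧
          ∃ e, col F n (fn z) = e ∧ ((e < (v 3).rank ∧ (v 1).rank = e) ∨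
            (¬ e < (v 3).rank ∧ (v 1).rank = 0))) ∨
        ((¬ ∃ F, CanF c ρ (v 0).rank F) ∧ (v 1).rank = 0))) ?_
  refine (DP.of (dfn_rmin c 1 0)).and (DP.or ?_ (DP.and (DP.of (dfn_exCanF c 0 1)).not
    (DP.rank_eq_ord 2 0)))
  refine DP.ex (Q := fun F v => CanF c (v 0).rank (v 1).rank F ∧
      ∃ z, (∀ k < n, fn z (k : Ordinal.{0}) = (v (k + 1 + 1 + 1 + 1)).rank) ∧
          ∃ e, col F n (fn z) = e ∧ ((e < (v 4).rank ∧ (v 2).rank = e) ∨
            (¬ e < (v 4).rank ∧ (v 2).rank = 0))) ?_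
  refine (DP.of (dfn_canF c 1 2 0)).and ?_
  refine DP.ex (Q := fun z v =>
      (∀ k < n, fn z (k : Ordinal.{0}) = (v (k + 1 + 1 + 1 + 1 + 1)).rank) ∧
          ∃ e, col (v 0) n (fn z) = e ∧ ((e < (v 5).rank ∧ (v 3).rank = e) ∨
            (¬ e < (v 5).rank ∧ (v 3).rank = 0))) ?_
  refine (dp_ball n (P := fun k v =>
      fn (v 0) (k : Ordinal.{0}) = (v (k + 1 + 1 + 1 + 1 + 1 + 1)).rank)
        fun k _ => dp_fn _ _ _).and ?_
  refine DP.exO (Q := fun e v => col (v 1) n (fn (v 0)) = e ∧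
      ((e < (v 6).rank ∧ (v 4).rank = e) ∨ (¬ e < (v 6).rank ∧ (v 4).rank = 0))) ?_
  exact (dp_col n 2 1 0).and (((DP.rank_lt 0 7).and (DP.rank_eq 5 0)).or
      ((DP.rank_lt 0 7).not.and (DP.rank_eq_ord 5 0)))

end Pool.Agent.Helper73.HE
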