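import Pool.Agent.Helper73.HE.Tree
import Pool.Agent.Helper73.HE.Many
import Pool.Agent.Helper73.HE.Diag
import Pool.Agent.Helper73.HE.Val2
import Pool.Agent.Helper73.HE.Base
import Pool.Agent.Helper73.HE.Exact
import Pool.Agent.Helper73.HE.FinA

/-! # HE module FinB: the values on a homogeneous set -/

namespace Pool.Agent.Helper73.HE

open Ordinal Cardinal ZFSet Order Pool.Agent.Helper73.HODC

/-- the value of the canonical colouring of index `i` at the sequence of the `i`-th values of the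
canonical functions -/
noncomputable def UU (c : Fm × ℕ) (μ κ s : Ordinal.{0}) (n : ℕ) (a : ℕ → Ordinal.{0})
    (i : Ordinal.{0}) : Ordinal.{0} :=
  val2 c n (ocons (ff μ κ s i) (fun k => ff μ κ (a k) i))

theorem UU_congr (c : Fm × ℕ) (μ κ s : Ordinal.{0}) {n : ℕ} (hn : 1 ≤ n)
    {a b : ℕ → Ordinal.{0}} (h : ∀ k < n, a k = b k) :
    UU c μ κ s n a = UU c μ κ s n b := by
  funext i
  apply val2_dep hn
  intro k hk
  rcases k with _ | k
  · rfl
  · show ff μ κ (a k) i = ff μ κ (b k) i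
    rw [h k (by omega)]

theorem UU_const {lam m : Cardinal.{0}} {δ : Ordinal.{0} → Cardinal.{0}} (hs : Setting lam m δ)
    {T : Set Ordinal.{0}} (hT : Ult (succ lam).ord T) (c : Fm × ℕ) (s : Ordinal.{0}) {n : ℕ}
    (hn : 1 ≤ n) : ∃ g, AEn (succ lam).ord T
      (fun a => EqC m.ord (UU c m.ord (succ lam).ord s n a) g) n 0 (fun _ => 0) := by
  obtain ⟨n, rfl⟩ : ∃ n', n = n' + 1 := ⟨n - 1, by omega⟩
  have hm : ℵ₀ < m.ord.cof := reg_cof hs.reg hs.unc
  obtain ⟨F, hF, D, hD, hreg⟩ := ff_reg hs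
  refine const_n hs hT n (UU c m.ord (succ lam).ord s (n + 1))
    (fun x i => max (ff m.ord (succ lam).ord x i) 1) F ?_ ?_ (ff_lt hs) ?_ hF ?_
  · intro a b h
    rw [UU_congr c m.ord (succ lam).ord s hn h]
    exact EqC.refl hm _
  · exact ok4_base (val2 c (n + 1)) (n + 2) (fun x y h => val2_dep hn fun k hk => h k (by omega))
      (dpo_val2 c (n + 1)) hs.reg hs.unc (succ lam).ord s
  · intro a
    refine ⟨Set.univ, club_univ hs.limit, fun i _ _ _ => ?_⟩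
    exact val2_lt c (n + 1) (ocons (ff m.ord (succ lam).ord s i)
      (fun k => ff m.ord (succ lam).ord (a k) i))
  · exact ⟨D, hD, fun x hx hxκ hxT => hreg x hx hxκ (hT.sub x hxT).2⟩

/-- intersection of fewer than `m` clubs -/
theorem club_forall {m : Cardinal.{0}} (hm : m.IsRegular) (hm' : ℵ₀ < m) {ρ : Ordinal.{0}}
    (hρ : ρ < m.ord) {P : Ordinal.{0} → Ordinal.{0} → Prop}
    (h : ∀ ξ < ρ, ∃ C, Club C m.ord ∧ ∀ i ∈ C, i < m.ord → P ξ i) :
    ∃ C, Club C m.ord ∧ ∀ i ∈ C, i < m.ord → ∀ ξ < ρ, P ξ i := by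
  have h1 : ∀ ξ, ∃ C, ξ < ρ → Club C m.ord ∧ ∀ i ∈ C, i < m.ord → P ξ i := by
    intro ξ
    by_cases hξ : ξ < ρ
    · obtain ⟨C, hC⟩ := h ξ hξ
      exact ⟨C, fun _ => hC⟩
    · exact ⟨Set.univ, fun h => absurd h hξ⟩
  choose C hC using h1
  exact ⟨{a | ∀ ξ < ρ, a ∈ C ξ}, Club.biInter hm hm' hρ fun ξ hξ => (hC ξ hξ).1,
    fun i hi him ξ hξ => (hC ξ hξ).2 i (hi ξ hξ) him⟩

/-- the sequence of ordinals given by a list -/
noncomputable def lseq {ρ : Ordinal.{0}} (l : List ρ.ToType) (k : ℕ) : Ordinal.{0} :=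
  if h : k < l.length then (Ordinal.ToType.mk.symm l[k]).1 else 0

theorem lseq_lt {ρ : Ordinal.{0}} (l : List ρ.ToType) {k : ℕ} (h : k < l.length) :
    lseq l k < ρ := by
  unfold lseq
  rw [dif_pos h]
  exact (Ordinal.ToType.mk.symm l[k]).2

theorem exists_lseq {ρ : Ordinal.{0}} (N : ℕ) (b : ℕ → Ordinal.{0}) (h : ∀ k < N, b k < ρ) :
    ∃ l : List ρ.ToType, l.length = N ∧ ∀ k < N, lseq l k = b k := by
  refine ⟨List.ofFn (fun k : Fin N => Ordinal.ToType.mk ⟨b k.1, h k.1 k.2⟩),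
    List.length_ofFn, fun k hk => ?_⟩
  have hk' : k < (List.ofFn (fun k : Fin N =>
      (Ordinal.ToType.mk ⟨b k.1, h k.1 k.2⟩ : ρ.ToType))).length := by
    rw [List.length_ofFn]
    exact hk
  unfold lseq
  rw [dif_pos hk', List.getElem_ofFn, OrderIso.symm_apply_apply]

theorem mk_list_lt {m : Cardinal.{0}} (hm' : ℵ₀ < m) {ρ : Ordinal.{0}}
    (hρ : ρ < m.ord) : Cardinal.mk (List ρ.ToType) < m := by
  refine (Cardinal.mk_list_le_max _).trans_lt ?_
  rw [Cardinal.mk_toType]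
  exact max_lt hm' (Cardinal.lt_ord.1 hρ)

/-- intersection of clubs indexed by the finite sequences of ordinals below `ρ` -/
theorem club_forall_seq {m : Cardinal.{0}} (hm : m.IsRegular) (hm' : ℵ₀ < m) {ρ : Ordinal.{0}}
    (hρ : ρ < m.ord) {P : ℕ → (ℕ → Ordinal.{0}) → Ordinal.{0} → Prop}
    (hP : ∀ N b b' i, (∀ k < N, b k = b' k) → P N b i → P N b' i)
    (h : ∀ N (b : ℕ → Ordinal.{0}), (∀ k < N, b k < ρ) →
      ∃ C, Club C m.ord ∧ ∀ i ∈ C, i < m.ord → P N b i) :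
    ∃ C, Club C m.ord ∧ ∀ i ∈ C, i < m.ord → ∀ N (b : ℕ → Ordinal.{0}), (∀ k < N, b k < ρ) →
      P N b i := by
  have h1 : ∀ l : List ρ.ToType, ∃ C, Club C m.ord ∧
      ∀ i ∈ C, i < m.ord → P l.length (lseq l) i :=
    fun l => h l.length (lseq l) fun k hk => lseq_lt l hk
  choose C hC using h1
  refine ⟨⋂ l, C l, Club.iInter' (reg_cof hm hm')
    (by rw [hm.cof_ord]; exact mk_list_lt hm' hρ) fun l => (hC l).1, ?_⟩
  intro i hi him N b hb
  obtain ⟨l, hl, hlb⟩ := exists_lseq N b hb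
  have h2 := (hC l).2 i (Set.mem_iInter.1 hi l) him
  rw [hl] at h2
  exact hP N _ _ i hlb h2

/-- diagonal intersection of clubs -/
theorem club_diag {m : Cardinal.{0}} (hm : m.IsRegular) (hm' : ℵ₀ < m)
    {P : Ordinal.{0} → Ordinal.{0} → Prop}
    (h : ∀ ξ < m.ord, ∃ C, Club C m.ord ∧ ∀ i ∈ C, i < m.ord → P ξ i) :
    ∃ C, Club C m.ord ∧ ∀ i ∈ C, i < m.ord → ∀ ξ < i, P ξ i := by
  have h1 : ∀ ξ, ∃ C, ξ < m.ord → Club C m.ord ∧ ∀ i ∈ C, i < m.ord → P ξ i := by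
    intro ξ
    by_cases hξ : ξ < m.ord
    · obtain ⟨C, hC⟩ := h ξ hξ
      exact ⟨C, fun _ => hC⟩
    · exact ⟨Set.univ, fun h => absurd h hξ⟩
  choose C hC using h1
  exact ⟨{a | ∀ ξ < a, a ∈ C ξ}, Club.diag hm hm' fun ξ hξ => (hC ξ hξ).1,
    fun i hi him ξ hξ => (hC ξ (hξ.trans him)).2 i (hi ξ hξ) him⟩

theorem exists_bound {i : Ordinal.{0}} (hi : IsSuccLimit i) (N : ℕ) (b : ℕ → Ordinal.{0})
    (h : ∀ k < N, b k < i) : ∃ ρ < i, ∀ k < N, b k < ρ := by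
  induction N with
  | zero => exact ⟨0, hi.bot_lt, fun k hk => absurd hk (Nat.not_lt_zero k)⟩
  | succ N ih =>
    obtain ⟨ρ, hρ, h1⟩ := ih fun k hk => h k (by omega)
    refine ⟨max ρ (Order.succ (b N)), max_lt hρ (hi.succ_lt (h N (Nat.lt_succ_self N))), ?_⟩
    intro k hk
    by_cases hkN : k = N
    · rw [hkN]
      exact lt_of_lt_of_le (Order.lt_succ _) (le_max_right _ _)
    · exact lt_of_lt_of_le (h1 k (by omega)) (le_max_left _ _)

/-- diagonal intersection of clubs indexed by the finite sequences of ordinals -/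
theorem club_diag_seq {m : Cardinal.{0}} (hm : m.IsRegular) (hm' : ℵ₀ < m)
    {P : ℕ → (ℕ → Ordinal.{0}) → Ordinal.{0} → Prop}
    (hP : ∀ N b b' i, (∀ k < N, b k = b' k) → P N b i → P N b' i)
    (h : ∀ N (b : ℕ → Ordinal.{0}), (∀ k < N, b k < m.ord) →
      ∃ C, Club C m.ord ∧ ∀ i ∈ C, i < m.ord → P N b i) :
    ∃ C, Club C m.ord ∧ ∀ i ∈ C, i < m.ord → ∀ N (b : ℕ → Ordinal.{0}), (∀ k < N, b k < i) →
      P N b i := by
  obtain ⟨C, hC, h1⟩ := club_diag hm hm' (P := fun ρ i => ∀ N (b : ℕ → Ordinal.{0}),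
    (∀ k < N, b k < ρ) → P N b i) (fun ρ hρ => club_forall_seq hm hm' hρ hP
      fun N b hb => h N b fun k hk => (hb k hk).trans hρ)
  refine ⟨C ∩ {a | IsSuccLimit a}, hC.inter (reg_cof hm hm') (club_limit (reg_cof hm hm')), ?_⟩
  intro i hi him N b hb
  obtain ⟨ρ, hρ, h2⟩ := exists_bound hi.2 N b hb
  exact h1 i hi.1 him ρ hρ N b h2

end Pool.Agent.Helper73.HE
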