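import Pool.Agent.Helper73.HE.Pig

/-! # HE module Node: the splitting tree -/

namespace Pool.Agent.Helper73.HE

open Ordinal Cardinal ZFSet Order Pool.Agent.Helper73.HODC

/-- `{a : Rl a q}` splits `A` into two stationary sets -/
def Spl (κ : Ordinal.{0}) (Rl : Ordinal.{0} → (ℕ → Ordinal.{0}) → Prop) (A : Set Ordinal.{0})
    (q : ℕ → Ordinal.{0}) : Prop :=
  Stat {a | a ∈ A ∧ Rl a q} κ ∧ Stat {a | a ∈ A ∧ ¬ Rl a q} κ

/-- `q` is the lexicographically least sequence which splits `A` -/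
def Lst (κ : Ordinal.{0}) (m : ℕ) (Rl : Ordinal.{0} → (ℕ → Ordinal.{0}) → Prop)
    (A : Set Ordinal.{0}) (q : ℕ → Ordinal.{0}) : Prop :=
  Spl κ Rl A q ∧ ∀ q', Spl κ Rl A q' → LexLe m q q'

/-- the node of level `ζ` of the splitting tree containing `α` -/
def Nd (κ : Ordinal.{0}) (m : ℕ) (Rl : Ordinal.{0} → (ℕ → Ordinal.{0}) → Prop)
    (α ζ : Ordinal.{0}) : Set Ordinal.{0} :=
  {a | a < κ ∧ a.cof = ℵ₀ ∧
    ∀ η : Set.Iio ζ, ∃ q, Lst κ m Rl (Nd κ m Rl α η.1) q ∧ (Rl α q ↔ Rl a q)}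
termination_by ζ
decreasing_by exact η.2

/-- the branch of `α` -/
def br (κ : Ordinal.{0}) (m : ℕ) (Rl : Ordinal.{0} → (ℕ → Ordinal.{0}) → Prop)
    (α : Ordinal.{0}) : Set Ordinal.{0} :=
  {η | ∃ q, Lst κ m Rl (Nd κ m Rl α η) q ∧ Rl α q}

variable {κ : Ordinal.{0}} {m : ℕ} {Rl : Ordinal.{0} → (ℕ → Ordinal.{0}) → Prop}

theorem mem_Nd {α ζ a : Ordinal.{0}} : a ∈ Nd κ m Rl α ζ ↔ a < κ ∧ a.cof = ℵ₀ ∧
    ∀ η < ζ, ∃ q, Lst κ m Rl (Nd κ m Rl α η) q ∧ (Rl α q ↔ Rl a q) := by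
  rw [Nd]
  constructor
  · rintro ⟨h1, h2, h3⟩
    exact ⟨h1, h2, fun η hη => h3 ⟨η, hη⟩⟩
  · rintro ⟨h1, h2, h3⟩
    exact ⟨h1, h2, fun η => h3 η.1 η.2⟩

theorem Nd_anti {α ζ ζ' : Ordinal.{0}} (h : ζ ≤ ζ') : Nd κ m Rl α ζ' ⊆ Nd κ m Rl α ζ := by
  intro a ha
  rw [mem_Nd] at ha ⊢
  exact ⟨ha.1, ha.2.1, fun η hη => ha.2.2 η (hη.trans_le h)⟩

/-- `Rl a q` depends only on the first `m` terms of `q` -/
def Bd (m : ℕ) (Rl : Ordinal.{0} → (ℕ → Ordinal.{0}) → Prop) : Prop :=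
  ∀ a q q', (∀ k < m, q k = q' k) → (Rl a q ↔ Rl a q')

theorem Lst_unique (hB : Bd m Rl) {A : Set Ordinal.{0}} {q q' : ℕ → Ordinal.{0}}
    (h : Lst κ m Rl A q) (h' : Lst κ m Rl A q') (a : Ordinal.{0}) : Rl a q ↔ Rl a q' :=
  hB a q q' (bf_lexLe_antisymm (h.2 q' h'.1) (h'.2 q h.1))

theorem exists_Lst {A : Set Ordinal.{0}} (h : ∃ q, Spl κ Rl A q) : ∃ q, Lst κ m Rl A q := by
  obtain ⟨q, hq, h1⟩ := bf_exists_lexLe m {q | Spl κ Rl A q} h
  exact ⟨q, hq, h1⟩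

theorem Nd_eq_of_mem (hB : Bd m Rl) {α ζ a : Ordinal.{0}} (h : a ∈ Nd κ m Rl α ζ) :
    ∀ η ≤ ζ, Nd κ m Rl a η = Nd κ m Rl α η := by
  intro η
  induction η using WellFoundedLT.induction with
  | ind η ih =>
    intro hη
    ext b
    rw [mem_Nd, mem_Nd]
    refine and_congr_right fun _ => and_congr_right fun _ => forall_congr' fun η' =>
      forall_congr' fun hη' => ?_
    rw [ih η' hη' (hη'.le.trans hη)]
    obtain ⟨q0, hq0, h0⟩ := (mem_Nd.1 h).2.2 η' (hη'.trans_le hη)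
    constructor
    · rintro ⟨q, hq, h1⟩
      refine ⟨q, hq, ?_⟩
      rw [Lst_unique hB hq hq0 α, h0, ← Lst_unique hB hq hq0 a]
      exact h1
    · rintro ⟨q, hq, h1⟩
      refine ⟨q, hq, ?_⟩
      rw [Lst_unique hB hq hq0 a, ← h0, ← Lst_unique hB hq hq0 α]
      exact h1

theorem mem_br_iff (hB : Bd m Rl) {α η : Ordinal.{0}} {q : ℕ → Ordinal.{0}}
    (hq : Lst κ m Rl (Nd κ m Rl α η) q) : η ∈ br κ m Rl α ↔ Rl α q := by
  constructor
  · rintro ⟨q', hq', h⟩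
    exact (Lst_unique hB hq' hq α).1 h
  · intro h
    exact ⟨q, hq, h⟩

theorem Nd_eq_of_br (hB : Bd m Rl) {α β ζ : Ordinal.{0}} (hα : α ∈ Nd κ m Rl α ζ)
    (h : ∀ η < ζ, η ∈ br κ m Rl α ↔ η ∈ br κ m Rl β) :
    ∀ η ≤ ζ, Nd κ m Rl α η = Nd κ m Rl β η := by
  intro η
  induction η using WellFoundedLT.induction with
  | ind η ih =>
    intro hη
    ext b
    rw [mem_Nd, mem_Nd]
    refine and_congr_right fun _ => and_congr_right fun _ => forall_congr' fun η' =>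
      forall_congr' fun hη' => ?_
    have h1 : Nd κ m Rl α η' = Nd κ m Rl β η' := ih η' hη' (hη'.le.trans hη)
    obtain ⟨q0, hq0, -⟩ := (mem_Nd.1 hα).2.2 η' (hη'.trans_le hη)
    have hq0' : Lst κ m Rl (Nd κ m Rl β η') q0 := by rw [← h1]; exact hq0
    have h2 : Rl α q0 ↔ Rl β q0 := by
      rw [← mem_br_iff hB hq0, ← mem_br_iff hB hq0']
      exact h η' (hη'.trans_le hη)
    rw [← h1]
    constructor
    · rintro ⟨q, hq, h3⟩
      refine ⟨q, hq, ?_⟩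
      rw [Lst_unique hB hq hq0 β, ← h2, ← Lst_unique hB hq hq0 α]
      exact h3
    · rintro ⟨q, hq, h3⟩
      refine ⟨q, hq, ?_⟩
      rw [Lst_unique hB hq hq0 α, h2, ← Lst_unique hB hq hq0 β]
      exact h3

theorem mem_Nd_succ {α ζ a : Ordinal.{0}} : a ∈ Nd κ m Rl α (ζ + 1) ↔
    a ∈ Nd κ m Rl α ζ ∧ ∃ q, Lst κ m Rl (Nd κ m Rl α ζ) q ∧ (Rl α q ↔ Rl a q) := by
  constructor
  · intro h
    exact ⟨Nd_anti (lt_add_one ζ).le h, (mem_Nd.1 h).2.2 ζ (lt_add_one ζ)⟩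
  · rintro ⟨h1, h2⟩
    rw [mem_Nd] at h1 ⊢
    refine ⟨h1.1, h1.2.1, fun η hη => ?_⟩
    rcases (lt_add_one_iff.1 hη).lt_or_eq with h | h
    · exact h1.2.2 η h
    · rw [h]; exact h2

theorem self_mem_Nd {α ζ : Ordinal.{0}} (h1 : α < κ) (h2 : α.cof = ℵ₀)
    (h : ∀ η < ζ, ∃ q, Lst κ m Rl (Nd κ m Rl α η) q) : α ∈ Nd κ m Rl α ζ := by
  rw [mem_Nd]
  refine ⟨h1, h2, fun η hη => ?_⟩
  obtain ⟨q, hq⟩ := h η hη
  exact ⟨q, hq, Iff.rfl⟩

/-! ### Definability -/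

theorem DP.exB (m : ℕ) : ∀ {Q : (ℕ → ZFSet.{0}) → Prop}, DP Q →
    DP (fun v => ∃ w : ℕ → ZFSet.{0}, Q (bfApp m w v)) := by
  induction m with
  | zero =>
    intro Q h
    refine h.congr fun v => ?_
    have : ∀ w, bfApp 0 w v = v := fun w => by funext n; simp [bfApp]
    simp only [this]
    exact ⟨fun ⟨_, h⟩ => h, fun h => ⟨v, h⟩⟩
  | succ m ih =>
    intro Q h
    have h1 := ih h
    refine (DP.ex (Q := fun x v => ∃ w : ℕ → ZFSet.{0}, Q (bfApp m w (cons x v))) ?_).congr ?_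
    · simp only [cons_eta]
      exact h1
    · intro v
      constructor
      · rintro ⟨w, hw⟩
        refine ⟨w m, w, ?_⟩
        convert hw using 1
        funext n
        unfold bfApp
        rcases lt_trichotomy n m with h2 | h2 | h2
        · rw [if_pos h2, if_pos (h2.trans (Nat.lt_succ_self m))]
        · subst h2
          rw [if_neg (lt_irrefl _), if_pos (Nat.lt_succ_self _)]
          simp [cons]
        · rw [if_neg (by omega), if_neg (by omega)]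
          have : n - m = (n - (m + 1)) + 1 := by omega
          rw [this]
          rfl
      · rintro ⟨x, w, hw⟩
        refine ⟨fun n => if n = m then x else w n, ?_⟩
        convert hw using 1
        funext n
        unfold bfApp
        rcases lt_trichotomy n m with h2 | h2 | h2
        · rw [if_pos h2, if_pos (h2.trans (Nat.lt_succ_self m))]
          exact if_neg h2.ne
        · subst h2
          rw [if_neg (lt_irrefl _), if_pos (Nat.lt_succ_self _)]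
          simp [cons]
        · rw [if_neg (by omega), if_neg (by omega)]
          have : n - m = (n - (m + 1)) + 1 := by omega
          rw [this]
          rfl

theorem DP.statC {Q : Ordinal.{0} → (ℕ → ZFSet.{0}) → Prop}
    (h : DP (fun v => Q (v 0).rank (fun n => v (n + 1)))) (κ : Ordinal.{0}) :
    DP (fun v => Stat {a | Q a v} κ) := by
  have h1 : DP (fun v => ∀ z : ZFSet.{0}, (∃ x : ZFSet.{0}, x = κ.toZFSet ∧ Club (st z) x.rank) →
      ∃ a, Q a v ∧ a ∈ st z ∧ a < κ) := by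
    refine DP.all (Q := fun z v => (∃ x : ZFSet.{0}, x = κ.toZFSet ∧ Club (st z) x.rank) →
      ∃ a, Q a v ∧ a ∈ st z ∧ a < κ) ?_
    refine DP.imp ?_ ?_
    · refine DP.ex (Q := fun x v => x = κ.toZFSet ∧ Club (st (v 0)) x.rank) ?_
      exact (DP.eq_ord 0 κ).and (DP.of (dfn_club 1 0))
    · refine DP.exO (Q := fun a v => Q a (fun n => v (n + 1)) ∧ a ∈ st (v 0) ∧ a < κ) ?_
      exact (h.rename (fun n => if n = 0 then 0 else n + 1)).and
        ((DP.st 0 1).and (DP.rank_lt_ord 0 κ))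
  refine h1.congr fun v => ?_
  rw [dn_stat_iff_code]
  refine forall_congr' fun z => ?_
  have : (∃ x : ZFSet.{0}, x = κ.toZFSet ∧ Club (st z) x.rank) ↔ Club (st z) κ := by
    constructor
    · rintro ⟨x, rfl, h⟩; rwa [rank_toZFSet] at h
    · intro h; exact ⟨_, rfl, by rwa [rank_toZFSet]⟩
  rw [this]
  rfl

/-- the section of a set of pairs -/
def sec (W : ZFSet.{0}) (ξ : Ordinal.{0}) : Set Ordinal.{0} :=
  {a | ∃ u w : ZFSet.{0}, ZFSet.pair u w ∈ W ∧ u.rank = ξ ∧ w.rank = a}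

theorem DP.sec (i j k : ℕ) : DP (fun v => (v i).rank ∈ HE.sec (v j) (v k).rank) := by
  refine DP.ex (Q := fun u v => ∃ w : ZFSet.{0}, ZFSet.pair u w ∈ v j ∧ u.rank = (v k).rank ∧
    w.rank = (v i).rank) ?_
  refine DP.ex (Q := fun w v => ZFSet.pair (v 0) w ∈ v (j + 1) ∧ (v 0).rank = (v (k + 1)).rank ∧
    w.rank = (v (i + 1)).rank) ?_
  exact (DP.of (dfn_pair_mem 1 0 (j + 2))).and ((DP.rank_eq 1 (k + 2)).and (DP.rank_eq 0 (i + 2)))

/-- `W` codes the nodes of level at most `ζ` -/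
def Cert (κ : Ordinal.{0}) (m : ℕ) (Rl : Ordinal.{0} → (ℕ → Ordinal.{0}) → Prop)
    (W : ZFSet.{0}) (α ζ : Ordinal.{0}) : Prop :=
  ∀ ξ, ξ ≤ ζ → ∀ a, a ∈ sec W ξ ↔ (a < κ ∧ a.cof = ℵ₀ ∧
    ∀ η, η < ξ → ∃ q, Lst κ m Rl (sec W η) q ∧ (Rl α q ↔ Rl a q))

theorem Cert.sec_eq {W : ZFSet.{0}} {α ζ : Ordinal.{0}} (h : Cert κ m Rl W α ζ) :
    ∀ ξ ≤ ζ, sec W ξ = Nd κ m Rl α ξ := by
  intro ξ
  induction ξ using WellFoundedLT.induction with
  | ind ξ ih =>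
    intro hξ
    ext a
    rw [h ξ hξ a, mem_Nd]
    refine and_congr_right fun _ => and_congr_right fun _ => forall_congr' fun η =>
      forall_congr' fun hη => ?_
    rw [ih η hη (hη.le.trans hξ)]

theorem exists_cert (α ζ : Ordinal.{0}) : ∃ W, Cert κ m Rl W α ζ := by
  let W : ZFSet.{0} := ZFSet.sep (fun z => ∃ ξ a : Ordinal.{0},
    z = ZFSet.pair ξ.toZFSet a.toZFSet ∧ a ∈ Nd κ m Rl α ξ)
    (ZFSet.prod (ζ + 1).toZFSet κ.toZFSet)
  have hW : ∀ ξ ≤ ζ, sec W ξ = Nd κ m Rl α ξ := by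
    intro ξ hξ
    ext a
    constructor
    · rintro ⟨u, w, h1, rfl, rfl⟩
      obtain ⟨-, ξ', a', h2, h3⟩ := ZFSet.mem_sep.1 h1
      obtain ⟨rfl, rfl⟩ := ZFSet.pair_injective h2
      rw [rank_toZFSet, rank_toZFSet]
      exact h3
    · intro ha
      have h1 := (mem_Nd.1 ha).1
      refine ⟨ξ.toZFSet, a.toZFSet, ?_, rank_toZFSet ξ, rank_toZFSet a⟩
      refine ZFSet.mem_sep.2 ⟨?_, ξ, a, rfl, ha⟩
      rw [ZFSet.pair_mem_prod]
      exact ⟨mem_toZFSet_iff.2 ⟨ξ, lt_add_one_iff.2 hξ, rfl⟩, mem_toZFSet_iff.2 ⟨a, h1, rfl⟩⟩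
  refine ⟨W, fun ξ hξ a => ?_⟩
  rw [hW ξ hξ, mem_Nd]
  refine and_congr_right fun _ => and_congr_right fun _ => forall_congr' fun η =>
    forall_congr' fun hη => ?_
  rw [hW η (hη.le.trans hξ)]

theorem mem_Nd_iff_cert {α ζ a : Ordinal.{0}} :
    a ∈ Nd κ m Rl α ζ ↔ ∃ W, Cert κ m Rl W α ζ ∧ a ∈ sec W ζ := by
  constructor
  · intro h
    obtain ⟨W, hW⟩ := exists_cert (κ := κ) (m := m) (Rl := Rl) α ζ
    exact ⟨W, hW, by rw [hW.sec_eq ζ le_rfl]; exact h⟩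
  · rintro ⟨W, hW, h⟩
    rwa [hW.sec_eq ζ le_rfl] at h

/-- `Rl` is definable -/
def DR (Rl : Ordinal.{0} → (ℕ → Ordinal.{0}) → Prop) : Prop :=
  DPo (fun q => Rl (q 0) (fun k => q (k + 1)))

theorem DR.at (h : DR Rl) (i : ℕ) (s : ℕ → ℕ) :
    DP (fun v => Rl (v i).rank (fun k => (v (s k)).rank)) := by
  have h1 : DP (fun v => Rl (v 0).rank (fun k => (v (k + 1)).rank)) := h
  exact h1.rename (fun n => Nat.casesOn n i s)

theorem dp_spl (hR : DR Rl) (κ : Ordinal.{0}) (j k : ℕ) (s : ℕ → ℕ) :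
    DP (fun v => Spl κ Rl (sec (v j) (v k).rank) (fun n => (v (s n)).rank)) := by
  refine DP.and ?_ ?_
  · refine DP.statC (Q := fun a v => a ∈ sec (v j) (v k).rank ∧
      Rl a (fun n => (v (s n)).rank)) ?_ κ
    exact (DP.sec 0 (j + 1) (k + 1)).and (hR.at 0 (fun n => s n + 1))
  · refine DP.statC (Q := fun a v => a ∈ sec (v j) (v k).rank ∧
      ¬ Rl a (fun n => (v (s n)).rank)) ?_ κ
    exact (DP.sec 0 (j + 1) (k + 1)).and (hR.at 0 (fun n => s n + 1)).not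

theorem Spl.congr (hB : Bd m Rl) {A : Set Ordinal.{0}} {q q' : ℕ → Ordinal.{0}}
    (h : ∀ k < m, q k = q' k) (h' : Spl κ Rl A q) : Spl κ Rl A q' := by
  refine ⟨h'.1.mono fun a ha _ => ⟨ha.1, (hB a q q' h).1 ha.2⟩,
    h'.2.mono fun a ha _ => ⟨ha.1, fun h1 => ha.2 ((hB a q q' h).2 h1)⟩⟩

theorem dp_lst (hB : Bd m Rl) (hR : DR Rl) (κ : Ordinal.{0}) (j k : ℕ) (s : ℕ → ℕ) :
    DP (fun v => Lst κ m Rl (sec (v j) (v k).rank) (fun n => (v (s n)).rank)) := by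
  refine (dp_spl hR κ j k s).and ?_
  have h1 : DP (fun v => ∃ w : ℕ → ZFSet.{0},
      Spl κ Rl (sec (bfApp m w v (j + m)) (bfApp m w v (k + m)).rank)
        (fun n => (bfApp m w v n).rank) ∧
      ¬ LexLe m (fun n => (bfApp m w v (s n + m)).rank) (fun n => (bfApp m w v n).rank)) :=
    DP.exB m (Q := fun u => Spl κ Rl (sec (u (j + m)) (u (k + m)).rank) (fun n => (u n).rank) ∧
      ¬ LexLe m (fun n => (u (s n + m)).rank) (fun n => (u n).rank))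
      ((dp_spl hR κ (j + m) (k + m) (fun n => n)).and
        (DP.of (bf_dfn_lexLe m (fun n => s n + m) (fun n => n))).not)
  refine h1.not.congr fun v => ?_
  constructor
  · rintro h ⟨w, h2, h3⟩
    simp only [bf_app_ge] at h2 h3
    exact h3 (h _ h2)
  · intro h q' h2
    by_contra h3
    refine h ⟨fun n => (q' n).toZFSet, ?_⟩
    simp only [bf_app_ge]
    have h4 : ∀ n < m, q' n = (bfApp m (fun n => (q' n).toZFSet) v n).rank := by
      intro n hn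
      rw [bf_app_lt _ _ hn, rank_toZFSet]
    exact ⟨h2.congr hB h4, fun h5 => h3 (bf_lexLe_congr (fun _ _ => rfl)
      (fun n hn => (h4 n hn).symm) h5)⟩

theorem dp_exLst (hB : Bd m Rl) (hR : DR Rl) (κ : Ordinal.{0}) (i j k l : ℕ) :
    DP (fun v => ∃ q, Lst κ m Rl (sec (v j) (v k).rank) q ∧
      (Rl (v i).rank q ↔ Rl (v l).rank q)) := by
  have h1 : DP (fun v => ∃ w : ℕ → ZFSet.{0},
      Lst κ m Rl (sec (bfApp m w v (j + m)) (bfApp m w v (k + m)).rank)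
        (fun n => (bfApp m w v n).rank) ∧
      (Rl (bfApp m w v (i + m)).rank (fun n => (bfApp m w v n).rank) ↔
        Rl (bfApp m w v (l + m)).rank (fun n => (bfApp m w v n).rank))) :=
    DP.exB m (Q := fun u => Lst κ m Rl (sec (u (j + m)) (u (k + m)).rank)
      (fun n => (u n).rank) ∧ (Rl (u (i + m)).rank (fun n => (u n).rank) ↔
        Rl (u (l + m)).rank (fun n => (u n).rank)))
      ((dp_lst hB hR κ (j + m) (k + m) (fun n => n)).and
        ((hR.at (i + m) (fun n => n)).iff (hR.at (l + m) (fun n => n))))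
  refine h1.congr fun v => ?_
  constructor
  · rintro ⟨q, h2, h3⟩
    refine ⟨fun n => (q n).toZFSet, ?_⟩
    simp only [bf_app_ge]
    have h4 : ∀ n < m, q n = (bfApp m (fun n => (q n).toZFSet) v n).rank := by
      intro n hn
      rw [bf_app_lt _ _ hn, rank_toZFSet]
    refine ⟨⟨h2.1.congr hB h4, fun q' h5 => ?_⟩, ?_⟩
    · exact bf_lexLe_congr h4 (fun _ _ => rfl) (h2.2 q' h5)
    · rw [← hB _ _ _ h4, ← hB _ _ _ h4]
      exact h3
  · rintro ⟨w, h2, h3⟩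
    simp only [bf_app_ge] at h2 h3
    exact ⟨_, h2, h3⟩

theorem dp_cert (hB : Bd m Rl) (hR : DR Rl) (κ : Ordinal.{0}) (i j k : ℕ) :
    DP (fun v => Cert κ m Rl (v i) (v j).rank (v k).rank) := by
  refine DP.allO (Q := fun ξ v => ξ ≤ (v k).rank → ∀ a, a ∈ sec (v i) ξ ↔
    (a < κ ∧ a.cof = ℵ₀ ∧ ∀ η, η < ξ → ∃ q, Lst κ m Rl (sec (v i) η) q ∧
      (Rl (v j).rank q ↔ Rl a q))) ?_
  refine (DP.rank_le 0 (k + 1)).imp ?_
  refine DP.allO (Q := fun a v => a ∈ sec (v (i + 1)) (v 0).rank ↔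
    (a < κ ∧ a.cof = ℵ₀ ∧ ∀ η, η < (v 0).rank → ∃ q, Lst κ m Rl (sec (v (i + 1)) η) q ∧
      (Rl (v (j + 1)).rank q ↔ Rl a q))) ?_
  refine (DP.sec 0 (i + 2) 1).iff ((DP.rank_lt_ord 0 κ).and ((DP.of (dfn_cof_omega 0)).and ?_))
  refine DP.allO (Q := fun η v => η < (v 1).rank → ∃ q, Lst κ m Rl (sec (v (i + 2)) η) q ∧
      (Rl (v (j + 2)).rank q ↔ Rl (v 0).rank q)) ?_
  exact (DP.rank_lt 0 2).imp (dp_exLst hB hR κ (j + 3) (i + 3) 0 1)

theorem dpo_Nd (hB : Bd m Rl) (hR : DR Rl) (κ : Ordinal.{0}) :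
    DPo (fun q => q 0 ∈ Nd κ m Rl (q 1) (q 2)) := by
  refine DP.congr (Q := fun v => ∃ W, Cert κ m Rl W (v 1).rank (v 2).rank ∧
    (v 0).rank ∈ sec W (v 2).rank) ?_ fun v => mem_Nd_iff_cert
  refine DP.ex (Q := fun W v => Cert κ m Rl W (v 1).rank (v 2).rank ∧
    (v 0).rank ∈ sec W (v 2).rank) ?_
  exact (dp_cert hB hR κ 0 2 3).and (DP.sec 1 0 3)

theorem dpo_br (hB : Bd m Rl) (hR : DR Rl) (κ : Ordinal.{0}) (α : Ordinal.{0}) :
    DP (fun v => (v 0).rank ∈ br κ m Rl α) := by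
  -- `η ∈ br α` iff some `W` codes the nodes of level at most `η` and ...
  have h1 : DP (fun v => ∃ x : ZFSet.{0}, x = α.toZFSet ∧ ∃ W : ZFSet.{0},
      Cert κ m Rl W x.rank (v 0).rank ∧ ∃ w : ℕ → ZFSet.{0},
        Lst κ m Rl (sec W (v 0).rank) (fun n => (bfApp m w v n).rank) ∧
        Rl x.rank (fun n => (bfApp m w v n).rank)) := by
    refine DP.ex (Q := fun x v => x = α.toZFSet ∧ ∃ W : ZFSet.{0},
      Cert κ m Rl W x.rank (v 0).rank ∧ ∃ w : ℕ → ZFSet.{0},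
        Lst κ m Rl (sec W (v 0).rank) (fun n => (bfApp m w v n).rank) ∧
        Rl x.rank (fun n => (bfApp m w v n).rank)) ?_
    refine (DP.eq_ord 0 α).and ?_
    refine DP.ex (Q := fun W v => Cert κ m Rl W (v 0).rank (v 1).rank ∧ ∃ w : ℕ → ZFSet.{0},
        Lst κ m Rl (sec W (v 1).rank) (fun n => (bfApp m w (fun n => v (n + 1)) n).rank) ∧
        Rl (v 0).rank (fun n => (bfApp m w (fun n => v (n + 1)) n).rank)) ?_
    refine (dp_cert hB hR κ 0 1 2).and ?_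
    have h2 : DP (fun v => ∃ w : ℕ → ZFSet.{0},
        Lst κ m Rl (sec (bfApp m w v (0 + m)) (bfApp m w v (2 + m)).rank)
          (fun n => (bfApp m w v n).rank) ∧
        Rl (bfApp m w v (1 + m)).rank (fun n => (bfApp m w v n).rank)) :=
      DP.exB m (Q := fun u => Lst κ m Rl (sec (u (0 + m)) (u (2 + m)).rank)
        (fun n => (u n).rank) ∧ Rl (u (1 + m)).rank (fun n => (u n).rank))
        ((dp_lst hB hR κ (0 + m) (2 + m) (fun n => n)).and (hR.at (1 + m) (fun n => n)))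
    refine h2.congr fun v => ?_
    simp only [bf_app_ge]
    have h3 : ∀ (w : ℕ → ZFSet.{0}) (v' : ℕ → ZFSet.{0}), ∀ k < m,
        (bfApp m w v' k).rank = (bfApp m w v k).rank := by
      intro w v' k hk
      rw [bf_app_lt _ _ hk, bf_app_lt _ _ hk]
    constructor
    · rintro ⟨w, h4, h5⟩
      refine ⟨w, ⟨h4.1.congr hB (h3 w _), fun q' h6 =>
        bf_lexLe_congr (h3 w _) (fun _ _ => rfl) (h4.2 q' h6)⟩, (hB _ _ _ (h3 w _)).1 h5⟩
    · rintro ⟨w, h4, h5⟩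
      refine ⟨w, ⟨h4.1.congr hB (fun k hk => (h3 w _ k hk).symm), fun q' h6 =>
        bf_lexLe_congr (fun k hk => (h3 w _ k hk).symm) (fun _ _ => rfl) (h4.2 q' h6)⟩,
        (hB _ _ _ (h3 w _)).2 h5⟩
  refine h1.congr fun v => ?_
  constructor
  · rintro ⟨q, hq, h2⟩
    obtain ⟨W, hW⟩ := exists_cert (κ := κ) (m := m) (Rl := Rl) α (v 0).rank
    have h4 : ∀ n < m, q n = (bfApp m (fun n => (q n).toZFSet) v n).rank := by
      intro n hn
      rw [bf_app_lt _ _ hn, rank_toZFSet]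
    refine ⟨α.toZFSet, rfl, W, by rw [rank_toZFSet]; exact hW, fun n => (q n).toZFSet, ?_, ?_⟩
    · rw [hW.sec_eq _ le_rfl]
      exact ⟨hq.1.congr hB h4, fun q' h6 => bf_lexLe_congr h4 (fun _ _ => rfl) (hq.2 q' h6)⟩
    · rw [rank_toZFSet]
      exact (hB _ _ _ h4).1 h2
  · rintro ⟨x, rfl, W, hW, w, h2, h3⟩
    rw [rank_toZFSet] at hW h3
    rw [hW.sec_eq _ le_rfl] at h2
    exact ⟨_, h2, h3⟩

end Pool.Agent.Helper73.HE
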