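import Pool.Agent.Helper73.HE.Pig

/-! # HE module One: an ordinal definable function is constant almost everywhere -/

namespace Pool.Agent.Helper73.HE

open Ordinal Cardinal ZFSet Order Pool.Agent.Helper73.HODC

/-- the trace of a set of ordinals on `μ` -/
private def one_tr (μ : Ordinal.{0}) (B : Set Ordinal.{0}) : Set μ.ToType :=
  {t | (ToType.mk.symm t).1 ∈ B}

private theorem one_tr_eq {μ : Ordinal.{0}} {B B' : Set Ordinal.{0}}
    (h : one_tr μ B = one_tr μ B') {i : Ordinal.{0}} (hi : i < μ) : i ∈ B ↔ i ∈ B' := by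
  have h1 : ∀ X : Set Ordinal.{0}, ToType.mk (⟨i, hi⟩ : Set.Iio μ) ∈ one_tr μ X ↔ i ∈ X := by
    intro X
    show (ToType.mk.symm (ToType.mk (⟨i, hi⟩ : Set.Iio μ))).1 ∈ X ↔ i ∈ X
    simp
  rw [← h1 B, ← h1 B', h]

/-- the pigeonhole and ultrafilter argument -/
private theorem one_pick {c : Cardinal.{0}} (hc : c.IsRegular) (hc' : ℵ₀ < c)
    {T : Set Ordinal.{0}} (hT : Ult c.ord T) {Y : Type} (hY : Cardinal.mk Y < c)
    (Q : (ℕ → Ordinal.{0}) → Prop) (hQ : DPo Q) (q : ℕ → Ordinal.{0}) (g : Ordinal.{0} → Y)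
    (h : ∀ b b', g b = g b' → Q (ocons b' (ocons b q))) :
    ∃ b, AE c.ord T (fun b' => Q (ocons b' (ocons b q))) := by
  have hκ := reg_cof hc hc'
  obtain ⟨y, hy⟩ := stat_pigeon hc hc' hY hT.stat g
  obtain ⟨b, hb, -, -⟩ := hy _ (club_univ (isSuccLimit_of_cof hκ))
  refine ⟨b, ?_⟩
  rcases hT.ultra Q hQ (ocons b q) with h1 | h1
  · exact h1
  · exfalso
    obtain ⟨C, hC, h2⟩ := h1
    obtain ⟨b', hb', hb'C, hb'κ⟩ := hy C hC
    exact h2 b' hb'C hb'κ hb'.1 (h b b' (hb.2.trans hb'.2.symm))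

theorem const_one {lam m : Cardinal.{0}} {δ : Ordinal.{0} → Cardinal.{0}} (hs : Setting lam m δ)
    {T : Set Ordinal.{0}} (hT : Ult (succ lam).ord T)
    (U F : Ordinal.{0} → Ordinal.{0} → Ordinal.{0})
    (hU : DPo (fun q => EQ4 m.ord (U (q 0)) (U (q 1)) (U (q 2)) (U (q 3))))
    (hF : ∀ r < (succ lam).ord, ∃ C, Club C m.ord ∧
      ∀ i ∈ C, i < m.ord → F r i < (succ (δ i)).ord)
    (hreg : AE (succ lam).ord T (fun a => ∀ A, Stat A m.ord →
      ∃ r < a, Stat {i | i ∈ A ∧ U a i < F r i} m.ord)) :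
    ∃ g, AE (succ lam).ord T (fun a => EqC m.ord (U a) g) := by
  classical
  have hm := hs.reg
  have hm' := hs.unc
  have hμ : ℵ₀ < (m.ord).cof := reg_cof hm hm'
  have hmpos : 0 < m.ord := by
    rw [Cardinal.lt_ord, card_zero]
    exact lt_of_lt_of_le Cardinal.aleph0_pos hm'.le
  have hmlam : m < lam := hs.big.trans (hs.lt 0 hmpos)
  have hlam : ℵ₀ ≤ lam := (hm'.trans hmlam).le
  have hc : (succ lam).IsRegular := isRegular_succ hlam
  have hc' : ℵ₀ < succ lam := hlam.trans_lt (Order.lt_succ lam)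
  have hκ := reg_cof hc hc'
  have hlims : lam < succ lam := Order.lt_succ lam
  have hm2 : (2 : Cardinal.{0}) ^ m < lam :=
    hs.pow 2 (lt_of_lt_of_le (by exact_mod_cast Cardinal.natCast_lt_aleph0 (n := 2)) hlam)
  have hset : Cardinal.mk (Set m.ord.ToType) < succ lam := by
    rw [mk_set, mk_ord_toType]
    exact hm2.trans hlims
  have hclub : Club Set.univ m.ord := club_univ (isSuccLimit_of_cof hμ)
  -- (i)
  have h1 : ∀ a, ∃ b, AE (succ lam).ord T (fun b' => EQ4 m.ord (U a) (U b') (U a) (U b)) := by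
    intro a
    have hQ : DPo (fun q => EQ4 m.ord (U (q 2)) (U (q 0)) (U (q 2)) (U (q 1))) :=
      hU.rename (fun k => if k = 0 then 2 else if k = 1 then 0 else if k = 2 then 2 else 1)
    refine one_pick hc hc' hT hset _ hQ (fun _ => a)
      (fun b => one_tr m.ord {i | U a i = U b i}) ?_
    intro b b' hbb
    refine ⟨Set.univ, hclub, fun i _ hi => ?_⟩
    exact (one_tr_eq hbb hi).symm
  choose bb hbb using h1
  let BB : Ordinal.{0} → Set Ordinal.{0} := fun a => {i | U a i = U (bb a) i}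
  -- (ii)
  have hE : DPo (fun q => AE (succ lam).ord T
      (fun b => EQ4 m.ord (U (q 0)) (U b) (U (q 1)) (U b))) := by
    have hQ : DPo (fun q => EQ4 m.ord (U (q 1)) (U (q 0)) (U (q 2)) (U (q 0))) :=
      hU.rename (fun k => if k = 0 then 1 else if k = 1 then 0 else if k = 2 then 2 else 0)
    exact hT.clos _ hQ
  obtain ⟨a0, ha0⟩ := one_pick hc hc' hT hset _ hE (fun _ => 0)
    (fun a => one_tr m.ord (BB a)) (by
      intro a a' haa
      show AE (succ lam).ord T (fun b => EQ4 m.ord (U a') (U b) (U a) (U b))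
      refine ((hbb a).and hκ (hbb a')).mono ?_
      rintro b - - ⟨⟨C, hC, h2⟩, ⟨C', hC', h3⟩⟩
      refine ⟨C ∩ C', hC.inter hμ hC', fun i hi him => ?_⟩
      have h4 : i ∈ BB a ↔ i ∈ BB a' := one_tr_eq haa him
      exact (h3 i hi.2 him).trans (h4.symm.trans (h2 i hi.1 him).symm))
  set B := BB a0 with hB
  have h2 : AE (succ lam).ord T (fun a => AE (succ lam).ord T (fun b =>
      ∃ C, Club C m.ord ∧ ∀ i ∈ C, i < m.ord → (U a i = U b i ↔ i ∈ B))) := by
    refine ha0.mono ?_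
    intro a _ _ ha
    have ha' : AE (succ lam).ord T (fun b => EQ4 m.ord (U a) (U b) (U a0) (U b)) := ha
    refine (ha'.and hκ (hbb a0)).mono ?_
    rintro b - - ⟨⟨C, hC, h2⟩, ⟨C', hC', h3⟩⟩
    exact ⟨C ∩ C', hC.inter hμ hC', fun i hi him => (h2 i hi.1 him).trans (h3 i hi.2 him)⟩
  -- (iii)
  have h3 : ¬ Stat Bᶜ m.ord := by
    intro hA
    have hreg' : AE (succ lam).ord T (fun a => ∃ r < a,
        Stat {i | i ∈ Bᶜ ∧ U a i < F r i} m.ord) := hreg.mono fun a _ _ h => h _ hA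
    have hT0 := hreg'.stat hκ hT.stat
    have hr : ∀ a : Ordinal.{0}, ∃ r : Ordinal.{0}, (∃ r < a,
        Stat {i | i ∈ Bᶜ ∧ U a i < F r i} m.ord) → r < a ∧
        Stat {i | i ∈ Bᶜ ∧ U a i < F r i} m.ord := by
      intro a
      by_cases h : ∃ r < a, Stat {i | i ∈ Bᶜ ∧ U a i < F r i} m.ord
      · obtain ⟨r, h4⟩ := h
        exact ⟨r, fun _ => h4⟩
      · exact ⟨0, fun h' => absurd h' h⟩
    choose rr hrr using hr
    obtain ⟨r, hrκ, hT1⟩ := fodor hc hc' hT0 (r := rr) (fun a ha _ _ => (hrr a ha.2).1)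
    obtain ⟨CF, hCF, hFr⟩ := hF r hrκ
    have he : ∀ i : Ordinal.{0}, ∃ g : Ordinal.{0} → Ordinal.{0}, i ∈ CF → i < m.ord →
        (∀ y < F r i, g y < (δ i).ord) ∧ ∀ y < F r i, ∀ z < F r i, g y = g z → y = z := by
      intro i
      by_cases h : i ∈ CF ∧ i < m.ord
      · obtain ⟨g, hg⟩ := exists_inj_ord (hFr i h.1 h.2)
        exact ⟨g, fun _ _ => hg⟩
      · exact ⟨id, fun h1 h2 => absurd ⟨h1, h2⟩ h⟩
    choose e he using he
    -- the data of a point of `T1`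
    have hdata : ∀ a : Ordinal.{0}, ∃ (j : Ordinal.{0}) (A : Set Ordinal.{0}),
        ((∃ r < a, Stat {i | i ∈ Bᶜ ∧ U a i < F r i} m.ord) ∧ rr a = r) →
        (j < m.ord ∧ Stat A m.ord ∧ ∀ i ∈ A, i ∈ Bᶜ ∧ U a i < F r i ∧ i ∈ CF ∧ i < m.ord ∧
          e i (U a i) < (δ j).ord) := by
      intro a
      by_cases ha : (∃ r < a, Stat {i | i ∈ Bᶜ ∧ U a i < F r i} m.ord) ∧ rr a = r
      swap
      · exact ⟨0, ∅, fun h => absurd h ha⟩
      have hSt : Stat {i | i ∈ Bᶜ ∧ U a i < F r i} m.ord := by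
        have := (hrr a ha.1).2
        rwa [ha.2] at this
      have hSt2 : Stat ({i | i ∈ Bᶜ ∧ U a i < F r i} ∩ (CF ∩ {i | IsSuccLimit i})) m.ord :=
        hSt.inter_club hμ (hCF.inter hμ (club_limit hμ))
      have hj : ∀ i : Ordinal.{0}, ∃ j : Ordinal.{0},
          (i ∈ ({i | i ∈ Bᶜ ∧ U a i < F r i} ∩ (CF ∩ {i | IsSuccLimit i})) ∧ i < m.ord) →
          j < i ∧ e i (U a i) < (δ j).ord := by
        intro i
        by_cases h : i ∈ ({i | i ∈ Bᶜ ∧ U a i < F r i} ∩ (CF ∩ {i | IsSuccLimit i})) ∧ i < m.ord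
        · have h5 := (he i h.1.2.1 h.2).1 (U a i) h.1.1.2
          obtain ⟨j, hji, hj⟩ := hs.cont i h.2 h.1.2.2 _ (Cardinal.lt_ord.1 h5)
          exact ⟨j, fun _ => ⟨hji, Cardinal.lt_ord.2 hj⟩⟩
        · exact ⟨0, fun h' => absurd h' h⟩
      choose jj hjj using hj
      obtain ⟨j, hjm, hj2⟩ := fodor hm hm' hSt2 (r := jj)
        (fun i hi him _ => (hjj i ⟨hi, him⟩).1)
      refine ⟨j, {i | (i ∈ ({i | i ∈ Bᶜ ∧ U a i < F r i} ∩ (CF ∩ {i | IsSuccLimit i})) ∧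
        jj i = j) ∧ i < m.ord}, fun _ => ⟨hjm, ?_, ?_⟩⟩
      · intro C hC
        obtain ⟨i, hi, hiC, him⟩ := hj2 C hC
        exact ⟨i, ⟨hi, him⟩, hiC, him⟩
      · rintro i ⟨⟨hi, hij⟩, him⟩
        refine ⟨hi.1.1, hi.1.2, hi.2.1, him, ?_⟩
        have := (hjj i ⟨hi, him⟩).2
        rwa [hij] at this
    choose ja Aa hdata using hdata
    -- `j` is constant
    have hmY : Cardinal.mk (Option m.ord.ToType) < succ lam := by
      rw [mk_option, mk_ord_toType]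
      exact (Cardinal.add_lt_of_lt hlam hmlam (lt_of_lt_of_le Cardinal.one_lt_aleph0 hlam)).trans
        hlims
    obtain ⟨y, hT2⟩ := stat_pigeon hc hc' hmY hT1
      (fun a => if h : ja a < m.ord then some (ToType.mk (⟨ja a, h⟩ : Set.Iio m.ord)) else none)
    obtain ⟨a1, ha1, -, ha1κ⟩ := hT2 _ (club_univ (isSuccLimit_of_cof hκ))
    have hja : ∀ a, (a ∈ {a | a ∈ {a | a ∈ T ∧ ∃ r < a,
        Stat {i | i ∈ Bᶜ ∧ U a i < F r i} m.ord} ∧ rr a = r} ∧
        (if h : ja a < m.ord then some (ToType.mk (⟨ja a, h⟩ : Set.Iio m.ord)) else none) = y) →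
        ja a = ja a1 := by
      intro a ha
      have hlt := (hdata a ⟨ha.1.1.2, ha.1.2⟩).1
      have hlt1 := (hdata a1 ⟨ha1.1.1.2, ha1.1.2⟩).1
      have h5 := ha.2.trans ha1.2.symm
      rw [dif_pos hlt, dif_pos hlt1] at h5
      have h6 := ToType.mk.injective (Option.some.inj h5)
      exact congrArg Subtype.val h6
    set j := ja a1 with hjdef
    have hjm : j < m.ord := (hdata a1 ⟨ha1.1.1.2, ha1.1.2⟩).1
    have hfun : Cardinal.mk (m.ord.ToType → Option (δ j).ord.ToType) < succ lam := by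
      rw [← Cardinal.power_def, mk_option, mk_ord_toType, mk_ord_toType]
      refine (hs.pow _ ?_).trans hlims
      exact Cardinal.add_lt_of_lt hlam (hs.lt j hjm)
        (lt_of_lt_of_le Cardinal.one_lt_aleph0 hlam)
    obtain ⟨k', hT3⟩ := stat_pigeon hc hc' hfun hT2
      (fun a (t : m.ord.ToType) =>
        if h : (ToType.mk.symm t).1 ∈ Aa a ∧
          e (ToType.mk.symm t).1 (U a (ToType.mk.symm t).1) < (δ j).ord then
          some (ToType.mk (⟨_, h.2⟩ : Set.Iio (δ j).ord)) else none)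
    -- two points
    obtain ⟨C1, hC1, hC1'⟩ := h2
    obtain ⟨a, ha, haC, haκ⟩ := hT3 C1 hC1
    have hsub : ∀ x, x ∈ {a | a ∈ {a | a ∈ {a | a ∈ {a | a ∈ T ∧ ∃ r < a,
        Stat {i | i ∈ Bᶜ ∧ U a i < F r i} m.ord} ∧ rr a = r} ∧
        (if h : ja a < m.ord then some (ToType.mk (⟨ja a, h⟩ : Set.Iio m.ord)) else none) = y} ∧
        (fun (t : m.ord.ToType) =>
        if h : (ToType.mk.symm t).1 ∈ Aa a ∧
          e (ToType.mk.symm t).1 (U a (ToType.mk.symm t).1) < (δ j).ord then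
          some (ToType.mk (⟨_, h.2⟩ : Set.Iio (δ j).ord)) else none) = k'} → x ∈ T :=
      fun x hx => hx.1.1.1.1
    obtain ⟨C2, hC2, hC2'⟩ := hC1' a haC haκ (hsub a ha)
    obtain ⟨b, hb, hbC, hbκ⟩ := hT3 C2 hC2
    obtain ⟨C, hC, h7⟩ := hC2' b hbC hbκ (hsub b hb)
    have hda := hdata a ⟨ha.1.1.1.2, ha.1.1.2⟩
    have hdb := hdata b ⟨hb.1.1.1.2, hb.1.1.2⟩
    rw [hja a ha.1] at hda
    rw [hja b hb.1] at hdb
    obtain ⟨i, hiA, hiC, him⟩ := hda.2.1 C hC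
    have hi := hda.2.2 i hiA
    have h8 := congrFun (ha.2.trans hb.2.symm) (ToType.mk (⟨i, him⟩ : Set.Iio m.ord))
    simp only [OrderIso.symm_apply_apply] at h8
    have hpa : i ∈ Aa a ∧ e i (U a i) < (δ j).ord := ⟨hiA, hi.2.2.2.2⟩
    rw [dif_pos hpa] at h8
    by_cases hpb : i ∈ Aa b ∧ e i (U b i) < (δ j).ord
    · rw [dif_pos hpb] at h8
      have h9 := congrArg Subtype.val (ToType.mk.injective (Option.some.inj h8))
      have h10 : e i (U a i) = e i (U b i) := h9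
      have hib := hdb.2.2 i hpb.1
      have h11 := (he i hi.2.2.1 him).2 _ hi.2.1 _ hib.2.1 h10
      exact hi.1 ((h7 i hiC him).1 h11)
    · rw [dif_neg hpb] at h8
      exact absurd h8 (by simp)
  -- (iv)
  obtain ⟨CB, hCB, hCB'⟩ : ∃ C, Club C m.ord ∧ ∀ i ∈ C, i < m.ord → i ∈ B := by
    unfold Stat at h3
    push Not at h3
    obtain ⟨C, hC, h4⟩ := h3
    refine ⟨C, hC, fun i hi him => ?_⟩
    by_contra h5
    exact absurd him (not_lt.2 (h4 i h5 hi))
  obtain ⟨a, haT, haκ, ha⟩ := h2.exists hκ hT.stat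
  refine ⟨U a, ha.mono ?_⟩
  rintro b - - ⟨C, hC, h4⟩
  exact ⟨C ∩ CB, hC.inter hμ hCB, fun i hi him =>
    ((h4 i hi.1 him).2 (hCB' i hi.2 him)).symm⟩

end Pool.Agent.Helper73.HE
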