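import Pool.Agent.Helper73.HE.Defs2

/-!
# Pigeonhole for stationary sets, almost all quantifier, definable relations
-/

namespace Pool.Agent.Helper73.HE

open Ordinal Cardinal ZFSet Order Pool.Agent.Helper73.HODC

theorem reg_cof {c : Cardinal.{0}} (hc : c.IsRegular) (hc' : ℵ₀ < c) : ℵ₀ < c.ord.cof := by
  rw [hc.cof_ord]; exact hc'

theorem stat_pigeon {c : Cardinal.{0}} (hc : c.IsRegular) (hc' : ℵ₀ < c) {Y : Type}
    (hY : Cardinal.mk Y < c) {S : Set Ordinal.{0}} (h : Stat S c.ord) (g : Ordinal.{0} → Y) :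
    ∃ y, Stat {a | a ∈ S ∧ g a = y} c.ord := by
  by_contra hcon
  push Not at hcon
  have h1 : ∀ y, ∃ C, Club C c.ord ∧ ∀ a ∈ C, a < c.ord → a ∈ S → g a ≠ y := by
    intro y
    have h2 := hcon y
    unfold Stat at h2
    push Not at h2
    obtain ⟨C, hC, h3⟩ := h2
    exact ⟨C, hC, fun a haC hac haS hay => absurd hac (not_lt.2 (h3 a ⟨haS, hay⟩ haC))⟩
  choose C hC using h1
  have hclub : Club (⋂ y, C y) c.ord :=
    Club.iInter' (reg_cof hc hc') (by rw [hc.cof_ord]; exact hY) fun y => (hC y).1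
  obtain ⟨a, haS, haC, hac⟩ := h _ hclub
  exact (hC (g a)).2 a (Set.mem_iInter.1 haC _) hac haS rfl

/-! ### almost all -/

theorem AE_iff {κ : Ordinal.{0}} {T : Set Ordinal.{0}} {Q : Ordinal.{0} → Prop} :
    AE κ T Q ↔ ¬ Stat {a | a ∈ T ∧ ¬ Q a} κ := by
  constructor
  · rintro ⟨C, hC, h⟩ hS
    obtain ⟨a, ⟨haT, haQ⟩, haC, hac⟩ := hS C hC
    exact haQ (h a haC hac haT)
  · intro h
    unfold Stat at h
    push Not at h
    obtain ⟨C, hC, h3⟩ := h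
    refine ⟨C, hC, fun a haC hac haT => ?_⟩
    by_contra hQ
    exact absurd hac (not_lt.2 (h3 a ⟨haT, hQ⟩ haC))

theorem AE.mono {κ : Ordinal.{0}} {T : Set Ordinal.{0}} {Q Q' : Ordinal.{0} → Prop}
    (h : AE κ T Q) (h' : ∀ a ∈ T, a < κ → Q a → Q' a) : AE κ T Q' := by
  obtain ⟨C, hC, h⟩ := h
  exact ⟨C, hC, fun a haC hac haT => h' a haT hac (h a haC hac haT)⟩

theorem AE.and {κ : Ordinal.{0}} (hκ : ℵ₀ < κ.cof) {T : Set Ordinal.{0}}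
    {Q Q' : Ordinal.{0} → Prop} (h : AE κ T Q) (h' : AE κ T Q') :
    AE κ T (fun a => Q a ∧ Q' a) := by
  obtain ⟨C, hC, h⟩ := h
  obtain ⟨C', hC', h'⟩ := h'
  exact ⟨C ∩ C', hC.inter hκ hC', fun a haC hac haT =>
    ⟨h a haC.1 hac haT, h' a haC.2 hac haT⟩⟩

theorem AE_of_forall {κ : Ordinal.{0}} (hκ : ℵ₀ < κ.cof) {T : Set Ordinal.{0}}
    {Q : Ordinal.{0} → Prop} (h : ∀ a ∈ T, a < κ → Q a) : AE κ T Q :=
  ⟨Set.univ, club_univ (isSuccLimit_of_cof hκ), fun a _ hac haT => h a haT hac⟩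

theorem AE_of_club {κ : Ordinal.{0}} {T C : Set Ordinal.{0}} (hC : Club C κ) :
    AE κ T (fun a => a ∈ C) := ⟨C, hC, fun _ h _ _ => h⟩

theorem AE.stat {κ : Ordinal.{0}} (hκ : ℵ₀ < κ.cof) {T : Set Ordinal.{0}}
    {Q : Ordinal.{0} → Prop} (hT : Stat T κ) (h : AE κ T Q) : Stat {a | a ∈ T ∧ Q a} κ := by
  obtain ⟨C, hC, h⟩ := h
  intro C' hC'
  obtain ⟨a, haT, haC, hac⟩ := hT _ (hC.inter hκ hC')
  exact ⟨a, ⟨haT, h a haC.1 hac haT⟩, haC.2, hac⟩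

theorem AE.exists {κ : Ordinal.{0}} (hκ : ℵ₀ < κ.cof) {T : Set Ordinal.{0}}
    {Q : Ordinal.{0} → Prop} (hT : Stat T κ) (h : AE κ T Q) : ∃ a ∈ T, a < κ ∧ Q a := by
  obtain ⟨a, ha, -, hac⟩ := h.stat hκ hT _ (club_univ (isSuccLimit_of_cof hκ))
  exact ⟨a, ha.1, hac, ha.2⟩

theorem AE.not_not {κ : Ordinal.{0}} (hκ : ℵ₀ < κ.cof) {T : Set Ordinal.{0}}
    {Q : Ordinal.{0} → Prop} (hT : Stat T κ) (h : AE κ T Q) : ¬ AE κ T (fun a => ¬ Q a) := by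
  intro h'
  obtain ⟨a, -, -, h1, h2⟩ := (h.and hκ h').exists hκ hT
  exact h2 h1

/-! ### EqC and EQ4 -/

theorem EqC.symm {μ : Ordinal.{0}} {x y : Ordinal.{0} → Ordinal.{0}} (h : EqC μ x y) :
    EqC μ y x := by
  obtain ⟨C, hC, h⟩ := h
  exact ⟨C, hC, fun i hi him => (h i hi him).symm⟩

theorem EqC.trans {μ : Ordinal.{0}} (hμ : ℵ₀ < μ.cof) {x y z : Ordinal.{0} → Ordinal.{0}}
    (h : EqC μ x y) (h' : EqC μ y z) : EqC μ x z := by
  obtain ⟨C, hC, h⟩ := h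
  obtain ⟨C', hC', h'⟩ := h'
  exact ⟨C ∩ C', hC.inter hμ hC', fun i hi him => (h i hi.1 him).trans (h' i hi.2 him)⟩

theorem EqC.refl {μ : Ordinal.{0}} (hμ : ℵ₀ < μ.cof) (x : Ordinal.{0} → Ordinal.{0}) :
    EqC μ x x := ⟨Set.univ, club_univ (isSuccLimit_of_cof hμ), fun _ _ _ => rfl⟩

theorem EQ4.symm {μ : Ordinal.{0}} {x y x' y' : Ordinal.{0} → Ordinal.{0}}
    (h : EQ4 μ x y x' y') : EQ4 μ x' y' x y := by
  obtain ⟨C, hC, h⟩ := h
  exact ⟨C, hC, fun i hi him => (h i hi him).symm⟩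

theorem EQ4.trans {μ : Ordinal.{0}} (hμ : ℵ₀ < μ.cof)
    {x y x' y' x'' y'' : Ordinal.{0} → Ordinal.{0}}
    (h : EQ4 μ x y x' y') (h' : EQ4 μ x' y' x'' y'') : EQ4 μ x y x'' y'' := by
  obtain ⟨C, hC, h⟩ := h
  obtain ⟨C', hC', h'⟩ := h'
  exact ⟨C ∩ C', hC.inter hμ hC', fun i hi him => (h i hi.1 him).trans (h' i hi.2 him)⟩

theorem EQ4.congr {μ : Ordinal.{0}} (hμ : ℵ₀ < μ.cof)
    {x y z w x' y' z' w' : Ordinal.{0} → Ordinal.{0}}
    (h : EQ4 μ x y z w) (hx : EqC μ x x') (hy : EqC μ y y') (hz : EqC μ z z')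
    (hw : EqC μ w w') : EQ4 μ x' y' z' w' := by
  obtain ⟨C, hC, h⟩ := h
  obtain ⟨C1, hC1, h1⟩ := hx
  obtain ⟨C2, hC2, h2⟩ := hy
  obtain ⟨C3, hC3, h3⟩ := hz
  obtain ⟨C4, hC4, h4⟩ := hw
  refine ⟨C ∩ (C1 ∩ (C2 ∩ (C3 ∩ C4))), hC.inter hμ (hC1.inter hμ (hC2.inter hμ
    (hC3.inter hμ hC4))), fun i hi him => ?_⟩
  rw [← h1 i hi.2.1 him, ← h2 i hi.2.2.1 him, ← h3 i hi.2.2.2.1 him, ← h4 i hi.2.2.2.2 him]
  exact h i hi.1 him

/-! ### relations between ordinals -/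

theorem DPo.congr {Q Q' : (ℕ → Ordinal.{0}) → Prop} (h : DPo Q) (hQ : ∀ q, Q' q ↔ Q q) :
    DPo Q' := DP.congr h fun _ => hQ _

theorem DPo.not {Q : (ℕ → Ordinal.{0}) → Prop} (h : DPo Q) : DPo (fun q => ¬ Q q) := DP.not h

theorem DPo.and {Q Q' : (ℕ → Ordinal.{0}) → Prop} (h : DPo Q) (h' : DPo Q') :
    DPo (fun q => Q q ∧ Q' q) := DP.and h h'

theorem DPo.or {Q Q' : (ℕ → Ordinal.{0}) → Prop} (h : DPo Q) (h' : DPo Q') :
    DPo (fun q => Q q ∨ Q' q) := DP.or h h'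

theorem DPo.imp {Q Q' : (ℕ → Ordinal.{0}) → Prop} (h : DPo Q) (h' : DPo Q') :
    DPo (fun q => Q q → Q' q) := DP.imp h h'

theorem DPo.iff {Q Q' : (ℕ → Ordinal.{0}) → Prop} (h : DPo Q) (h' : DPo Q') :
    DPo (fun q => Q q ↔ Q' q) := DP.iff h h'

theorem DPo.rename {Q : (ℕ → Ordinal.{0}) → Prop} (h : DPo Q) (s : ℕ → ℕ) :
    DPo (fun q => Q (fun k => q (s k))) := DP.rename h s

theorem DPo.ex {Q : Ordinal.{0} → (ℕ → Ordinal.{0}) → Prop}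
    (h : DPo (fun q => Q (q 0) (fun n => q (n + 1)))) : DPo (fun q => ∃ a, Q a q) :=
  DP.exO (Q := fun a v => Q a (fun k => (v k).rank)) h

theorem DPo.all {Q : Ordinal.{0} → (ℕ → Ordinal.{0}) → Prop}
    (h : DPo (fun q => Q (q 0) (fun n => q (n + 1)))) : DPo (fun q => ∀ a, Q a q) :=
  DP.allO (Q := fun a v => Q a (fun k => (v k).rank)) h

theorem DPo.lt (i j : ℕ) : DPo (fun q => q i < q j) := DP.rank_lt i j

theorem DPo.eq (i j : ℕ) : DPo (fun q => q i = q j) := DP.rank_eq i j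

theorem DPo.eq_const (i : ℕ) (x : Ordinal.{0}) : DPo (fun q => q i = x) := DP.rank_eq_ord i x

theorem DPo.lt_const (i : ℕ) (x : Ordinal.{0}) : DPo (fun q => q i < x) := DP.rank_lt_ord i x

/-- substitution: the `k`-th variable is replaced by the variable `s k - 1`, or by the ordinal
`x k` if `s k = 0`; here only one ordinal `x` is used -/
theorem DPo.subst {Q : (ℕ → Ordinal.{0}) → Prop} (h : DPo Q) (x : Ordinal.{0}) :
    DPo (fun q => Q (ocons x q)) := by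
  have h1 : DPo (fun q => ∃ a, a = x ∧ Q (ocons a q)) := by
    refine DPo.ex (Q := fun a q => a = x ∧ Q (ocons a q)) ?_
    refine (DPo.eq_const 0 x).and ?_
    refine DPo.congr h fun q => ?_
    have : ocons (q 0) (fun n => q (n + 1)) = q := by
      funext n
      cases n <;> rfl
    rw [this]
  refine h1.congr fun q => ?_
  constructor
  · intro h; exact ⟨x, rfl, h⟩
  · rintro ⟨a, rfl, h⟩; exact h

end Pool.Agent.Helper73.HE
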