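import Pool.Agent.Helper73.HE.Fin
import Pool.Agent.Helper73.HE.Abs2

/-! # HE module Top: the main theorem -/

namespace Pool.Agent.Helper73.HE

open Ordinal Cardinal ZFSet Order Pool.Agent.Helper73.HODC

/-- the image in `lam` of a club subset of the cofinality of `lam` -/
theorem club_push {lam m : Cardinal.{0}} {δ : Ordinal.{0} → Cardinal.{0}}
    (hs : Setting lam m δ) {C : Set Ordinal.{0}} (hC : Club C m.ord)
    (hlim : ∀ i ∈ C, IsSuccLimit i) :
    Club {a | ∃ i ∈ C, i < m.ord ∧ a = (δ i).ord} lam.ord := by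
  have hmono : ∀ i j, i < m.ord → j < m.ord → (δ i).ord < (δ j).ord → i < j := by
    intro i j hi hj hij
    by_contra hcon
    rcases (not_lt.1 hcon).lt_or_eq with h1 | h1
    · exact absurd hij (not_lt.2 (Cardinal.ord_le_ord.2 (hs.mono j i h1 hi).le))
    · subst h1
      exact lt_irrefl _ hij
  constructor
  · intro a ha
    obtain ⟨i, hi, hai⟩ := hs.cofinal a.card (Cardinal.lt_ord.1 ha)
    obtain ⟨b, hbC, hib, hbm⟩ := hC.1 i hi
    refine ⟨(δ b).ord, ⟨b, hbC, hbm, rfl⟩, ?_, Cardinal.ord_lt_ord.2 (hs.lt b hbm)⟩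
    exact (Cardinal.lt_ord.2 hai).trans (Cardinal.ord_lt_ord.2 (hs.mono i b hib hbm))
  · intro a ha ha0 hua
    -- the indices below
    set I : Set Ordinal.{0} := {i | i ∈ C ∧ i < m.ord ∧ (δ i).ord < a} with hI
    have hun : ∀ b < a, ∃ i ∈ I, b < (δ i).ord := by
      intro b hb
      obtain ⟨c, ⟨i, hiC, him, rfl⟩, hbc, hca⟩ := hua b hb
      exact ⟨i, ⟨hiC, him, hca⟩, hbc⟩
    obtain ⟨i₁, hi₁, hai₁⟩ := hs.cofinal a.card (Cardinal.lt_ord.1 ha)
    have hai₁' : a < (δ i₁).ord := Cardinal.lt_ord.2 hai₁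
    have hbd : ∀ i ∈ I, i < i₁ := fun i hi => hmono i i₁ hi.2.1 hi₁ (hi.2.2.trans hai₁')
    have hbdd : BddAbove I := ⟨i₁, fun i hi => (hbd i hi).le⟩
    have hne : I.Nonempty := by
      obtain ⟨i, hi, _⟩ := hun 0 (bot_lt_iff_ne_bot.2 ha0)
      exact ⟨i, hi⟩
    set j := sSup I with hj
    have hj₁ : j < m.ord := (csSup_le hne (fun i hi => (hbd i hi).le)).trans_lt hi₁
    have hnomax : ∀ i ∈ I, ∃ i' ∈ I, i < i' := by
      intro i hi
      obtain ⟨i', hi', hlt⟩ := hun _ hi.2.2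
      exact ⟨i', hi', hmono i i' hi.2.1 hi'.2.1 hlt⟩
    have hltj : ∀ i ∈ I, i < j := by
      intro i hi
      obtain ⟨i', hi', hlt⟩ := hnomax i hi
      exact hlt.trans_le (le_csSup hbdd hi')
    have hjC : j ∈ C := by
      refine hC.2 j hj₁ ?_ ?_
      · obtain ⟨i, hi⟩ := hne
        exact (bot_le.trans_lt (hltj i hi)).ne'
      · intro x hx
        obtain ⟨i, hi, hxi⟩ := exists_lt_of_lt_csSup hne hx
        exact ⟨i, hi.1, hxi, hltj i hi⟩
    refine ⟨j, hjC, hj₁, ?_⟩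
    apply le_antisymm
    · by_contra hcon
      push Not at hcon
      obtain ⟨i, hi, hlt⟩ := hun _ hcon
      exact absurd (hmono j i hj₁ hi.2.1 hlt) (not_lt.2 (hltj i hi).le)
    · by_contra hcon
      push Not at hcon
      obtain ⟨i, hi, hlt⟩ := hs.cont j hj₁ (hlim j hjC) a.card (Cardinal.lt_ord.1 hcon)
      obtain ⟨i', hi', hlt'⟩ := exists_lt_of_lt_csSup hne hi
      have h3 : (δ i).ord < (δ i').ord := Cardinal.ord_lt_ord.2 (hs.mono i i' hlt' hi'.2.1)
      exact lt_irrefl a (((Cardinal.lt_ord.2 hlt).trans h3).trans hi'.2.2)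

/-- an increasing sequence in the image has at most the length of the index -/
theorem length_le {lam m : Cardinal.{0}} {δ : Ordinal.{0} → Cardinal.{0}}
    (hs : Setting lam m δ) {C : Set Ordinal.{0}} {i ρ : Ordinal.{0}} (him : i < m.ord)
    {g : Ordinal.{0} → Ordinal.{0}} (hg : Incr ρ (δ i).ord g)
    (hgC : ∀ ξ < ρ, g ξ ∈ {a | ∃ i ∈ C, i < m.ord ∧ a = (δ i).ord}) : ρ ≤ i := by
  by_contra hcon
  push Not at hcon
  have hmono : ∀ i j, i < m.ord → j < m.ord → (δ i).ord < (δ j).ord → i < j := by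
    intro i j hi hj hij
    by_contra hcon
    rcases (not_lt.1 hcon).lt_or_eq with h1 | h1
    · exact absurd hij (not_lt.2 (Cardinal.ord_le_ord.2 (hs.mono j i h1 hi).le))
    · subst h1
      exact lt_irrefl _ hij
  have h1 : ∀ ξ, ξ < ρ → ∀ j < m.ord, g ξ = (δ j).ord → ξ ≤ j := by
    intro ξ
    induction ξ using WellFoundedLT.induction with
    | ind ξ ih =>
      intro hξ j hj hgj
      by_contra hlt
      push Not at hlt
      obtain ⟨j', -, hj', hgj'⟩ := hgC j (hlt.trans hξ)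
      have h2 := ih j hlt (hlt.trans hξ) j' hj' hgj'
      have h3 := hg.2 j ξ hlt hξ
      rw [hgj, hgj'] at h3
      exact absurd (hmono j' j hj' hj h3) (not_lt.2 h2)
  obtain ⟨j, -, hj, hgj⟩ := hgC i hcon
  have h2 := h1 i hcon j hj hgj
  have h3 := hg.1 i hcon
  rw [hgj] at h3
  exact absurd (hmono j i hj him h3) (not_lt.2 h2)

theorem main {lam : Cardinal.{0}} (hs : lam.IsSingular) (hc : ℵ₀ < lam.ord.cof)
    (h1 : ∀ δ < lam, δ ^ lam.ord.cof < lam)
    (h2 : (2 : Cardinal.{0}) ^ ((2 : Cardinal.{0}) ^ lam.ord.cof) < lam)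
    (h : OmegaStronglyMeasurable (succ lam).ord) :
    ∃ C, Club C lam.ord ∧ ∀ δ : Cardinal.{0}, δ < lam → δ.ord ∈ C → ∀ ρ g,
      Incr ρ δ.ord g → (∀ ξ < ρ, g ξ ∈ C) →
      HODPartition ρ (succ δ).ord ∧ (HODCountable ρ → HODErdos ρ (succ δ).ord) := by
  obtain ⟨δ, hset⟩ := exists_setting hs hc h1 h2
  have hm : ℵ₀ < lam.ord.cof.ord.cof := reg_cof hset.reg hset.unc
  have hlam : ℵ₀ ≤ lam := hset.aleph0_lt_lam.le
  have hκ' : ℵ₀ < succ lam := hlam.trans_lt (lt_succ lam)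
  obtain ⟨T, hT⟩ := exists_ult (isRegular_succ hlam) hκ' (pow_lt_succ hset rfl) h
  obtain ⟨C, hC, hCP⟩ := club_partition hset hT
  have hC' : Club (C ∩ {a | IsSuccLimit a}) lam.ord.cof.ord := hC.inter hm (club_limit hm)
  refine ⟨_, club_push hset hC' fun i hi => hi.2, ?_⟩
  rintro d hd ⟨i, hi, him, hdi⟩ ρ g hg hgC
  have hdi' : d = δ i := Cardinal.ord_injective hdi
  subst hdi'
  have h3 := hCP i hi.1 him ρ (length_le hset him hg hgC)
  exact ⟨h3, fun h4 => hodErdos_of_partition h3 h4⟩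

/-- the case of a fixed order type -/
theorem main_fixed {lam : Cardinal.{0}} (hs : lam.IsSingular) (hc : ℵ₀ < lam.ord.cof)
    (h1 : ∀ δ < lam, δ ^ lam.ord.cof < lam)
    (h2 : (2 : Cardinal.{0}) ^ ((2 : Cardinal.{0}) ^ lam.ord.cof) < lam)
    (h : OmegaStronglyMeasurable (succ lam).ord) (ρ : Ordinal.{0})
    (hρ : ρ < lam.ord.cof.ord) :
    ∃ C, Club C lam.ord ∧ ∀ δ : Cardinal.{0}, δ < lam → δ.ord ∈ C →
      HODPartition ρ (succ δ).ord ∧ (HODCountable ρ → HODErdos ρ (succ δ).ord) := by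
  obtain ⟨δ, hset⟩ := exists_setting hs hc h1 h2
  have hm : ℵ₀ < lam.ord.cof.ord.cof := reg_cof hset.reg hset.unc
  have hlam : ℵ₀ ≤ lam := hset.aleph0_lt_lam.le
  have hκ' : ℵ₀ < succ lam := hlam.trans_lt (lt_succ lam)
  obtain ⟨T, hT⟩ := exists_ult (isRegular_succ hlam) hκ' (pow_lt_succ hset rfl) h
  obtain ⟨C, hC, hCP⟩ := club_partition hset hT
  have hC' : Club ((C ∩ {a | IsSuccLimit a}) ∩ {a | ρ < a}) lam.ord.cof.ord :=
    (hC.inter hm (club_limit hm)).inter hm (club_Ioi hset.limit hρ)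
  refine ⟨_, club_push hset hC' fun i hi => hi.1.2, ?_⟩
  rintro d hd ⟨i, hi, him, hdi⟩
  have hdi' : d = δ i := Cardinal.ord_injective hdi
  subst hdi'
  have h3 := hCP i hi.1.1 him ρ (le_of_lt hi.2)
  exact ⟨h3, fun h4 => hodErdos_of_partition h3 h4⟩

end Pool.Agent.Helper73.HE
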