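import Pool.Agent.Helper73.HE.Node

/-! # HE module Tree: the splitting tree and the existence of T -/

namespace Pool.Agent.Helper73.HE

open Ordinal Cardinal ZFSet Order Pool.Agent.Helper73.HODC

variable {m : ℕ} {Rl : Ordinal.{0} → (ℕ → Ordinal.{0}) → Prop}

theorem stat_const {c : Cardinal.{0}} (hc : c.IsRegular) (hc' : ℵ₀ < c) {S : Set Ordinal.{0}}
    (h : Stat S c.ord) {β : Ordinal.{0}} (hβ : β < c.ord) (r : Ordinal.{0} → Ordinal.{0})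
    (hr : ∀ a ∈ S, a < c.ord → r a < β) : ∃ b, Stat {a | a ∈ S ∧ r a = b} c.ord := by
  have hcof := reg_cof hc hc'
  have h1 : Stat (S ∩ {a | β < a}) c.ord := h.inter_club hcof (club_Ioi (isSuccLimit_of_cof hcof) hβ)
  obtain ⟨b, -, h2⟩ := fodor hc hc' h1 (r := r) (fun a ha hac _ =>
    (hr a ha.1 hac).trans ha.2)
  exact ⟨b, h2.mono fun a ha _ => ⟨ha.1.1, ha.2⟩⟩

theorem stat_or {κ : Ordinal.{0}} (hκ : ℵ₀ < κ.cof) {S A : Set Ordinal.{0}} (h : Stat S κ) :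
    Stat {a | a ∈ S ∧ a ∈ A} κ ∨ Stat {a | a ∈ S ∧ a ∉ A} κ := by
  obtain ⟨i, hi⟩ := stat_of_iUnion (ι := Bool) hκ h
    (A := fun b => if b then A else Aᶜ) (by
      intro a ha _
      by_cases h1 : a ∈ A
      · exact ⟨true, h1⟩
      · exact ⟨false, h1⟩)
  cases i
  · right
    exact hi.mono fun a ha _ => ⟨ha.1, ha.2⟩
  · left
    exact hi.mono fun a ha _ => ⟨ha.1, ha.2⟩

/-- the set of ordinals in HOD from a definable set of ordinals -/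
theorem HOD_ordSet (κ₀ : Ordinal.{0}) (A : Set Ordinal.{0}) (h : DP (fun v => (v 0).rank ∈ A)) :
    HOD (ordSet κ₀ A) := by
  refine HOD.intro _ (DP.od ?_) ?_
  · refine (DP.all (Q := fun z v => z ∈ v 0 ↔ (z = z.rank.toZFSet ∧ z.rank < κ₀ ∧ z.rank ∈ A))
      ?_).congr ?_
    · exact (DP.mem 0 1).iff ((DP.isOrd 0).and ((DP.rank_lt_ord 0 κ₀).and h))
    · intro v
      rw [ZFSet.ext_iff]
      refine forall_congr' fun z => iff_congr Iff.rfl ?_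
      rw [mem_ordSet]
      constructor
      · rintro ⟨a, ha, hA, rfl⟩
        rw [rank_toZFSet]
        exact ⟨rfl, ha, hA⟩
      · rintro ⟨h1, h2, h3⟩
        exact ⟨z.rank, h2, h3, h1⟩
  · intro y hy
    obtain ⟨a, -, -, rfl⟩ := (mem_ordSet _ _ _).1 hy
    exact HOD_toZFSet a

theorem ordSet_mem_hodPow (κ₀ : Ordinal.{0}) (A : Set Ordinal.{0})
    (h : DP (fun v => (v 0).rank ∈ A)) : ordSet κ₀ A ∈ hodPow κ₀ := by
  rw [hodPow, ZFSet.mem_sep]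
  refine ⟨?_, HOD_ordSet κ₀ A h⟩
  rw [ZFSet.mem_powerset]
  intro z hz
  obtain ⟨a, ha, -, rfl⟩ := (mem_ordSet _ _ _).1 hz
  exact mem_toZFSet_iff.2 ⟨a, ha, rfl⟩

theorem ordSet_inj {κ₀ : Ordinal.{0}} {A B : Set Ordinal.{0}} (h : ordSet κ₀ A = ordSet κ₀ B) :
    ∀ η < κ₀, η ∈ A ↔ η ∈ B := by
  intro η hη
  have h1 : η.toZFSet ∈ ordSet κ₀ A ↔ η.toZFSet ∈ ordSet κ₀ B := by rw [h]
  rw [mem_ordSet, mem_ordSet] at h1
  constructor
  · intro h2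
    obtain ⟨a, -, ha, h3⟩ := h1.1 ⟨η, hη, h2, rfl⟩
    rw [toZFSet_injective h3]; exact ha
  · intro h2
    obtain ⟨a, -, ha, h3⟩ := h1.2 ⟨η, hη, h2, rfl⟩
    rw [toZFSet_injective h3]; exact ha

/-! ### a branch of length `κ₀` gives a partition in HOD -/

/-- the partition given by the branch of `α` -/
def BPart (κ : Ordinal.{0}) (m : ℕ) (Rl : Ordinal.{0} → (ℕ → Ordinal.{0}) → Prop)
    (κ₀ α ξ : Ordinal.{0}) : Set Ordinal.{0} :=
  {a | a < κ ∧ a.cof = ℵ₀ ∧ ((ξ ≠ 0 ∧ a ∈ Nd κ m Rl α ξ ∧ a ∉ Nd κ m Rl α (ξ + 1)) ∨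
    (ξ = 0 ∧ ¬ ∃ ζ, ζ < κ₀ ∧ ζ ≠ 0 ∧ a ∈ Nd κ m Rl α ζ ∧ a ∉ Nd κ m Rl α (ζ + 1)))}

theorem dpo_diff (hB : Bd m Rl) (hR : DR Rl) (κ α : Ordinal.{0}) :
    DPo (fun q => q 0 ∈ Nd κ m Rl α (q 1) ∧ q 0 ∉ Nd κ m Rl α (q 1 + 1)) := by
  have h1 : DPo (fun q => q 1 ∈ Nd κ m Rl (q 0) (q 2)) :=
    (dpo_Nd hB hR κ).rename (fun n => if n = 0 then 1 else if n = 1 then 0 else n)
  have h2 : DPo (fun q => q 0 ∈ Nd κ m Rl α (q 1)) := h1.subst α
  have h3 : DPo (fun q => ∃ s, (q 1 < s ∧ ∀ t, t < s → ¬ q 1 < t) ∧ q 0 ∉ Nd κ m Rl α s) := by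
    refine DPo.ex (Q := fun s q => (q 1 < s ∧ ∀ t, t < s → ¬ q 1 < t) ∧
      q 0 ∉ Nd κ m Rl α s) ?_
    refine ((DPo.lt 2 0).and ?_).and ?_
    · refine DPo.all (Q := fun t q => t < q 0 → ¬ q 2 < t) ?_
      exact (DPo.lt 0 1).imp (DPo.lt 3 0).not
    · exact (h2.rename (fun n => if n = 0 then 1 else 0)).not
  refine (h2.and h3).congr fun q => and_congr_right fun _ => ?_
  constructor
  · intro h
    exact ⟨q 1 + 1, ⟨lt_add_one _, fun t ht => not_lt.2 (lt_add_one_iff.1 ht)⟩, h⟩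
  · rintro ⟨s, ⟨h4, h5⟩, h6⟩
    have : s = q 1 + 1 := by
      refine le_antisymm ?_ (add_one_le_iff.2 h4)
      by_contra h7
      exact h5 _ (not_le.1 h7) (lt_add_one _)
    rw [← this]
    exact h6

theorem odRel_BPart (hB : Bd m Rl) (hR : DR Rl) (κ κ₀ α : Ordinal.{0}) :
    ODRel (fun ξ a => ξ < κ₀ ∧ a < κ ∧ a ∈ BPart κ m Rl κ₀ α ξ) := by
  rw [odRel_iff_DP]
  have hd := dpo_diff hB hR κ α
  have h0 : DPo (fun q => q 0 = 0) := DPo.eq_const 0 0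
  have h1 : DPo (fun q => q 0 < κ₀ ∧ q 1 < κ ∧ (q 1 < κ ∧ (q 1).cof = ℵ₀ ∧
      ((q 0 ≠ 0 ∧ q 1 ∈ Nd κ m Rl α (q 0) ∧ q 1 ∉ Nd κ m Rl α (q 0 + 1)) ∨
    (q 0 = 0 ∧ ¬ ∃ ζ, ζ < κ₀ ∧ ζ ≠ 0 ∧ q 1 ∈ Nd κ m Rl α ζ ∧ q 1 ∉ Nd κ m Rl α (ζ + 1))))) := by
    refine (DPo.lt_const 0 κ₀).and ((DPo.lt_const 1 κ).and ((DPo.lt_const 1 κ).and
      (DPo.and (DP.of (dfn_cof_omega 1)) (DPo.or (h0.not.and ?_) (h0.and (DPo.not ?_))))))
    · exact hd.rename (fun n => if n = 0 then 1 else 0)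
    · refine DPo.ex (Q := fun ζ q => ζ < κ₀ ∧ ζ ≠ 0 ∧ q 1 ∈ Nd κ m Rl α ζ ∧
        q 1 ∉ Nd κ m Rl α (ζ + 1)) ?_
      exact (DPo.lt_const 0 κ₀).and (h0.not.and (hd.rename (fun n => if n = 0 then 2 else 0)))
  exact h1

theorem splits_of_branch {c κ₀ : Cardinal.{0}} (hc : c.IsRegular) (hc' : ℵ₀ < c)
    (hB : Bd m Rl) (hR : DR Rl) (h0 : κ₀ ≠ 0) {α : Ordinal.{0}}
    (h : Stat (Nd c.ord m Rl α κ₀.ord) c.ord) (hα : α ∈ Nd c.ord m Rl α κ₀.ord) :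
    HODSplits κ₀.ord c.ord := by
  have hpos : 0 < κ₀.ord := by
    rw [Cardinal.lt_ord]
    simpa using pos_iff_ne_zero.2 h0
  refine ⟨BPart c.ord m Rl κ₀.ord α, ?_, ?_, ?_, ?_, HOD_seqSet _ _ _ (odRel_BPart hB hR _ _ _)⟩
  · intro ξ hξ
    rcases eq_or_ne ξ 0 with rfl | hξ0
    · refine h.mono fun a ha hac => ⟨hac, (mem_Nd.1 ha).2.1, Or.inr ⟨rfl, ?_⟩⟩
      rintro ⟨ζ, hζ, -, -, h2⟩
      exact h2 (Nd_anti (add_one_le_iff.2 hζ) ha)
    · obtain ⟨q, hq, -⟩ := (mem_Nd.1 hα).2.2 ξ hξ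
      by_cases hp : Rl α q
      · refine hq.1.2.mono fun a ha hac => ⟨hac, (mem_Nd.1 ha.1).2.1, Or.inl ⟨hξ0, ha.1, ?_⟩⟩
        rw [mem_Nd_succ]
        rintro ⟨-, q', hq', h3⟩
        rw [Lst_unique hB hq' hq α, Lst_unique hB hq' hq a] at h3
        exact ha.2 (h3.1 hp)
      · refine hq.1.1.mono fun a ha hac => ⟨hac, (mem_Nd.1 ha.1).2.1, Or.inl ⟨hξ0, ha.1, ?_⟩⟩
        rw [mem_Nd_succ]
        rintro ⟨-, q', hq', h3⟩
        rw [Lst_unique hB hq' hq α, Lst_unique hB hq' hq a] at h3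
        exact hp (h3.2 ha.2)
  · intro ξ _ a ha
    exact ⟨ha.1, ha.2.1⟩
  · intro a ha hca
    by_cases h1 : ∃ ζ, ζ < κ₀.ord ∧ ζ ≠ 0 ∧ a ∈ Nd c.ord m Rl α ζ ∧ a ∉ Nd c.ord m Rl α (ζ + 1)
    · obtain ⟨ζ, h2, h3, h4⟩ := h1
      exact ⟨ζ, h2, ha, hca, Or.inl ⟨h3, h4⟩⟩
    · exact ⟨0, hpos, ha, hca, Or.inr ⟨rfl, h1⟩⟩
  · rintro ξ hξ η hη a ⟨-, -, h1⟩ ⟨-, -, h2⟩
    rcases h1 with ⟨h3, h4⟩ | ⟨h3, h4⟩ <;> rcases h2 with ⟨h5, h6⟩ | ⟨h5, h6⟩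
    · rcases lt_trichotomy ξ η with h7 | h7 | h7
      · exact absurd (Nd_anti (add_one_le_iff.2 h7) h6.1) h4.2
      · exact h7
      · exact absurd (Nd_anti (add_one_le_iff.2 h7) h4.1) h6.2
    · exact absurd ⟨ξ, hξ, h3, h4⟩ h6
    · exact absurd ⟨η, hη, h5, h6⟩ h4
    · rw [h3, h5]

/-- `α` lies in a stationary node without splitting -/
def Good (κ : Ordinal.{0}) (m : ℕ) (Rl : Ordinal.{0} → (ℕ → Ordinal.{0}) → Prop)
    (κ₀ α h : Ordinal.{0}) : Prop :=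
  h < κ₀ ∧ α ∈ Nd κ m Rl α h ∧ Stat (Nd κ m Rl α h) κ ∧ ¬ ∃ q, Spl κ Rl (Nd κ m Rl α h) q

theorem exists_good {c κ₀ : Cardinal.{0}} (hc : c.IsRegular) (hc' : ℵ₀ < c)
    (hB : Bd m Rl) (hR : DR Rl) (h0 : κ₀ ≠ 0) (hκ₀ : κ₀.ord < c.ord)
    (hns : ¬ HODSplits κ₀.ord c.ord) {β : Ordinal.{0}} (hβ : β < c.ord)
    {e : ZFSet.{0} → Ordinal.{0}} (he : ∀ x ∈ hodPow κ₀.ord, e x < β)
    (hinj : ∀ x ∈ hodPow κ₀.ord, ∀ y ∈ hodPow κ₀.ord, e x = e y → x = y) :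
    AE c.ord {a | a.cof = ℵ₀} (fun α => ∃ h, Good c.ord m Rl κ₀.ord α h) := by
  have hcof := reg_cof hc hc'
  rw [AE_iff]
  intro hS
  set S : Set Ordinal.{0} := {a | a ∈ {a : Ordinal.{0} | a.cof = ℵ₀} ∧
    ¬ ∃ h, Good c.ord m Rl κ₀.ord a h} with hSdef
  set code : Ordinal.{0} → Ordinal.{0} := fun α => e (ordSet κ₀.ord (br c.ord m Rl α)) with hcode
  have hmem : ∀ α, ordSet κ₀.ord (br c.ord m Rl α) ∈ hodPow κ₀.ord := fun α =>
    ordSet_mem_hodPow _ _ (dpo_br hB hR c.ord α)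
  have hcode_lt : ∀ α, code α < β := fun α => he _ (hmem α)
  have hcode_eq : ∀ α α', code α = code α' → ∀ η < κ₀.ord,
      η ∈ br c.ord m Rl α ↔ η ∈ br c.ord m Rl α' := fun α α' h =>
    ordSet_inj (hinj _ (hmem α) _ (hmem α') h)
  rcases stat_or hcof hS (A := {α | α ∈ Nd c.ord m Rl α κ₀.ord}) with hA | hA
  · -- full branches
    obtain ⟨b, hb⟩ := stat_const hc hc' hA hβ code (fun a _ _ => hcode_lt a)
    obtain ⟨α, ⟨⟨-, hα⟩, hαb⟩, -⟩ := hb _ (club_univ (isSuccLimit_of_cof hcof))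
    refine hns (splits_of_branch hc hc' hB hR h0 (α := α) ?_ hα)
    refine hb.mono fun a ha hac => ?_
    have h1 := Nd_eq_of_br hB ha.1.2 (hcode_eq a α (ha.2.trans hαb.symm)) κ₀.ord le_rfl
    rw [← h1]
    exact ha.1.2
  · -- short branches
    have hex : ∀ α ∈ {a | a ∈ S ∧ a ∉ {α | α ∈ Nd c.ord m Rl α κ₀.ord}}, α < c.ord →
        ∃ η < κ₀.ord, α ∈ Nd c.ord m Rl α η ∧ ¬ Stat (Nd c.ord m Rl α η) c.ord := by
      rintro α ⟨⟨h1, h2⟩, h3⟩ hα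
      have h4 : ∃ η < κ₀.ord, ¬ ∃ q, Lst c.ord m Rl (Nd c.ord m Rl α η) q := by
        by_contra h5
        push Not at h5
        exact h3 (self_mem_Nd hα h1 h5)
      obtain ⟨η, ⟨hη, h5⟩, hmin⟩ := WellFounded.has_min (wellFounded_lt (α := Ordinal.{0}))
        {η | η < κ₀.ord ∧ ¬ ∃ q, Lst c.ord m Rl (Nd c.ord m Rl α η) q} h4
      have h6 : α ∈ Nd c.ord m Rl α η := by
        refine self_mem_Nd hα h1 fun η' hη' => ?_
        by_contra h7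
        exact hmin η' ⟨hη'.trans hη, h7⟩ hη'
      refine ⟨η, hη, h6, fun h7 => h2 ⟨η, hη, h6, h7, fun h8 => h5 (exists_Lst h8)⟩⟩
    choose! η hη using hex
    obtain ⟨b, hb⟩ := stat_const hc hc' hA hβ code (fun a _ _ => hcode_lt a)
    obtain ⟨b', hb'⟩ := stat_const hc hc' hb hκ₀ η (fun a ha hac => (hη a ha.1 hac).1)
    obtain ⟨α, ⟨⟨hα, hαb⟩, hαb'⟩, -, hαc⟩ := hb' _ (club_univ (isSuccLimit_of_cof hcof))
    refine (hη α hα hαc).2.2 ?_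
    refine hb'.mono fun a ha hac => ?_
    have h1 := hη a ha.1.1 hac
    have h2 := Nd_eq_of_br hB h1.2.1 (fun ζ hζ => hcode_eq a α (ha.1.2.trans hαb.symm) ζ
      (hζ.trans h1.1)) (η a) le_rfl
    have h3 : η a = η α := ha.2.trans hαb'.symm
    have h4 := h1.2.1
    rw [h2, h3] at h4
    exact h4

/-! ### all formulas -/

/-- the relation defined by a formula -/
def RlF (φ : Fm) (a : Ordinal.{0}) (q : ℕ → Ordinal.{0}) : Prop :=
  Sat Set.univ φ (cons a.toZFSet (fun k => (q k).toZFSet))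

theorem exists_bd_RlF (φ : Fm) : ∃ m, Bd m (RlF φ) := by
  obtain ⟨m, hm⟩ := exists_bd φ
  refine ⟨m, fun a q q' h => hm _ _ _ fun n hn => ?_⟩
  rcases n with _ | n
  · rfl
  · show (q n).toZFSet = (q' n).toZFSet
    rw [h n (by omega)]

theorem dr_RlF (φ : Fm) : DR (RlF φ) := by
  obtain ⟨m, hm⟩ := exists_bd φ
  have h1 : Dfn (fun v => ∃ w : ℕ → ZFSet.{0}, (∀ k < m, bfApp m w v k =
      (bfApp m w v k).rank.toZFSet ∧ (bfApp m w v k).rank = (bfApp m w v (k + m)).rank) ∧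
      Sat Set.univ φ (bfApp m w v)) :=
    bf_dfn_exApp m (P := fun u => (∀ k < m, u k = (u k).rank.toZFSet ∧
      (u k).rank = (u (k + m)).rank) ∧ Sat Set.univ φ u)
      ((Dfn.ball m fun k _ => (dfn_isOrd k).and (dfn_rank_eq _ _)).and ⟨φ, fun _ => Iff.rfl⟩)
  refine (DP.of h1).congr fun v => ?_
  have hcons : cons (v 0).rank.toZFSet (fun k => (v (k + 1)).rank.toZFSet) =
      fun n => (v n).rank.toZFSet := by
    funext n
    cases n <;> rfl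
  show Sat Set.univ φ (cons (v 0).rank.toZFSet (fun k => (v (k + 1)).rank.toZFSet)) ↔ _
  rw [hcons]
  constructor
  · intro h
    refine ⟨fun k => (v k).rank.toZFSet, ?_, ?_⟩
    · intro k hk
      rw [bf_app_lt _ _ hk, bf_app_ge, rank_toZFSet]
      exact ⟨rfl, rfl⟩
    · rw [hm Set.univ _ (fun n => (v n).rank.toZFSet)]
      · exact h
      · intro n hn
        rw [bf_app_lt _ _ hn]
  · rintro ⟨w, h2, h3⟩
    rw [hm Set.univ _ (fun n => (v n).rank.toZFSet)] at h3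
    · exact h3
    · intro n hn
      obtain ⟨h4, h5⟩ := h2 n hn
      rw [bf_app_ge] at h5
      rw [h4, h5]

theorem exists_ult {c : Cardinal.{0}} (hc : c.IsRegular) (hc' : ℵ₀ < c)
    (hpow : ∀ Y : Type, Cardinal.mk Y < c → Cardinal.mk (ℕ → Y) < c)
    (h : OmegaStronglyMeasurable c.ord) : ∃ T, Ult c.ord T := by
  classical
  obtain ⟨κ₀, h0, hκ₀, ⟨β, hβ, e, he, hinj, -⟩, hns⟩ := h
  have hcof := reg_cof hc hc'
  have hlim := isSuccLimit_of_cof hcof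
  choose M hM using exists_bd_RlF
  have hpos : 0 < κ₀.ord := by
    rw [Cardinal.lt_ord]
    simpa using pos_iff_ne_zero.2 h0
  have hgood : ∀ φ, AE c.ord {a | a.cof = ℵ₀} (fun α => ∃ h, Good c.ord (M φ) (RlF φ) κ₀.ord α h) :=
    fun φ => exists_good hc hc' (hM φ) (dr_RlF φ) h0 hκ₀ hns hβ he hinj
  choose C hC hC' using hgood
  have := countable_Fm
  have hCl : Club (⋂ φ, C φ) c.ord := Club.iInter hcof hC
  set S : Set Ordinal.{0} := {a : Ordinal.{0} | a.cof = ℵ₀} ∩ ⋂ φ, C φ with hS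
  have hSst : Stat S c.ord := (stat_cof_omega hcof).inter_club hcof hCl
  have hex : ∀ φ, ∀ α ∈ S, α < c.ord → ∃ h, Good c.ord (M φ) (RlF φ) κ₀.ord α h :=
    fun φ α hα hαc => hC' φ α (Set.mem_iInter.1 hα.2 φ) hαc hα.1
  choose! ht hht using hex
  -- codes
  have hmem : ∀ φ α, ordSet κ₀.ord (br c.ord (M φ) (RlF φ) α) ∈ hodPow κ₀.ord := fun φ α =>
    ordSet_mem_hodPow _ _ (dpo_br (hM φ) (dr_RlF φ) c.ord α)
  set Y : Type := β.ToType × κ₀.ord.ToType with hY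
  have hYc : Cardinal.mk Y < c := by
    rw [hY, Cardinal.mk_prod, Cardinal.lift_id, Cardinal.lift_id, mk_toType, mk_toType]
    exact Cardinal.mul_lt_of_lt hc.aleph0_le (Cardinal.lt_ord.1 hβ) (Cardinal.lt_ord.1 hκ₀)
  have hne : Nonempty Fm := ⟨Fm.eq 0 0⟩
  obtain ⟨sF, hsF⟩ := exists_surjective_nat Fm
  have hβpos : 0 < β := lt_of_le_of_lt zero_le (he _ (hmem (Fm.eq 0 0) 0))
  let cd : Fm → Ordinal.{0} → Y := fun φ α =>
    (if h : e (ordSet κ₀.ord (br c.ord (M φ) (RlF φ) α)) < β then ToType.mk ⟨_, h⟩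
      else ToType.mk ⟨0, hβpos⟩,
     if h : ht φ α < κ₀.ord then ToType.mk ⟨_, h⟩ else ToType.mk ⟨0, hpos⟩)
  have hcd : ∀ φ α α', α ∈ S → α' ∈ S → α < c.ord → α' < c.ord → cd φ α = cd φ α' →
      ht φ α = ht φ α' ∧ ∀ η < κ₀.ord, η ∈ br c.ord (M φ) (RlF φ) α ↔
        η ∈ br c.ord (M φ) (RlF φ) α' := by
    intro φ α α' hα hα' hαc hαc' heq
    have h1 := congrArg Prod.fst heq
    have h2 := congrArg Prod.snd heq
    simp only [cd] at h1 h2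
    rw [dif_pos (he _ (hmem φ α)), dif_pos (he _ (hmem φ α'))] at h1
    rw [dif_pos (hht φ α hα hαc).1, dif_pos (hht φ α' hα' hαc').1] at h2
    have h3 := Subtype.ext_iff.1 (ToType.mk.injective h1)
    have h4 := Subtype.ext_iff.1 (ToType.mk.injective h2)
    exact ⟨h4, ordSet_inj (hinj _ (hmem φ α) _ (hmem φ α') h3)⟩
  obtain ⟨y, hy⟩ := stat_pigeon hc hc' (hpow Y hYc) hSst (fun α => fun n => cd (sF n) α)
  set T : Set Ordinal.{0} := {a | (a ∈ S ∧ (fun n => cd (sF n) a) = y) ∧ a < c.ord} with hT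
  have hTst : Stat T c.ord := hy.mono fun a ha hac => ⟨ha, hac⟩
  obtain ⟨α₀, hα₀, -⟩ := hTst _ (club_univ hlim)
  -- the nodes
  let N : Fm → Set Ordinal.{0} := fun φ => Nd c.ord (M φ) (RlF φ) α₀ (ht φ α₀)
  have hTN : ∀ φ, ∀ a ∈ T, a ∈ N φ := by
    intro φ a ha
    obtain ⟨n, hn⟩ := hsF φ
    have h1 : cd φ a = cd φ α₀ := by
      have h2 : cd (sF n) a = cd (sF n) α₀ := congrFun (ha.1.2.trans hα₀.1.2.symm) n
      rwa [hn] at h2
    obtain ⟨h3, h4⟩ := hcd φ a α₀ ha.1.1 hα₀.1.1 ha.2 hα₀.2 h1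
    have h5 := hht φ a ha.1.1 ha.2
    have h6 := Nd_eq_of_br (hM φ) h5.2.1 (fun ζ hζ => h4 ζ (hζ.trans h5.1)) (ht φ a) le_rfl
    have h7 := h5.2.1
    rw [h6, h3] at h7
    exact h7
  have hNs : ∀ φ q, ¬ Spl c.ord (RlF φ) (N φ) q := fun φ q hq =>
    (hht φ α₀ hα₀.1.1 hα₀.2).2.2.2 ⟨q, hq⟩
  -- almost all in terms of the node
  have key : ∀ φ q, AE c.ord T (fun a => RlF φ a q) ↔
      ¬ Stat {a | a ∈ N φ ∧ ¬ RlF φ a q} c.ord := by
    intro φ q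
    constructor
    · intro h1 h2
      refine hNs φ q ⟨?_, h2⟩
      exact (h1.stat hcof hTst).mono fun a ha _ => ⟨hTN φ a ha.1, ha.2⟩
    · intro h1
      rw [AE_iff]
      intro h2
      exact h1 (h2.mono fun a ha _ => ⟨hTN φ a ha.1, ha.2⟩)
  have hrep : ∀ Q : (ℕ → Ordinal.{0}) → Prop, DPo Q → ∃ (φ : Fm) (p : ℕ → Ordinal.{0}),
      ∀ a q, Q (ocons a q) ↔ RlF φ a (fun n => if n % 2 = 0 then p (n / 2) else q (n / 2)) := by
    rintro Q ⟨P, p, ⟨φ, hφ⟩, hP⟩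
    refine ⟨φ, p, fun a q => ?_⟩
    have h1 := hP (fun k => (ocons a q k).toZFSet)
    simp only [rank_toZFSet] at h1
    have h2 : (fun k => ocons a q k) = ocons a q := rfl
    rw [h2] at h1
    rw [h1, ← hφ]
    have h3 : mixZ (fun k => (ocons a q k).toZFSet) (fun k => (p k).toZFSet) =
        cons a.toZFSet (fun k => ((if k % 2 = 0 then p (k / 2) else q (k / 2)) :
          Ordinal.{0}).toZFSet) := by
      funext n
      rcases Nat.even_or_odd' n with ⟨k, rfl | rfl⟩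
      · rw [mixZ_even]
        rcases k with _ | k
        · rfl
        · have h4 : 2 * (k + 1) = (2 * k + 1) + 1 := by ring
          rw [h4]
          show (q k).toZFSet = ((if (2 * k + 1) % 2 = 0 then p ((2 * k + 1) / 2)
            else q ((2 * k + 1) / 2)) : Ordinal.{0}).toZFSet
          have h5 : (2 * k + 1) % 2 ≠ 0 := by omega
          have h6 : (2 * k + 1) / 2 = k := by omega
          rw [if_neg h5, h6]
      · rw [mixZ_odd]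
        show (p k).toZFSet = ((if (2 * k) % 2 = 0 then p ((2 * k) / 2)
            else q ((2 * k) / 2)) : Ordinal.{0}).toZFSet
        have h5 : (2 * k) % 2 = 0 := by omega
        have h6 : (2 * k) / 2 = k := by omega
        rw [if_pos h5, h6]
    rw [h3]
    rfl
  refine ⟨T, hTst, fun a ha => ⟨ha.2, ha.1.1.1⟩, ?_, ?_⟩
  · intro Q hQ q
    obtain ⟨φ, p, hφ⟩ := hrep Q hQ
    by_cases h1 : AE c.ord T (fun a => Q (ocons a q))
    · exact Or.inl h1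
    · right
      simp only [hφ] at h1 ⊢
      rw [key, not_not] at h1
      rw [AE_iff]
      intro h2
      refine hNs φ _ ⟨?_, h1⟩
      exact h2.mono fun a ha _ => ⟨hTN φ a ha.1, not_not.1 ha.2⟩
  · intro Q hQ
    obtain ⟨φ, p, hφ⟩ := hrep Q hQ
    have hN : DPo (fun q => q 0 ∈ N φ) := by
      have h1 : DPo (fun q => q 2 ∈ Nd c.ord (M φ) (RlF φ) (q 0) (q 1)) :=
        (dpo_Nd (hM φ) (dr_RlF φ) c.ord).rename
          (fun n => if n = 0 then 2 else if n = 1 then 0 else 1)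
      exact (h1.subst α₀).subst (ht φ α₀)
    have h2 : DPo (fun q => ¬ Stat {a | a ∈ N φ ∧ ¬ Q (ocons a q)} c.ord) := by
      refine DPo.not ?_
      refine DP.statC (Q := fun a v => a ∈ N φ ∧ ¬ Q (ocons a (fun k => (v k).rank))) ?_ c.ord
      refine DP.and hN (DP.not (DP.congr hQ fun v => ?_))
      have : ocons (v 0).rank (fun k => (v (k + 1)).rank) = fun k => (v k).rank := by
        funext n
        cases n <;> rfl
      rw [this]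
    refine h2.congr fun q => ?_
    simp only [hφ]
    exact key φ _

end Pool.Agent.Helper73.HE
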