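import Pool.Agent.Helper73.HE.Can

/-! # HE module Val: the canonical values -/

namespace Pool.Agent.Helper73.HE

open Ordinal Cardinal ZFSet Order Pool.Agent.Helper73.HODC

theorem seqO_nat (x : ℕ → Ordinal.{0}) (k : ℕ) : seqO x k = x k := by
  unfold seqO
  rw [Ordinal.card_nat, Cardinal.toNat_natCast]

private theorem col_seq {F : ZFSet.{0}} {n : ℕ} {f : Ordinal.{0} → Ordinal.{0}}
    {x : ℕ → Ordinal.{0}} (h : ∀ k < n, f (k : Ordinal.{0}) = x (k + 1)) :
    col F n f = col F n (seqO (fun k => x (k + 1))) := by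
  apply col_congr
  intro a ha
  obtain ⟨k, rfl⟩ := Ordinal.lt_omega0.1 (ha.trans (Ordinal.natCast_lt_omega0 n))
  rw [seqO_nat]
  exact h k (by exact_mod_cast ha)

open Classical in
private noncomputable def valAux (c : Fm × ℕ) (ρ κ : Ordinal.{0}) (n : ℕ)
    (a : Ordinal.{0} → Ordinal.{0}) (b : Ordinal.{0}) : Ordinal.{0} :=
  if h : ∃ F, CanF c ρ κ F then
    if col h.choose n a < b then col h.choose n a else 0
  else 0

private theorem val_eq_aux (c : Fm × ℕ) (ρ : Ordinal.{0}) (n : ℕ) (x : ℕ → Ordinal.{0}) :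
    val c ρ n x = valAux c ρ (succ (x 0).card).ord n (seqO (fun k => x (k + 1))) (x 1) := rfl

private theorem valAux_congr (c : Fm × ℕ) (ρ κ : Ordinal.{0}) (n : ℕ)
    {a a' : Ordinal.{0} → Ordinal.{0}} (b : Ordinal.{0}) (h : ∀ F, col F n a = col F n a') :
    valAux c ρ κ n a b = valAux c ρ κ n a' b := by
  unfold valAux
  by_cases hF : ∃ F, CanF c ρ κ F
  · rw [dif_pos hF, dif_pos hF, h]
  · rw [dif_neg hF, dif_neg hF]

theorem val_lt (c : Fm × ℕ) (ρ : Ordinal.{0}) (n : ℕ) (x : ℕ → Ordinal.{0}) :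
    val c ρ n x < max (x 1) 1 := by
  have h0 : (0 : Ordinal.{0}) < max (x 1) 1 := lt_of_lt_of_le zero_lt_one (le_max_right _ _)
  rw [val_eq_aux]
  unfold valAux
  by_cases hF : ∃ F, CanF c ρ (succ (x 0).card).ord F
  · rw [dif_pos hF]
    split_ifs with h1
    · exact lt_of_lt_of_le h1 (le_max_left _ _)
    · exact h0
  · rw [dif_neg hF]
    exact h0

theorem val_dep {c : Fm × ℕ} {ρ : Ordinal.{0}} {n : ℕ} (hn : 1 ≤ n) {x y : ℕ → Ordinal.{0}}
    (h : ∀ k ≤ n, x k = y k) : val c ρ n x = val c ρ n y := by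
  rw [val_eq_aux, val_eq_aux, h 0 (Nat.zero_le n), h 1 hn]
  apply valAux_congr
  intro F
  rw [← col_seq (F := F) (n := n) (f := seqO (fun k => x (k + 1))) (x := y)]
  intro k hk
  rw [seqO_nat]
  exact h (k + 1) hk

theorem val_iff (c : Fm × ℕ) (ρ : Ordinal.{0}) (n : ℕ) (x : ℕ → Ordinal.{0})
    (y : Ordinal.{0}) : y = val c ρ n x ↔
      ∃ κ, (succ (x 0).card).ord = κ ∧
        ((∃ F, CanF c ρ κ F ∧ ∃ z, (∀ k < n, fn z (k : Ordinal.{0}) = x (k + 1)) ∧
          ∃ e, col F n (fn z) = e ∧ ((e < x 1 ∧ y = e) ∨ (¬ e < x 1 ∧ y = 0))) ∨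
        ((¬ ∃ F, CanF c ρ κ F) ∧ y = 0)) := by
  rw [val_eq_aux]
  constructor
  · intro hy
    refine ⟨_, rfl, ?_⟩
    by_cases hF : ∃ F, CanF c ρ (succ (x 0).card).ord F
    · left
      obtain ⟨z, hz, -⟩ := exists_fn (seqO (fun k => x (k + 1))) ω
      have hz' : ∀ k < n, fn z (k : Ordinal.{0}) = x (k + 1) := by
        intro k _
        rw [hz _ (Ordinal.natCast_lt_omega0 k), seqO_nat]
      refine ⟨hF.choose, hF.choose_spec, z, hz', _, rfl, ?_⟩
      rw [col_seq hz']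
      unfold valAux at hy
      rw [dif_pos hF] at hy
      by_cases h1 : col hF.choose n (seqO (fun k => x (k + 1))) < x 1
      · left
        rw [if_pos h1] at hy
        exact ⟨h1, hy⟩
      · right
        rw [if_neg h1] at hy
        exact ⟨h1, hy⟩
    · right
      unfold valAux at hy
      rw [dif_neg hF] at hy
      exact ⟨hF, hy⟩
  · rintro ⟨κ, rfl, ⟨F, hF, z, hz, e, rfl, h⟩ | ⟨hF, h⟩⟩
    · have hF' : ∃ F, CanF c ρ (succ (x 0).card).ord F := ⟨F, hF⟩
      have hFe : F = hF'.choose := canF_unique hF hF'.choose_spec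
      rw [col_seq hz] at h
      unfold valAux
      rw [dif_pos hF', ← hFe]
      rcases h with ⟨h1, h2⟩ | ⟨h1, h2⟩
      · rw [if_pos h1, h2]
      · rw [if_neg h1, h2]
    · unfold valAux
      rw [dif_neg hF, h]

private theorem dp_canF (c : Fm × ℕ) (ρ : Ordinal.{0}) (j k : ℕ) :
    DP (fun v => CanF c ρ (v j).rank (v k)) := by
  refine (DP.ex (Q := fun x v => x = ρ.toZFSet ∧ CanF c x.rank (v j).rank (v k)) ?_).congr ?_
  · exact (DP.eq_ord 0 ρ).and (DP.of (dfn_canF c 0 (j + 1) (k + 1)))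
  · intro v
    constructor
    · intro h
      refine ⟨_, rfl, ?_⟩
      rw [rank_toZFSet]
      exact h
    · rintro ⟨x, rfl, h⟩
      rw [rank_toZFSet] at h
      exact h

theorem dp_col (n : Ordinal.{0}) (i k l : ℕ) :
    DP (fun v => col (v i) n (fn (v k)) = (v l).rank) := by
  refine (DP.ex (Q := fun x v => x = n.toZFSet ∧
    col (v i) x.rank (fn (v k)) = (v l).rank) ?_).congr ?_
  · exact (DP.eq_ord 0 n).and (DP.of (dfn_col (i + 1) 0 (k + 1) (l + 1)))
  · intro v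
    constructor
    · intro h
      refine ⟨_, rfl, ?_⟩
      rw [rank_toZFSet]
      exact h
    · rintro ⟨x, rfl, h⟩
      rw [rank_toZFSet] at h
      exact h

theorem dp_fn (a : Ordinal.{0}) (i k : ℕ) :
    DP (fun v => fn (v i) a = (v k).rank) := by
  refine (DP.ex (Q := fun x v => x = a.toZFSet ∧ fn (v i) x.rank = (v k).rank) ?_).congr ?_
  · exact (DP.eq_ord 0 a).and (DP.fn (i + 1) 0 (k + 1))
  · intro v
    constructor
    · intro h
      refine ⟨_, rfl, ?_⟩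
      rw [rank_toZFSet]
      exact h
    · rintro ⟨x, rfl, h⟩
      rw [rank_toZFSet] at h
      exact h

theorem dp_ball (m : ℕ) {P : ℕ → (ℕ → ZFSet.{0}) → Prop} (h : ∀ j < m, DP (P j)) :
    DP (fun v => ∀ j < m, P j v) := by
  induction m with
  | zero =>
    refine (DP.const True).congr fun v => ?_
    simp
  | succ m ih =>
    refine ((ih fun j hj => h j (by omega)).and (h m (Nat.lt_succ_self m))).congr fun v => ?_
    constructor
    · intro h1
      exact ⟨fun j hj => h1 j (by omega), h1 m (Nat.lt_succ_self m)⟩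
    · rintro ⟨h1, h2⟩ j hj
      by_cases hjm : j = m
      · rw [hjm]
        exact h2
      · exact h1 j (by omega)

theorem dpo_val (c : Fm × ℕ) (ρ : Ordinal.{0}) {n : ℕ} (hn : 1 ≤ n) :
    DPo (fun q => q 0 = val c ρ n (fun k => q (k + 1))) := by
  have _ := hn
  refine DP.congr ?_ (fun v => val_iff c ρ n (fun k => (v (k + 1)).rank) (v 0).rank)
  refine DP.exO (Q := fun κ v => (succ (v 1).rank.card).ord = κ ∧
        ((∃ F, CanF c ρ κ F ∧ ∃ z, (∀ k < n, fn z (k : Ordinal.{0}) = (v (k + 1 + 1)).rank) ∧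
          ∃ e, col F n (fn z) = e ∧ ((e < (v 2).rank ∧ (v 0).rank = e) ∨
            (¬ e < (v 2).rank ∧ (v 0).rank = 0))) ∨
        ((¬ ∃ F, CanF c ρ κ F) ∧ (v 0).rank = 0))) ?_
  refine (DP.of (dfn_succCard 2 0)).and (DP.or ?_ (DP.and (DP.not ?_) (DP.rank_eq_ord 1 0)))
  · refine DP.ex (Q := fun F v => CanF c ρ (v 0).rank F ∧
      ∃ z, (∀ k < n, fn z (k : Ordinal.{0}) = (v (k + 1 + 1 + 1)).rank) ∧
          ∃ e, col F n (fn z) = e ∧ ((e < (v 3).rank ∧ (v 1).rank = e) ∨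
            (¬ e < (v 3).rank ∧ (v 1).rank = 0))) ?_
    refine (dp_canF c ρ 1 0).and ?_
    refine DP.ex (Q := fun z v =>
      (∀ k < n, fn z (k : Ordinal.{0}) = (v (k + 1 + 1 + 1 + 1)).rank) ∧
          ∃ e, col (v 0) n (fn z) = e ∧ ((e < (v 4).rank ∧ (v 2).rank = e) ∨
            (¬ e < (v 4).rank ∧ (v 2).rank = 0))) ?_
    refine (dp_ball n (P := fun k v =>
      fn (v 0) (k : Ordinal.{0}) = (v (k + 1 + 1 + 1 + 1 + 1)).rank)
        fun k _ => dp_fn _ _ _).and ?_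
    refine DP.exO (Q := fun e v => col (v 1) n (fn (v 0)) = e ∧
      ((e < (v 5).rank ∧ (v 3).rank = e) ∨ (¬ e < (v 5).rank ∧ (v 3).rank = 0))) ?_
    exact (dp_col n 2 1 0).and (((DP.rank_lt 0 6).and (DP.rank_eq 4 0)).or
      ((DP.rank_lt 0 6).not.and (DP.rank_eq_ord 4 0)))
  · exact DP.ex (Q := fun F v => CanF c ρ (v 0).rank F) (dp_canF c ρ 1 0)

end Pool.Agent.Helper73.HE
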